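import Pool.Agent.Lib.MP_fd31a8_an.Defs

/-! # Basic facts on divergences and perimeters -/

open MeasureTheory Set Filter
open scoped ENNReal NNReal Topology

namespace MP_fd31a8_an

variable {d : ℕ}

/-- the divergence as a continuous linear functional of the derivative -/
noncomputable def trL (d : ℕ) : (Sp d →L[ℝ] Sp d) →L[ℝ] ℝ :=
  ∑ i : Fin d, (EuclideanSpace.proj (𝕜 := ℝ) i).comp
    ((ContinuousLinearMap.apply ℝ (Sp d)) (EuclideanSpace.single i (1 : ℝ)))

lemma divg_eq (φ : Sp d → Sp d) (x : Sp d) : divg φ x = trL d (fderiv ℝ φ x) := by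
  simp [divg, trL]

lemma continuous_divg {φ : Sp d → Sp d} (h : ContDiff ℝ 1 φ) : Continuous (divg φ) := by
  have : divg φ = fun x => trL d (fderiv ℝ φ x) := funext (divg_eq φ)
  rw [this]
  exact (trL d).continuous.comp (h.continuous_fderiv one_ne_zero)

lemma hasCompactSupport_divg {φ : Sp d → Sp d} (h : HasCompactSupport φ) :
    HasCompactSupport (divg φ) := by
  have : divg φ = fun x => trL d (fderiv ℝ φ x) := funext (divg_eq φ)
  rw [this]
  exact (h.fderiv ℝ).comp_left (by simp)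

lemma integrable_divg {φ : Sp d → Sp d} (h : ContDiff ℝ 1 φ) (h2 : HasCompactSupport φ) :
    Integrable (divg φ) :=
  (continuous_divg h).integrable_of_hasCompactSupport (hasCompactSupport_divg h2)

lemma exists_bound_divg {φ : Sp d → Sp d} (h : ContDiff ℝ 1 φ) (h2 : HasCompactSupport φ) :
    ∃ C : ℝ, 0 ≤ C ∧ ∀ x, |divg φ x| ≤ C := by
  obtain ⟨C, hC⟩ := (hasCompactSupport_divg h2).exists_bound_of_continuous (continuous_divg h)
  exact ⟨C, (norm_nonneg _).trans (hC 0), hC⟩

lemma perimeter_congr {A B : Set (Sp d)} (h : A =ᵐ[volume] B) : perimeter A = perimeter B := by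
  unfold perimeter
  refine iSup_congr fun φ => iSup_congr fun _ => ?_
  rw [setIntegral_congr_set h]

lemma ofReal_le_perimeter {φ : Sp d → Sp d} (hφ : φ ∈ TestField d) (A : Set (Sp d)) :
    ENNReal.ofReal (∫ x in A, divg φ x) ≤ perimeter A := by
  unfold perimeter
  exact le_iSup₂_of_le φ hφ le_rfl

lemma integral_le_perimeter {φ : Sp d → Sp d} (hφ : φ ∈ TestField d) {A : Set (Sp d)}
    (hA : perimeter A ≠ ∞) : ∫ x in A, divg φ x ≤ (perimeter A).toReal := by
  have := ofReal_le_perimeter hφ A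
  exact (ENNReal.ofReal_le_iff_le_toReal hA).1 this

lemma neg_mem_testField {φ : Sp d → Sp d} (hφ : φ ∈ TestField d) : (fun x => - φ x) ∈ TestField d := by
  obtain ⟨h1, h2, h3⟩ := hφ
  exact ⟨h1.neg, h2.neg, fun x => by simpa using h3 x⟩

lemma divg_neg (φ : Sp d → Sp d) (x : Sp d) : divg (fun x => - φ x) x = - divg φ x := by
  simp [divg_eq, fderiv_fun_neg]

lemma abs_integral_le_perimeter {φ : Sp d → Sp d} (hφ : φ ∈ TestField d) {A : Set (Sp d)}
    (hA : perimeter A ≠ ∞) : |∫ x in A, divg φ x| ≤ (perimeter A).toReal := by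
  rw [abs_le]
  constructor
  · have := integral_le_perimeter (neg_mem_testField hφ) hA
    simp only [divg_neg, integral_neg] at this
    linarith
  · exact integral_le_perimeter hφ hA

lemma divg_smul {f : Sp d → ℝ} {φ : Sp d → Sp d} {x : Sp d} (hf : DifferentiableAt ℝ f x)
    (hφ : DifferentiableAt ℝ φ x) :
    divg (fun y => f y • φ y) x = f x * divg φ x + fderiv ℝ f x (φ x) := by
  have h1 : fderiv ℝ (fun y => f y • φ y) x = f x • fderiv ℝ φ x + (fderiv ℝ f x).smulRight (φ x) :=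
    fderiv_fun_smul hf hφ
  have h2 : φ x = ∑ i : Fin d, (φ x i) • EuclideanSpace.single i (1 : ℝ) := by
    ext j
    simp [Finset.sum_apply, Pi.single_apply]
  unfold divg
  rw [h1]
  simp only [add_apply, smul_apply,
    ContinuousLinearMap.smulRight_apply, PiLp.add_apply, PiLp.smul_apply, smul_eq_mul,
    Finset.sum_add_distrib, Finset.mul_sum]
  congr 1
  conv_rhs => rw [h2]
  rw [map_sum]
  simp [mul_comm]

lemma divg_add {φ ψ : Sp d → Sp d} {x : Sp d} (hφ : DifferentiableAt ℝ φ x)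
    (hψ : DifferentiableAt ℝ ψ x) :
    divg (fun y => φ y + ψ y) x = divg φ x + divg ψ x := by
  simp [divg_eq, fderiv_fun_add hφ hψ]

lemma divg_sub {φ ψ : Sp d → Sp d} {x : Sp d} (hφ : DifferentiableAt ℝ φ x)
    (hψ : DifferentiableAt ℝ ψ x) :
    divg (fun y => φ y - ψ y) x = divg φ x - divg ψ x := by
  simp [divg_eq, fderiv_fun_sub hφ hψ]

lemma divg_congr {φ ψ : Sp d → Sp d} {x : Sp d} (h : φ =ᶠ[𝓝 x] ψ) : divg φ x = divg ψ x := by
  simp [divg_eq, h.fderiv_eq]

end MP_fd31a8_an
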