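import Pool.Agent.Lib.MP_fd31a8_an.Domain

/-! # The boundary of `Ω` is of class `C^{1,α}` -/

open MeasureTheory Set Filter
open scoped ENNReal NNReal Topology

namespace MP_fd31a8_an

variable {d : ℕ}

lemma holderOnWith_of_real {X Y : Type*} [NormedAddCommGroup X] [NormedAddCommGroup Y] {f : X → Y}
    {V : Set X} {C α : ℝ} (hC : 0 ≤ C) (hα : 0 ≤ α)
    (h : ∀ x ∈ V, ∀ y ∈ V, ‖f x - f y‖ ≤ C * ‖x - y‖ ^ α) :
    HolderOnWith C.toNNReal α.toNNReal f V := by
  intro x hx y hy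
  rw [edist_dist, edist_dist, dist_eq_norm, dist_eq_norm, Real.coe_toNNReal α hα,
    ENNReal.ofReal_rpow_of_nonneg (norm_nonneg _) hα]
  have : ((C.toNNReal : ℝ≥0) : ℝ≥0∞) = ENNReal.ofReal C := rfl
  rw [this, ← ENNReal.ofReal_mul hC]
  exact ENNReal.ofReal_le_ofReal (h x hx y hy)

namespace Profile

variable {α : ℝ} (P : Profile α)

/-- bound for `g'` on `[-2,2]` -/
noncomputable def B : ℝ := 4 * (1 + P.A) + 4 * P.A

lemma B_pos : 0 < P.B := by
  have := P.A_pos
  unfold B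
  positivity

lemma abs_c_le {t : ℝ} : |P.c t| ≤ |t| := by
  rcases le_total 0 t with h | h
  · rw [abs_of_nonneg h, abs_of_nonneg (P.c_nonnegD h)]
    exact P.le_self t h
  · have h1 : 0 ≤ -t := by linarith
    have h2 := P.le_self (-t) h1
    have h3 := P.c_nonnegD h1
    rw [P.odd] at h2 h3
    rw [abs_of_nonpos h, abs_of_nonpos (by linarith)]
    exact h2

lemma abs_g'_leD {t : ℝ} (ht : |t| ≤ 2) : |P.g' t| ≤ P.B := by
  unfold g' B
  have h1 := P.abs_c_le (t := t)
  have hA := P.A_pos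
  calc |2 * (1 + P.A) * t - 2 * P.A * P.c t| ≤ |2 * (1 + P.A) * t| + |2 * P.A * P.c t| :=
        abs_sub _ _
    _ = 2 * (1 + P.A) * |t| + 2 * P.A * |P.c t| := by
        rw [abs_mul, abs_mul (2 * P.A), abs_of_pos (by positivity : 0 < 2 * (1 + P.A)),
          abs_of_pos (by positivity : 0 < 2 * P.A)]
    _ ≤ 2 * (1 + P.A) * 2 + 2 * P.A * 2 := by
        gcongr
        linarith
    _ = _ := by ring

lemma abs_g_sub_leD (h0 : 0 < α) {s t : ℝ} (hs : |s| ≤ 2) (ht : |t| ≤ 2) :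
    |P.g s - P.g t| ≤ P.B * |s - t| := by
  have key := (convex_Icc (-2:ℝ) 2).norm_image_sub_le_of_norm_hasDerivWithin_le
    (f := P.g) (f' := P.g') (C := P.B)
    (fun x _ => (P.hasDerivAt_g h0 x).hasDerivWithinAt)
    (fun x hx => P.abs_g'_leD (abs_le.2 hx)) (abs_le.1 ht) (abs_le.1 hs)
  exact key

/-- Hölder constant for `g'` on `[-2,2]` -/
noncomputable def Hc : ℝ := 8 * (1 + P.A) + 2 * P.A * P.L

lemma Hc_nonneg : 0 ≤ P.Hc := by
  have := P.A_pos
  have := P.L_nonneg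
  unfold Hc
  positivity

lemma abs_g'_sub_le (h0 : 0 < α) (h1 : α < 1) {s t : ℝ} (hs : |s| ≤ 2) (ht : |t| ≤ 2) :
    |P.g' s - P.g' t| ≤ P.Hc * |s - t| ^ α := by
  have hA := P.A_pos
  have h4 : |s - t| ≤ 4 := by
    calc |s - t| ≤ |s| + |t| := abs_sub _ _
      _ ≤ 4 := by linarith
  have h5 : |s - t| ≤ 4 * |s - t| ^ α := by
    rcases (abs_nonneg (s - t)).eq_or_lt with h | h
    · rw [← h, Real.zero_rpow h0.ne', mul_zero]
    · calc |s - t| = |s - t| ^ (1 - α) * |s - t| ^ α := by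
            rw [← Real.rpow_add h]
            norm_num
        _ ≤ (4:ℝ) ^ (1 - α) * |s - t| ^ α := by
            gcongr
        _ ≤ (4:ℝ) ^ (1:ℝ) * |s - t| ^ α := by
            gcongr
            · norm_num
            · linarith
        _ = 4 * |s - t| ^ α := by rw [Real.rpow_one]
  have h6 := P.holder s t
  have h7 : P.g' s - P.g' t = 2 * (1 + P.A) * (s - t) - 2 * P.A * (P.c s - P.c t) := by
    unfold g'
    ring
  rw [h7]
  calc |2 * (1 + P.A) * (s - t) - 2 * P.A * (P.c s - P.c t)|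
      ≤ |2 * (1 + P.A) * (s - t)| + |2 * P.A * (P.c s - P.c t)| := abs_sub _ _
    _ = 2 * (1 + P.A) * |s - t| + 2 * P.A * |P.c s - P.c t| := by
        rw [abs_mul, abs_mul (2 * P.A), abs_of_pos (by positivity : 0 < 2 * (1 + P.A)),
          abs_of_pos (by positivity : 0 < 2 * P.A)]
    _ ≤ 2 * (1 + P.A) * (4 * |s - t| ^ α) + 2 * P.A * (P.L * |s - t| ^ α) := by gcongr
    _ = P.Hc * |s - t| ^ α := by
        unfold Hc
        ring

/-- the inverse of `g` on `[0, ∞)` -/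
lemma exists_inverse (h0 : 0 < α) : ∃ γ : ℝ → ℝ, (∀ v, 0 ≤ γ v) ∧ ∀ v, 0 ≤ v → P.g (γ v) = v := by
  have : ∀ v : ℝ, ∃ t, 0 ≤ t ∧ (0 ≤ v → P.g t = v) := by
    intro v
    rcases lt_or_ge v 0 with hv | hv
    · exact ⟨0, le_rfl, fun h => absurd hv (not_lt.2 h)⟩
    · have h1 : v ∈ Icc (P.g 0) (P.g (v + 1)) := by
        rw [P.g_zeroD]
        refine ⟨hv, ?_⟩
        have := P.sq_le_gD (v + 1)
        nlinarith
      obtain ⟨t, ht, hgt⟩ := intermediate_value_Icc (by linarith : (0:ℝ) ≤ v + 1)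
        (P.continuous_g h0).continuousOn h1
      exact ⟨t, ht.1, fun _ => hgt⟩
  choose γ h1 h2 using this
  exact ⟨γ, h1, h2⟩

/-- the sum over the other coordinates -/
noncomputable def w (j : Fin d) (z : Sp d) : ℝ := 1 - ∑ l ∈ Finset.univ.erase j, P.g (z l)

lemma w_eq (j : Fin d) (z : Sp d) : P.w j z = 1 - P.G z + P.g (z j) := by
  unfold w G
  rw [← Finset.sum_erase_add _ _ (Finset.mem_univ j)]
  ring

/-- the derivative of `w` -/
noncomputable def dw (j : Fin d) (z : Sp d) : Sp d →L[ℝ] ℝ :=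
  - ∑ l ∈ Finset.univ.erase j, P.g' (z l) • (EuclideanSpace.proj (𝕜 := ℝ) l : Sp d →L[ℝ] ℝ)

lemma hasFDerivAt_w (h0 : 0 < α) (j : Fin d) (z : Sp d) : HasFDerivAt (P.w j) (P.dw j z) z := by
  unfold w dw
  refine HasFDerivAt.const_sub ?_ 1
  refine HasFDerivAt.fun_sum fun l _ => ?_
  have h1 : HasFDerivAt (fun z : Sp d => z l) (EuclideanSpace.proj (𝕜 := ℝ) l : Sp d →L[ℝ] ℝ) z :=
    (EuclideanSpace.proj (𝕜 := ℝ) l : Sp d →L[ℝ] ℝ).hasFDerivAt
  exact (P.hasDerivAt_g h0 (z l)).comp_hasFDerivAt z h1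

lemma norm_proj_le (l : Fin d) : ‖(EuclideanSpace.proj (𝕜 := ℝ) l : Sp d →L[ℝ] ℝ)‖ ≤ 1 := by
  refine ContinuousLinearMap.opNorm_le_bound _ zero_le_one fun x => ?_
  rw [one_mul]
  exact PiLp.norm_apply_le x l

theorem hasC1HolderBoundary (h0 : 0 < α) (h1 : α < 1) :
    HasC1HolderBoundary α.toNNReal (P.Omega d) := by
  intro x hx
  have hG : P.G x = 1 := P.frontier_Omega_subset h0 hx
  -- a nonzero coordinate
  obtain ⟨j, hj⟩ : ∃ j, x j ≠ 0 := by
    by_contra hcon
    push Not at hcon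
    have : x = 0 := by
      ext j
      exact hcon j
    exact P.ne_zero_of_one_le_G hG.ge this
  set t0 : ℝ := |x j| with ht0
  have ht0pos : 0 < t0 := abs_pos.2 hj
  obtain ⟨σ, hσ1, hσ2⟩ : ∃ σ : ℝ, |σ| = 1 ∧ σ * x j = t0 := by
    rcases lt_or_gt_of_ne hj with h | h
    · exact ⟨-1, by simp, by rw [ht0, abs_of_neg h]; ring⟩
    · exact ⟨1, by simp, by rw [ht0, abs_of_pos h]; ring⟩
  have hσσ : σ * σ = 1 := by
    rw [← abs_mul_abs_self, hσ1]
    norm_num
  set e : Sp d := EuclideanSpace.single j σ with he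
  have hinner : ∀ y : Sp d, inner ℝ y e = σ * y j := by
    intro y
    rw [he]
    simp [EuclideanSpace.inner_single_right]
  have hcoord : ∀ (y : Sp d) (l : Fin d), l ≠ j → (y - inner ℝ y e • e) l = y l := by
    intro y l hl
    simp [he, hl]
  have hwproj : ∀ y : Sp d, P.w j (y - inner ℝ y e • e) = P.w j y := by
    intro y
    unfold w
    congr 1
    refine Finset.sum_congr rfl fun l hl => ?_
    rw [hcoord y l (Finset.ne_of_mem_erase hl)]
  obtain ⟨γ, hγ0, hγ⟩ := P.exists_inverse h0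
  set m : ℝ := t0 / 2 with hm
  have hm0 : 0 < m := by positivity
  have hgm : 0 < P.g m := by
    have := P.g_lt_of_lt le_rfl hm0
    rwa [P.g_zeroD] at this
  have hwx : P.w j x = P.g t0 := by
    rw [P.w_eq, hG, ht0, P.g_absD]
    ring
  have hgmt : P.g m < P.g t0 := P.g_lt_of_lt hm0.le (by rw [hm]; linarith)
  -- facts on `γ`
  have hγm : ∀ v, P.g m < v → m < γ v := by
    intro v hv
    have := hγ v (hgm.le.trans hv.le)
    rw [← this] at hv
    exact (P.g_lt_iff hm0.le (hγ0 v)).1 hv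
  have hγlip : ∀ u v, P.g m < u → P.g m < v → |γ u - γ v| ≤ |u - v| / (2 * m) := by
    have aux : ∀ u v, P.g m < u → P.g m < v → γ u ≤ γ v → |γ u - γ v| ≤ |u - v| / (2 * m) := by
      intro u v hu hv h
      have h2 := P.sq_sub_sq_le (hγ0 u) h
      rw [hγ u (hgm.le.trans hu.le), hγ v (hgm.le.trans hv.le)] at h2
      have h3 := hγm u hu
      rw [abs_sub_comm, abs_of_nonneg (sub_nonneg.2 h), le_div_iff₀ (by positivity), abs_sub_comm]
      refine le_trans ?_ (le_abs_self _)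
      nlinarith
    intro u v hu hv
    rcases le_total (γ u) (γ v) with h | h
    · exact aux u v hu hv h
    · rw [abs_sub_comm, abs_sub_comm u]
      exact aux v u hv hu h
  have hγcont : ∀ v, P.g m < v → ContinuousAt γ v := by
    intro v hv
    rw [ContinuousAt, tendsto_iff_norm_sub_tendsto_zero]
    have h2 : Tendsto (fun u : ℝ => |u - v| / (2 * m)) (𝓝 v) (𝓝 (|v - v| / (2 * m))) := by
      have : Continuous fun u : ℝ => |u - v| / (2 * m) := by fun_prop
      exact this.tendsto v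
    rw [sub_self, abs_zero, zero_div] at h2
    refine squeeze_zero' (Eventually.of_forall fun _ => norm_nonneg _) ?_ h2
    filter_upwards [Ioi_mem_nhds hv] with u hu
    exact hγlip u v hu hv
  have hγder : ∀ v, P.g m < v → HasDerivAt γ (P.g' (γ v))⁻¹ v := by
    intro v hv
    refine HasDerivAt.of_local_left_inverse (hγcont v hv) (P.hasDerivAt_g h0 _) ?_ ?_
    · have := P.two_mul_le_gD' (hγ0 v)
      have := hγm v hv
      have : 0 < P.g' (γ v) := by linarith
      exact this.ne'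
    · filter_upwards [Ioi_mem_nhds hv] with u hu
      exact hγ u (hgm.le.trans (le_of_lt hu))
  have hγ1 : ∀ v, 0 ≤ v → v ≤ 1 → γ v ≤ 1 := by
    intro v hv hv1
    by_contra hcon
    push Not at hcon
    have h2 := P.sq_le_gD (γ v)
    rw [hγ v hv] at h2
    nlinarith
  -- the neighbourhood
  set V : Set (Sp d) := {z | (∀ l, |z l| < 2) ∧ P.g m < P.w j z} with hV
  have hwcont : Continuous (P.w j) :=
    continuous_iff_continuousAt.2 fun z => (P.hasFDerivAt_w h0 j z).continuousAt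
  have hVo : IsOpen V := by
    have : V = (⋂ l, {z : Sp d | |z l| < 2}) ∩ {z | P.g m < P.w j z} := by
      ext z
      simp [hV]
    rw [this]
    refine IsOpen.inter (isOpen_iInter_of_finite fun l => isOpen_lt ?_ continuous_const)
      (isOpen_lt continuous_const hwcont)
    fun_prop
  set f : Sp d → ℝ := fun z => γ (P.w j z) with hf
  set D : Sp d → (Sp d →L[ℝ] ℝ) := fun z => (P.g' (f z))⁻¹ • P.dw j z with hD
  have hfder : ∀ z ∈ V, HasFDerivAt f (D z) z := by
    intro z hz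
    exact (hγder _ hz.2).comp_hasFDerivAt z (P.hasFDerivAt_w h0 j z)
  have hwle : ∀ z, P.w j z ≤ 1 := by
    intro z
    unfold w
    have : 0 ≤ ∑ l ∈ Finset.univ.erase j, P.g (z l) := Finset.sum_nonneg fun l _ => P.g_nonneg _
    linarith
  -- bounds on `V`
  have hB := P.B_pos
  have hfm : ∀ z ∈ V, m < f z := fun z hz => hγm _ hz.2
  have hf1 : ∀ z ∈ V, f z ≤ 1 := fun z hz => hγ1 _ (hgm.le.trans hz.2.le) (hwle z)
  have hfabs : ∀ z ∈ V, |f z| ≤ 2 := fun z hz => by
    rw [abs_of_nonneg (hγ0 _)]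
    linarith [hf1 z hz]
  have hgf : ∀ z ∈ V, 2 * m ≤ P.g' (f z) := fun z hz => by
    have := P.two_mul_le_gD' (hγ0 (P.w j z))
    have := hfm z hz
    linarith
  have hwlip : ∀ z ∈ V, ∀ z' ∈ V, |P.w j z - P.w j z'| ≤ d * P.B * ‖z - z'‖ := by
    intro z hz z' hz'
    unfold w
    have e1 : (1 - ∑ l ∈ Finset.univ.erase j, P.g (z l)) - (1 - ∑ l ∈ Finset.univ.erase j, P.g (z' l))
        = - ∑ l ∈ Finset.univ.erase j, (P.g (z l) - P.g (z' l)) := by
      rw [Finset.sum_sub_distrib]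
      ring
    rw [e1, abs_neg]
    calc |∑ l ∈ Finset.univ.erase j, (P.g (z l) - P.g (z' l))|
        ≤ ∑ l ∈ Finset.univ.erase j, |P.g (z l) - P.g (z' l)| := Finset.abs_sum_le_sum_abs _ _
      _ ≤ ∑ _l ∈ Finset.univ.erase j, P.B * ‖z - z'‖ := by
          refine Finset.sum_le_sum fun l _ => ?_
          refine (P.abs_g_sub_leD h0 (hz.1 l).le (hz'.1 l).le).trans ?_
          gcongr
          exact PiLp.norm_apply_le (z - z') l
      _ = ((Finset.univ.erase j).card : ℝ) * (P.B * ‖z - z'‖) := by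
          rw [Finset.sum_const, nsmul_eq_mul]
      _ ≤ d * (P.B * ‖z - z'‖) := by
          gcongr
          calc (Finset.univ.erase j).card ≤ (Finset.univ : Finset (Fin d)).card :=
                Finset.card_le_card (Finset.erase_subset _ _)
            _ = d := by simp
      _ = d * P.B * ‖z - z'‖ := by ring
  set Lf : ℝ := d * P.B / (2 * m) with hLf
  have hLf0 : 0 ≤ Lf := by positivity
  have hflip : ∀ z ∈ V, ∀ z' ∈ V, |f z - f z'| ≤ Lf * ‖z - z'‖ := by
    intro z hz z' hz'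
    refine (hγlip _ _ hz.2 hz'.2).trans ?_
    rw [hLf, div_mul_eq_mul_div]
    gcongr
    exact hwlip z hz z' hz'
  have hH := P.Hc_nonneg
  -- coefficients
  have hcoef : ∀ z ∈ V, ∀ z' ∈ V, ∀ l, |(P.g' (f z))⁻¹ * P.g' (z l) - (P.g' (f z'))⁻¹ * P.g' (z' l)|
      ≤ (P.Hc / (2 * m) + P.B * (P.Hc * Lf ^ α) / (2 * m) ^ 2) * ‖z - z'‖ ^ α := by
    intro z hz z' hz' l
    have a0 := hgf z hz
    have a0' := hgf z' hz'
    have b0 : 0 < P.g' (f z) := by linarith
    have b0' : 0 < P.g' (f z') := by linarith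
    have a1 : |P.g' (z l) - P.g' (z' l)| ≤ P.Hc * ‖z - z'‖ ^ α := by
      refine (P.abs_g'_sub_le h0 h1 (hz.1 l).le (hz'.1 l).le).trans ?_
      gcongr
      exact PiLp.norm_apply_le (z - z') l
    have a2 : |P.g' (f z) - P.g' (f z')| ≤ P.Hc * Lf ^ α * ‖z - z'‖ ^ α := by
      refine (P.abs_g'_sub_le h0 h1 (hfabs z hz) (hfabs z' hz')).trans ?_
      rw [mul_assoc, ← Real.mul_rpow hLf0 (norm_nonneg _)]
      gcongr
      exact hflip z hz z' hz'
    have a3 : |P.g' (z' l)| ≤ P.B := P.abs_g'_leD (hz'.1 l).le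
    have e1 : (P.g' (f z))⁻¹ * P.g' (z l) - (P.g' (f z'))⁻¹ * P.g' (z' l) =
        (P.g' (z l) - P.g' (z' l)) / P.g' (f z) -
        P.g' (z' l) * (P.g' (f z) - P.g' (f z')) / (P.g' (f z) * P.g' (f z')) := by
      field_simp
      ring
    rw [e1]
    calc |(P.g' (z l) - P.g' (z' l)) / P.g' (f z) -
          P.g' (z' l) * (P.g' (f z) - P.g' (f z')) / (P.g' (f z) * P.g' (f z'))|
        ≤ |(P.g' (z l) - P.g' (z' l)) / P.g' (f z)| +
          |P.g' (z' l) * (P.g' (f z) - P.g' (f z')) / (P.g' (f z) * P.g' (f z'))| := abs_sub _ _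
      _ = |P.g' (z l) - P.g' (z' l)| / P.g' (f z) +
          |P.g' (z' l)| * |P.g' (f z) - P.g' (f z')| / (P.g' (f z) * P.g' (f z')) := by
          rw [abs_div, abs_of_pos b0, abs_div, abs_mul, abs_of_pos (mul_pos b0 b0')]
      _ ≤ (P.Hc * ‖z - z'‖ ^ α) / (2 * m) +
          P.B * (P.Hc * Lf ^ α * ‖z - z'‖ ^ α) / ((2 * m) * (2 * m)) := by
          gcongr
      _ = _ := by ring
  set C : ℝ := d * (P.Hc / (2 * m) + P.B * (P.Hc * Lf ^ α) / (2 * m) ^ 2) with hC
  have hC0 : 0 ≤ C := by positivity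
  have hDhol : ∀ z ∈ V, ∀ z' ∈ V, ‖D z - D z'‖ ≤ C * ‖z - z'‖ ^ α := by
    intro z hz z' hz'
    have e1 : D z - D z' = - ∑ l ∈ Finset.univ.erase j,
        ((P.g' (f z))⁻¹ * P.g' (z l) - (P.g' (f z'))⁻¹ * P.g' (z' l)) •
          (EuclideanSpace.proj (𝕜 := ℝ) l : Sp d →L[ℝ] ℝ) := by
      simp only [hD, dw, sub_smul, mul_smul, Finset.sum_sub_distrib, smul_neg, ← Finset.smul_sum]
      abel
    rw [e1, norm_neg]
    calc ‖∑ l ∈ Finset.univ.erase j,
        ((P.g' (f z))⁻¹ * P.g' (z l) - (P.g' (f z'))⁻¹ * P.g' (z' l)) •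
          (EuclideanSpace.proj (𝕜 := ℝ) l : Sp d →L[ℝ] ℝ)‖
        ≤ ∑ l ∈ Finset.univ.erase j, ‖((P.g' (f z))⁻¹ * P.g' (z l) -
          (P.g' (f z'))⁻¹ * P.g' (z' l)) • (EuclideanSpace.proj (𝕜 := ℝ) l : Sp d →L[ℝ] ℝ)‖ :=
          norm_sum_le _ _
      _ ≤ ∑ _l ∈ Finset.univ.erase j,
          (P.Hc / (2 * m) + P.B * (P.Hc * Lf ^ α) / (2 * m) ^ 2) * ‖z - z'‖ ^ α := by
          refine Finset.sum_le_sum fun l _ => ?_
          rw [norm_smul]
          calc _ ≤ ‖(P.g' (f z))⁻¹ * P.g' (z l) - (P.g' (f z'))⁻¹ * P.g' (z' l)‖ * 1 := by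
                gcongr
                exact norm_proj_le l
            _ ≤ _ := by
                rw [mul_one]
                exact hcoef z hz z' hz' l
      _ = ((Finset.univ.erase j).card : ℝ) *
          ((P.Hc / (2 * m) + P.B * (P.Hc * Lf ^ α) / (2 * m) ^ 2) * ‖z - z'‖ ^ α) := by
          rw [Finset.sum_const, nsmul_eq_mul]
      _ ≤ d * ((P.Hc / (2 * m) + P.B * (P.Hc * Lf ^ α) / (2 * m) ^ 2) * ‖z - z'‖ ^ α) := by
          gcongr
          calc (Finset.univ.erase j).card ≤ (Finset.univ : Finset (Fin d)).card :=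
                Finset.card_le_card (Finset.erase_subset _ _)
            _ = d := by simp
      _ = C * ‖z - z'‖ ^ α := by
          rw [hC]
          ring
  -- the radius
  have hopen : IsOpen {y : Sp d | 0 < σ * y j ∧ 0 < P.w j y} := by
    have e1 : {y : Sp d | 0 < σ * y j ∧ 0 < P.w j y} =
        {y : Sp d | 0 < σ * y j} ∩ {y : Sp d | 0 < P.w j y} := rfl
    rw [e1]
    refine IsOpen.inter (isOpen_lt continuous_const ?_) (isOpen_lt continuous_const hwcont)
    fun_prop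
  have hxmem : x ∈ {y : Sp d | 0 < σ * y j ∧ 0 < P.w j y} := by
    refine ⟨?_, ?_⟩
    · rw [hσ2]
      exact ht0pos
    · rw [hwx]
      exact hgm.trans hgmt
  obtain ⟨r, hr, hball⟩ := Metric.isOpen_iff.1 hopen x hxmem
  refine ⟨r, e, f, V, C.toNNReal, hr, ?_, hVo, ?_, ?_, ?_, ?_⟩
  · rw [he, PiLp.norm_single, Real.norm_eq_abs, hσ1]
  · refine ⟨fun l => ?_, ?_⟩
    · by_cases hl : l = j
      · subst hl
        have : (x - inner ℝ x e • e) l = 0 := by
          rw [hinner]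
          simp only [he, PiLp.sub_apply, PiLp.smul_apply, smul_eq_mul, PiLp.single_apply,
            if_true]
          linear_combination (-x l) * hσσ
        rw [this, abs_zero]
        norm_num
      · rw [hcoord x l hl]
        have h2 : |x l| ≤ ‖x‖ := PiLp.norm_apply_le x l
        have h3 := P.norm_le_one_of_G_le hG.le
        linarith
    · rw [hwproj, hwx]
      exact hgmt
  · intro z hz
    exact (hfder z hz).differentiableAt
  · refine holderOnWith_of_real hC0 h0.le fun z hz z' hz' => ?_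
    rw [(hfder z hz).fderiv, (hfder z' hz').fderiv]
    exact hDhol z hz z' hz'
  · intro y hy
    obtain ⟨hy1, hy2⟩ := hball hy
    rw [hinner]
    have h2 : f (y - (σ * y j) • e) = γ (P.w j y) := by
      rw [← hinner, hf]
      simp only
      rw [hwproj]
    rw [h2]
    have h3 : P.g (σ * y j) = P.g (y j) := by
      rw [← P.g_absD (σ * y j), abs_mul, hσ1, one_mul, P.g_absD]
    have h4 : y ∈ P.Omega d ↔ P.g (y j) < P.w j y := by
      rw [P.w_eq]
      change P.G y < 1 ↔ _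
      constructor <;> intro h <;> linarith
    rw [h4, ← h3]
    nth_rewrite 1 [← hγ (P.w j y) hy2.le]
    exact P.g_lt_iff hy1.le (hγ0 _)

end Profile

end MP_fd31a8_an
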