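import Pool.Agent.Lib.MP_fd31a8_an.Fub

/-! # Completeness and total boundedness in the space of measurable sets -/

open MeasureTheory Set Filter
open scoped ENNReal NNReal Topology symmDiff

namespace MP_fd31a8_an

variable {d : ℕ}

/-- a measurable set as an element of the space of measurable sets -/
def toMS {X : Type*} [MeasurableSpace X] (μ : Measure X) (E : Set X) (hE : MeasurableSet E) :
    MeasuredSets μ := (⟨E, hE⟩ : {s : Set X // MeasurableSet s})

lemma coe_toMS {X : Type*} [MeasurableSpace X] (μ : Measure X) (E : Set X)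
    (hE : MeasurableSet E) : ((toMS μ E hE : MeasuredSets μ) : Set X) = E := rfl

lemma measurableSet_coe_MS {X : Type*} [MeasurableSpace X] {μ : Measure X} (A : MeasuredSets μ) :
    MeasurableSet (A : Set X) := A.2

theorem completeSpace_measuredSets {X : Type*} [MeasurableSpace X] (μ : Measure X) :
    CompleteSpace (MeasuredSets μ) := by
  refine EMetric.complete_of_convergent_controlled_sequences (fun n => (2⁻¹ : ℝ≥0∞) ^ n)
    (fun n => ENNReal.pow_pos (by norm_num) n) fun u hu => ?_
  set E : Set X := ⋂ N : ℕ, ⋃ n : {n : ℕ // N ≤ n}, (u n : Set X) with hE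
  have hEm : MeasurableSet E :=
    MeasurableSet.iInter fun N => MeasurableSet.iUnion fun n => (u n).2
  refine ⟨toMS μ E hEm, ?_⟩
  have hsub : ∀ N : ℕ, (u N : Set X) ∆ E ⊆ ⋃ j : ℕ, ((u (N + j) : Set X) ∆ (u (N + j + 1))) := by
    intro N x hx
    by_contra hcon
    simp only [mem_iUnion, not_exists] at hcon
    have h1 : ∀ j : ℕ, (x ∈ (u (N + j) : Set X) ↔ x ∈ (u N : Set X)) := by
      intro j
      induction j with
      | zero => simp
      | succ j ih =>
        have := hcon j
        rw [mem_symmDiff] at this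
        rw [← ih]
        constructor
        · intro h
          by_contra h'
          exact this (Or.inr ⟨h, h'⟩)
        · intro h
          by_contra h'
          exact this (Or.inl ⟨h, h'⟩)
    have h2 : x ∈ E ↔ x ∈ (u N : Set X) := by
      rw [hE]
      simp only [mem_iInter, mem_iUnion]
      constructor
      · intro h
        obtain ⟨⟨n, hn⟩, hx⟩ := h N
        obtain ⟨j, rfl⟩ := Nat.exists_eq_add_of_le hn
        exact (h1 j).1 hx
      · intro h M
        refine ⟨⟨N + M, by omega⟩, (h1 M).2 h⟩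
    rw [mem_symmDiff] at hx
    rcases hx with ⟨ha, hb⟩ | ⟨ha, hb⟩
    · exact hb (h2.2 ha)
    · exact hb (h2.1 ha)
  have hbd : ∀ N : ℕ, edist (u N) (toMS μ E hEm) ≤ 2 * (2⁻¹ : ℝ≥0∞) ^ N := by
    intro N
    rw [MeasuredSets.edist_def, coe_toMS]
    calc μ ((u N : Set X) ∆ E) ≤ μ (⋃ j : ℕ, ((u (N + j) : Set X) ∆ (u (N + j + 1)))) :=
          measure_mono (hsub N)
      _ ≤ ∑' j : ℕ, μ ((u (N + j) : Set X) ∆ (u (N + j + 1))) := measure_iUnion_le _
      _ ≤ ∑' j : ℕ, (2⁻¹ : ℝ≥0∞) ^ (N + j) := by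
          refine ENNReal.tsum_le_tsum fun j => ?_
          exact (hu (N + j) (N + j) (N + j + 1) le_rfl (by omega)).le
      _ = 2 * (2⁻¹ : ℝ≥0∞) ^ N := by
          simp_rw [pow_add]
          rw [ENNReal.tsum_mul_left, ENNReal.tsum_geometric]
          simp [mul_comm]
  rw [tendsto_iff_edist_tendsto_0]
  have h0 : Tendsto (fun N : ℕ => 2 * (2⁻¹ : ℝ≥0∞) ^ N) atTop (𝓝 0) := by
    have := ENNReal.Tendsto.const_mul (a := 2)
      (ENNReal.tendsto_pow_atTop_nhds_zero_of_lt_one (r := (2⁻¹ : ℝ≥0∞)) (by norm_num))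
      (Or.inr (by norm_num))
    simpa using this
  exact tendsto_of_tendsto_of_tendsto_of_le_of_le tendsto_const_nhds h0 (fun _ => zero_le) hbd

/-- the half-open cube of side `s` with index `k`. -/
def cube (s : ℝ) (k : Fin d → ℤ) : Set (Sp d) :=
  {x | ∀ i, x i ∈ Ico (s * k i) (s * (k i + 1))}

lemma measurableSet_cube (s : ℝ) (k : Fin d → ℤ) : MeasurableSet (cube s k) := by
  have : cube s k = ⋂ i, (fun x : Sp d => x i) ⁻¹' Ico (s * k i) (s * (k i + 1)) := by
    ext x
    simp [cube]
  rw [this]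
  refine MeasurableSet.iInter fun i => measurableSet_Ico.preimage ?_
  exact (EuclideanSpace.proj (𝕜 := ℝ) i).continuous.measurable

lemma volume_cube {s : ℝ} (hs : 0 < s) (k : Fin d → ℤ) :
    volume (cube s k) = ENNReal.ofReal (s ^ d) := by
  have h1 : cube s k = (@WithLp.ofLp 2 (Fin d → ℝ)) ⁻¹'
      (Set.pi univ fun i => Ico (s * k i) (s * (k i + 1))) := by
    ext x
    simp [cube]
  rw [h1, (PiLp.volume_preserving_ofLp (Fin d)).measure_preimage
    (MeasurableSet.univ_pi fun i => measurableSet_Ico).nullMeasurableSet, Real.volume_pi_Ico]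
  have : ∀ i : Fin d, ENNReal.ofReal (s * (k i + 1) - s * k i) = ENNReal.ofReal s := by
    intro i
    congr 1
    ring
  simp only [this, Finset.prod_const, Finset.card_univ, Fintype.card_fin]
  rw [ENNReal.ofReal_pow hs.le]

lemma cube_subset_closedBall {s : ℝ} (hs : 0 < s) (k : Fin d → ℤ) {x : Sp d} (hx : x ∈ cube s k) :
    cube s k ⊆ Metric.closedBall x (s * Real.sqrt d) := by
  intro y hy
  rw [mem_closedBall_iff_norm, EuclideanSpace.norm_eq]
  have : s * Real.sqrt d = Real.sqrt (d * s ^ 2) := by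
    rw [Real.sqrt_mul (by positivity), Real.sqrt_sq hs.le, mul_comm]
  rw [this]
  refine Real.sqrt_le_sqrt ?_
  calc ∑ i, ‖(y - x) i‖ ^ 2 ≤ ∑ _i : Fin d, s ^ 2 := by
        refine Finset.sum_le_sum fun i _ => ?_
        have h1 := hx i
        have h2 := hy i
        simp only [mem_Ico] at h1 h2
        have h3 : |y i - x i| ≤ s := by
          rw [abs_le]
          constructor <;> nlinarith
        simp only [PiLp.sub_apply, Real.norm_eq_abs, sq_abs]
        exact sq_le_sq' (by linarith [(abs_le.1 h3).1]) (abs_le.1 h3).2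
    _ = d * s ^ 2 := by simp

lemma mem_cube_floor {s : ℝ} (hs : 0 < s) (x : Sp d) : x ∈ cube s (fun i => ⌊x i / s⌋) := by
  intro i
  constructor
  · have := Int.floor_le (x i / s)
    rw [le_div_iff₀ hs] at this
    linarith
  · have := Int.lt_floor_add_one (x i / s)
    rw [div_lt_iff₀ hs] at this
    linarith

lemma cube_disjoint {s : ℝ} (hs : 0 < s) : Pairwise fun k l : Fin d → ℤ =>
    Disjoint (cube s k) (cube s l) := by
  intro k l hkl
  rw [Set.disjoint_left]
  intro x hx hy
  apply hkl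
  ext i
  have h1 := hx i
  have h2 := hy i
  simp only [mem_Ico] at h1 h2
  have e1 : (k i : ℝ) < l i + 1 := by
    by_contra h
    push Not at h
    nlinarith
  have e2 : (l i : ℝ) < k i + 1 := by
    by_contra h
    push Not at h
    nlinarith
  have e1' : k i < l i + 1 := by exact_mod_cast e1
  have e2' : l i < k i + 1 := by exact_mod_cast e2
  omega

/-- the constant in the cube approximation -/
noncomputable def Cd (d : ℕ) : ℝ≥0∞ :=
  2 * (ENNReal.ofReal (Real.sqrt d ^ (d + 1)) * volume (Metric.ball (0 : Sp d) 1))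

lemma Cd_ne_top (d : ℕ) : Cd d ≠ ∞ := by
  unfold Cd
  exact ENNReal.mul_ne_top (by norm_num) (ENNReal.mul_ne_top ENNReal.ofReal_ne_top
    measure_ball_lt_top.ne)

theorem exists_cube_approx {A : Set (Sp d)} (hA : MeasurableSet A) (hAv : volume A ≠ ∞)
    {s : ℝ} (hs : 0 < s) (J : Finset (Fin d → ℤ)) (hJ : A ⊆ ⋃ k ∈ J, cube s k) :
    ∃ J' : Finset (Fin d → ℤ), J' ⊆ J ∧
      volume (A ∆ (⋃ k ∈ J', cube s k)) ≤ Cd d * ENNReal.ofReal s * perimeter A := by
  classical
  set q : ℝ≥0∞ := ENNReal.ofReal (s ^ d) with hq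
  have hq0 : q ≠ 0 := by
    rw [hq]
    simp only [ne_eq, ENNReal.ofReal_eq_zero, not_le]
    positivity
  have hqt : q ≠ ∞ := ENNReal.ofReal_ne_top
  have hQ : ∀ k : Fin d → ℤ, volume (cube s k) = q := volume_cube hs
  set J' : Finset (Fin d → ℤ) := J.filter fun k => q ≤ 2 * volume (A ∩ cube s k) with hJ'
  refine ⟨J', Finset.filter_subset _ _, ?_⟩
  have hsum : ∀ k, volume (A ∩ cube s k) + volume (cube s k \ A) = q := by
    intro k
    rw [← hQ k, inter_comm]
    exact measure_inter_add_sdiff _ hA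
  -- each cube contributes at most `(2/q) |A ∩ Q| |Q \ A|`
  set T : (Fin d → ℤ) → Set (Sp d) := fun k => if k ∈ J' then cube s k \ A else A ∩ cube s k with hT
  have hTle : ∀ k ∈ J, q * volume (T k) ≤ 2 * (volume (A ∩ cube s k) * volume (cube s k \ A)) := by
    intro k hk
    by_cases hk' : k ∈ J'
    · have h1 : q ≤ 2 * volume (A ∩ cube s k) := (Finset.mem_filter.1 hk').2
      simp only [hT, hk', if_true]
      calc q * volume (cube s k \ A) ≤ (2 * volume (A ∩ cube s k)) * volume (cube s k \ A) := by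
            gcongr
        _ = _ := by ring
    · have h1 : 2 * volume (A ∩ cube s k) < q := by
        by_contra h
        exact hk' (Finset.mem_filter.2 ⟨hk, not_lt.1 h⟩)
      simp only [hT, hk', if_false]
      have h2 : q ≤ 2 * volume (cube s k \ A) := by
        have h3 := hsum k
        by_contra h
        push Not at h
        have h4 : 2 * volume (A ∩ cube s k) + 2 * volume (cube s k \ A) < q + q :=
          ENNReal.add_lt_add h1 h
        rw [← mul_add, h3, two_mul] at h4
        exact lt_irrefl _ h4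
      calc q * volume (A ∩ cube s k) ≤ (2 * volume (cube s k \ A)) * volume (A ∩ cube s k) := by
            gcongr
        _ = _ := by ring
  have hcov : A ∆ (⋃ k ∈ J', cube s k) ⊆ ⋃ k ∈ J, T k := by
    intro x hx
    rw [mem_symmDiff] at hx
    rcases hx with ⟨hxA, hx2⟩ | ⟨hx1, hxA⟩
    · obtain ⟨k, hk, hxk⟩ := mem_iUnion₂.1 (hJ hxA)
      have hk' : k ∉ J' := fun h => hx2 (mem_iUnion₂.2 ⟨k, h, hxk⟩)
      refine mem_iUnion₂.2 ⟨k, hk, ?_⟩
      simp only [hT, hk', if_false]
      exact ⟨hxA, hxk⟩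
    · obtain ⟨k, hk, hxk⟩ := mem_iUnion₂.1 hx1
      refine mem_iUnion₂.2 ⟨k, Finset.filter_subset _ _ hk, ?_⟩
      simp only [hT, hk, if_true]
      exact ⟨hxk, hxA⟩
  -- Fubini part
  have hF : ∑ k ∈ J, volume (A ∩ cube s k) * volume (cube s k \ A) ≤
      volume (Metric.closedBall (0 : Sp d) (s * Real.sqrt d)) *
        (ENNReal.ofReal (s * Real.sqrt d) * perimeter A) := by
    calc ∑ k ∈ J, volume (A ∩ cube s k) * volume (cube s k \ A)
        ≤ ∑ k ∈ J, ∫⁻ x in A ∩ cube s k,
            volume (Metric.closedBall x (s * Real.sqrt d) \ A) := by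
          refine Finset.sum_le_sum fun k _ => ?_
          rw [mul_comm, ← setLIntegral_const]
          refine setLIntegral_mono' (hA.inter (measurableSet_cube s k)) fun x hx => ?_
          exact measure_mono (sdiff_subset_sdiff_left (cube_subset_closedBall hs k hx.2))
      _ = ∫⁻ x in ⋃ k ∈ J, A ∩ cube s k,
            volume (Metric.closedBall x (s * Real.sqrt d) \ A) := by
          rw [lintegral_biUnion_finset]
          · intro k _ l _ hkl
            exact (cube_disjoint hs hkl).mono inter_subset_right inter_subset_right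
          · intro k _
            exact hA.inter (measurableSet_cube s k)
      _ ≤ ∫⁻ x in A, volume (Metric.closedBall x (s * Real.sqrt d) \ A) :=
          lintegral_mono_set (iUnion₂_subset fun k _ => inter_subset_left)
      _ ≤ _ := lintegral_closedBall_diff_le hA hAv _
  have hmain : q * volume (A ∆ (⋃ k ∈ J', cube s k)) ≤
      q * (Cd d * ENNReal.ofReal s * perimeter A) := by
    calc q * volume (A ∆ (⋃ k ∈ J', cube s k)) ≤ q * ∑ k ∈ J, volume (T k) := by
          gcongr
          exact (measure_mono hcov).trans (measure_biUnion_finset_le J T)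
      _ = ∑ k ∈ J, q * volume (T k) := Finset.mul_sum _ _ _
      _ ≤ ∑ k ∈ J, 2 * (volume (A ∩ cube s k) * volume (cube s k \ A)) :=
          Finset.sum_le_sum hTle
      _ = 2 * ∑ k ∈ J, (volume (A ∩ cube s k) * volume (cube s k \ A)) :=
          (Finset.mul_sum _ _ _).symm
      _ ≤ 2 * (volume (Metric.closedBall (0 : Sp d) (s * Real.sqrt d)) *
            (ENNReal.ofReal (s * Real.sqrt d) * perimeter A)) := by gcongr
      _ = q * (Cd d * ENNReal.ofReal s * perimeter A) := by
          rw [Measure.addHaar_closedBall _ _ (by positivity)]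
          have hfr : Module.finrank ℝ (Sp d) = d := by simp
          rw [hfr, mul_pow, ENNReal.ofReal_mul (by positivity), ENNReal.ofReal_mul hs.le, Cd, hq,
            pow_succ, ENNReal.ofReal_mul (by positivity)]
          ring
  exact (ENNReal.mul_le_mul_iff_right hq0 hqt).1 hmain

/-- Sets contained in a fixed bounded set with bounded perimeter form a totally bounded family. -/
theorem totallyBounded_sets {Ω : Set (Sp d)} (hΩ : Bornology.IsBounded Ω) {c : ℝ≥0∞}
    (hc : c ≠ ∞) :
    TotallyBounded {A : MeasuredSets (volume : Measure (Sp d)) |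
      (A : Set (Sp d)) ⊆ Ω ∧ perimeter (A : Set (Sp d)) ≤ c} := by
  classical
  rw [EMetric.totallyBounded_iff]
  intro ε hε
  obtain ⟨s, hs, hsε⟩ : ∃ s : ℝ, 0 < s ∧ Cd d * ENNReal.ofReal s * c < ε := by
    have h0 : Tendsto (fun s : ℝ => Cd d * ENNReal.ofReal s * c) (𝓝[>] 0) (𝓝 0) := by
      have h1 : Tendsto (fun s : ℝ => ENNReal.ofReal s) (𝓝[>] 0) (𝓝 0) := by
        have := (ENNReal.continuous_ofReal.tendsto 0).mono_left
          (nhdsWithin_le_nhds (s := Ioi (0:ℝ)))
        simpa using this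
      have h2 := ENNReal.Tendsto.mul_const (b := c)
        (ENNReal.Tendsto.const_mul (a := Cd d) h1 (Or.inr (Cd_ne_top d))) (Or.inr hc)
      simpa using h2
    have h3 := (tendsto_order.1 h0).2 ε hε
    obtain ⟨s, hs1, hs2⟩ := (h3.and self_mem_nhdsWithin).exists
    exact ⟨s, hs2, hs1⟩
  obtain ⟨R, hR⟩ := hΩ.subset_closedBall (0 : Sp d)
  -- finitely many cubes
  obtain ⟨N, hN⟩ := exists_nat_gt (R / s + 1)
  set J : Finset (Fin d → ℤ) := Fintype.piFinset fun _ => Finset.Icc (-(N:ℤ)) N with hJ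
  have hcover : Ω ⊆ ⋃ k ∈ J, cube s k := by
    intro x hx
    refine mem_iUnion₂.2 ⟨fun i => ⌊x i / s⌋, ?_, mem_cube_floor hs x⟩
    rw [hJ, Fintype.mem_piFinset]
    intro i
    have hx1 : |x i| ≤ R := by
      have h1 : ‖x i‖ ≤ ‖x‖ := PiLp.norm_apply_le x i
      have h2 : ‖x‖ ≤ R := by simpa using hR hx
      exact h1.trans h2
    have hx2 : |x i / s| ≤ R / s := by
      rw [abs_div, abs_of_pos hs]
      gcongr
    rw [abs_le] at hx2
    rw [Finset.mem_Icc]
    constructor
    · rw [Int.le_floor]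
      push_cast
      linarith
    · have h3 : (⌊x i / s⌋ : ℝ) ≤ x i / s := Int.floor_le _
      have h4 : (⌊x i / s⌋ : ℝ) ≤ N := by linarith
      exact_mod_cast h4
  have hmU : ∀ J' : Finset (Fin d → ℤ), MeasurableSet (⋃ k ∈ J', cube s k) := fun J' =>
    Finset.measurableSet_biUnion _ fun k _ => measurableSet_cube s k
  refine ⟨(fun J' : Finset (Fin d → ℤ) => toMS volume (⋃ k ∈ J', cube s k) (hmU J')) ''
    (J.powerset : Set (Finset (Fin d → ℤ))), (J.powerset.finite_toSet).image _, ?_⟩
  rintro A ⟨hA1, hA2⟩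
  have hAv : volume (A : Set (Sp d)) ≠ ∞ :=
    (((Metric.isBounded_closedBall).subset hR).measure_lt_top.trans_le'
      (measure_mono hA1)).ne
  obtain ⟨J', hJ'1, hJ'2⟩ := exists_cube_approx (measurableSet_coe_MS A) hAv hs J (hA1.trans hcover)
  refine mem_iUnion₂.2 ⟨toMS volume (⋃ k ∈ J', cube s k) (hmU J'),
    ⟨J', Finset.mem_coe.2 (Finset.mem_powerset.2 hJ'1), rfl⟩, ?_⟩
  have h5 : edist A (toMS volume (⋃ k ∈ J', cube s k) (hmU J')) < ε := by
    rw [MeasuredSets.edist_def, coe_toMS]
    refine lt_of_le_of_lt (hJ'2.trans ?_) hsε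
    gcongr
  exact h5

end MP_fd31a8_an
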