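import Pool.Agent.Lib.MP_fd31a8_an.Profile

/-! # Elementary facts on the profile `g` and the domain `Ω = {G < 1}` -/

open MeasureTheory Set Filter
open scoped ENNReal NNReal Topology

namespace MP_fd31a8_an

variable {d : ℕ}

namespace Profile

variable {α : ℝ} (P : Profile α)

lemma continuous_c (h0 : 0 < α) : Continuous P.c := by
  rw [continuous_iff_continuousAt]
  intro t
  rw [ContinuousAt, tendsto_iff_norm_sub_tendsto_zero]
  have h1 : Tendsto (fun s => P.L * |s - t| ^ α) (𝓝 t) (𝓝 (P.L * |t - t| ^ α)) := by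
    have : Continuous fun s : ℝ => P.L * |s - t| ^ α := by
      refine continuous_const.mul ?_
      exact (continuous_abs.comp (continuous_id.sub continuous_const)).rpow_const
        fun _ => Or.inr h0.le
    exact this.tendsto t
  rw [sub_self, abs_zero, Real.zero_rpow h0.ne', mul_zero] at h1
  exact squeeze_zero (fun _ => norm_nonneg _) (fun s => P.holder s t) h1

lemma c_zeroD : P.c 0 = 0 := by
  have := P.odd 0
  rw [neg_zero] at this
  linarith

lemma c_nonnegD {t : ℝ} (ht : 0 ≤ t) : 0 ≤ P.c t := by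
  rw [← P.c_zeroD]
  exact P.mono ht

lemma intervalIntegrable_c (a b : ℝ) : IntervalIntegrable P.c volume a b :=
  P.mono.intervalIntegrable

lemma hasDerivAt_g (h0 : 0 < α) (t : ℝ) : HasDerivAt P.g (P.g' t) t := by
  have hc := P.continuous_c h0
  have h1 : HasDerivAt (fun t => ∫ s in (0:ℝ)..t, P.c s) (P.c t) t :=
    intervalIntegral.integral_hasDerivAt_right (P.intervalIntegrable_c 0 t)
      (hc.stronglyMeasurableAtFilter _ _) hc.continuousAt
  have h2 : HasDerivAt (fun t : ℝ => (1 + P.A) * t ^ 2) ((1 + P.A) * (2 * t)) t := by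
    have := (hasDerivAt_pow 2 t).const_mul (1 + P.A)
    simpa using this
  have h3 := h2.sub (h1.const_mul (2 * P.A))
  have h4 : (1 + P.A) * (2 * t) - 2 * P.A * P.c t = P.g' t := by
    unfold g'
    ring
  rw [h4] at h3
  exact h3

lemma continuous_g (h0 : 0 < α) : Continuous P.g :=
  continuous_iff_continuousAt.2 fun t => (P.hasDerivAt_g h0 t).continuousAt

lemma continuous_g' (h0 : 0 < α) : Continuous P.g' := by
  have := P.continuous_c h0
  unfold g'
  fun_prop

lemma g_zeroD : P.g 0 = 0 := by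
  simp [g]

lemma g_neg (t : ℝ) : P.g (-t) = P.g t := by
  unfold g
  have h1 : ∫ s in (0:ℝ)..(-t), P.c s = ∫ s in (0:ℝ)..t, P.c s := by
    have h2 : ∫ s in (0:ℝ)..t, P.c (-s) = ∫ s in (-t)..(-0), P.c s :=
      intervalIntegral.integral_comp_neg _
    rw [neg_zero, intervalIntegral.integral_symm 0 (-t)] at h2
    have h3 : ∫ s in (0:ℝ)..t, P.c (-s) = - ∫ s in (0:ℝ)..t, P.c s := by
      rw [← intervalIntegral.integral_neg]
      refine intervalIntegral.integral_congr fun s _ => ?_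
      exact P.odd s
    linarith
  rw [h1]
  ring

lemma g_absD (t : ℝ) : P.g |t| = P.g t := by
  rcases abs_choice t with h | h
  · rw [h]
  · rw [h, P.g_neg]

lemma g'_neg (t : ℝ) : P.g' (-t) = - P.g' t := by
  unfold g'
  rw [P.odd]
  ring

lemma two_mul_le_gD' {t : ℝ} (ht : 0 ≤ t) : 2 * t ≤ P.g' t := by
  unfold g'
  have := P.le_self t ht
  have := P.A_pos
  nlinarith

/-- the basic growth estimate -/
lemma sq_sub_sq_le {a b : ℝ} (ha : 0 ≤ a) (hab : a ≤ b) : b ^ 2 - a ^ 2 ≤ P.g b - P.g a := by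
  unfold g
  have h1 : (∫ s in (0:ℝ)..b, P.c s) = (∫ s in (0:ℝ)..a, P.c s) + ∫ s in a..b, P.c s :=
    (intervalIntegral.integral_add_adjacent_intervals (P.intervalIntegrable_c _ _)
      (P.intervalIntegrable_c _ _)).symm
  have h2 : ∫ s in a..b, P.c s ≤ ∫ s in a..b, s :=
    intervalIntegral.integral_mono_on hab (P.intervalIntegrable_c _ _)
      (continuous_id.intervalIntegrable _ _) fun x hx => P.le_self x (ha.trans hx.1)
  rw [integral_id] at h2
  rw [h1]
  have := P.A_pos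
  nlinarith

lemma sq_le_gD (t : ℝ) : t ^ 2 ≤ P.g t := by
  have := P.sq_sub_sq_le le_rfl (abs_nonneg t)
  rw [P.g_zeroD, P.g_absD, sq_abs] at this
  linarith

lemma g_nonneg (t : ℝ) : 0 ≤ P.g t := (sq_nonneg t).trans (P.sq_le_gD t)

lemma g_lt_of_lt {a b : ℝ} (ha : 0 ≤ a) (hab : a < b) : P.g a < P.g b := by
  have := P.sq_sub_sq_le ha hab.le
  nlinarith

lemma g_lt_iff {a b : ℝ} (ha : 0 ≤ a) (hb : 0 ≤ b) : P.g a < P.g b ↔ a < b := by
  constructor
  · intro h
    by_contra hcon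
    rcases (not_lt.1 hcon).eq_or_lt with h1 | h1
    · rw [h1] at h
      exact lt_irrefl _ h
    · exact absurd h (not_lt.2 (P.g_lt_of_lt hb h1).le)
  · exact P.g_lt_of_lt ha

lemma g_inj {a b : ℝ} (ha : 0 ≤ a) (hb : 0 ≤ b) (h : P.g a = P.g b) : a = b := by
  rcases lt_trichotomy a b with h1 | h1 | h1
  · exact absurd h (P.g_lt_of_lt ha h1).ne
  · exact h1
  · exact absurd h.symm (P.g_lt_of_lt hb h1).ne

/-! ### the function `G` and the domain -/

lemma continuous_G (h0 : 0 < α) : Continuous (P.G : Sp d → ℝ) := by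
  unfold G
  refine continuous_finsetSum _ fun i _ => (P.continuous_g h0).comp ?_
  fun_prop

lemma isOpen_Omega (h0 : 0 < α) : IsOpen (P.Omega d) :=
  isOpen_lt (P.continuous_G h0) continuous_const

lemma norm_sq_le_G (x : Sp d) : ‖x‖ ^ 2 ≤ P.G x := by
  rw [EuclideanSpace.norm_sq_eq]
  unfold G
  refine Finset.sum_le_sum fun i _ => ?_
  rw [Real.norm_eq_abs, sq_abs]
  exact P.sq_le_gD _

lemma G_zero : P.G (0 : Sp d) = 0 := by
  simp [G, P.g_zeroD]

lemma G_nonneg (x : Sp d) : 0 ≤ P.G x := (sq_nonneg _).trans (P.norm_sq_le_G x)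

lemma Omega_subset_ball : P.Omega d ⊆ Metric.ball (0 : Sp d) 1 := by
  intro x hx
  have h1 : P.G x < 1 := hx
  have h2 := P.norm_sq_le_G x
  rw [mem_ball_zero_iff]
  nlinarith [norm_nonneg x]

lemma isBounded_Omega : Bornology.IsBounded (P.Omega d) :=
  Metric.isBounded_ball.subset P.Omega_subset_ball

lemma frontier_Omega_subset (h0 : 0 < α) : frontier (P.Omega d) ⊆ {x | P.G x = 1} :=
  frontier_lt_subset_eq (P.continuous_G h0) continuous_const

lemma norm_le_one_of_G_le {x : Sp d} (h : P.G x ≤ 1) : ‖x‖ ≤ 1 := by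
  have := P.norm_sq_le_G x
  nlinarith [norm_nonneg x]

/-- `G` grows along rays. -/
lemma G_smul_ge {x : Sp d} {s : ℝ} (hs : 1 ≤ s) : P.G x + (s ^ 2 - 1) * ‖x‖ ^ 2 ≤ P.G (s • x) := by
  rw [EuclideanSpace.norm_sq_eq, Finset.mul_sum]
  unfold G
  rw [← Finset.sum_add_distrib]
  refine Finset.sum_le_sum fun i _ => ?_
  have h1 := P.sq_sub_sq_le (abs_nonneg (x i)) (b := s * |x i|) (by nlinarith [abs_nonneg (x i)])
  have h2 : P.g ((s • x) i) = P.g (s * |x i|) := by
    rw [← P.g_absD ((s • x) i)]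
    congr 1
    simp [abs_mul, abs_of_nonneg (zero_le_one.trans hs)]
  rw [h2, Real.norm_eq_abs, ← P.g_absD (x i)]
  nlinarith

lemma ne_zero_of_one_le_G {x : Sp d} (h : 1 ≤ P.G x) : x ≠ 0 := by
  rintro rfl
  rw [P.G_zero] at h
  linarith

/-- outside of `Ω`, the complement of `Ω` has positive measure near every point. -/
lemma volume_ball_diff_pos (h0 : 0 < α) {x : Sp d} (hx : x ∉ P.Omega d) {r : ℝ} (hr : 0 < r) :
    0 < volume (Metric.ball x r \ P.Omega d) := by
  have hG : 1 ≤ P.G x := not_lt.1 hx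
  have hx0 : 0 < ‖x‖ := norm_pos_iff.2 (P.ne_zero_of_one_le_G hG)
  set s : ℝ := 1 + r / (2 * ‖x‖) with hs
  have hs1 : 1 < s := by
    have : 0 < r / (2 * ‖x‖) := by positivity
    linarith
  have h1 := P.G_smul_ge (x := x) hs1.le
  have h2 : 1 < P.G (s • x) := by
    have : 0 < (s ^ 2 - 1) * ‖x‖ ^ 2 := by
      have : 0 < s ^ 2 - 1 := by nlinarith
      positivity
    linarith
  have hopen : IsOpen (Metric.ball x r ∩ {y | 1 < P.G y}) :=
    Metric.isOpen_ball.inter (isOpen_lt continuous_const (P.continuous_G h0))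
  have hne : (Metric.ball x r ∩ {y : Sp d | 1 < P.G y}).Nonempty := by
    refine ⟨s • x, ?_, h2⟩
    rw [Metric.mem_ball, dist_eq_norm]
    have : s • x - x = (r / (2 * ‖x‖)) • x := by
      rw [hs, add_smul, one_smul]
      abel
    rw [this, norm_smul, Real.norm_of_nonneg (by positivity)]
    have : r / (2 * ‖x‖) * ‖x‖ = r / 2 := by field_simp
    rw [this]
    linarith
  refine (hopen.measure_pos volume hne).trans_le (measure_mono ?_)
  rintro y ⟨hy1, hy2⟩
  refine ⟨hy1, fun h => ?_⟩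
  have h3 : P.G y < 1 := h
  have h4 : 1 < P.G y := hy2
  linarith

lemma frontier_Omega (h0 : 0 < α) : frontier (P.Omega d) = {x | P.G x = 1} := by
  refine Subset.antisymm (P.frontier_Omega_subset h0) fun x hx => ?_
  have hG : P.G x = 1 := hx
  have hx0 : 0 < ‖x‖ := norm_pos_iff.2 (P.ne_zero_of_one_le_G hG.ge)
  rw [(P.isOpen_Omega h0).frontier_eq]
  refine ⟨?_, fun h => absurd h (by rw [Omega, mem_ofPred_eq, hG]; exact lt_irrefl _)⟩
  -- points `s⁻¹ • x` with `s > 1` are in `Ω`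
  have h1 : ∀ s : ℝ, 1 < s → s⁻¹ • x ∈ P.Omega d := by
    intro s hs
    have h2 := P.G_smul_ge (x := s⁻¹ • x) hs.le
    rw [smul_smul, mul_inv_cancel₀ (by linarith), one_smul, hG] at h2
    have h3 : 0 < (s ^ 2 - 1) * ‖s⁻¹ • x‖ ^ 2 := by
      have e1 : 0 < s ^ 2 - 1 := by nlinarith
      have e2 : 0 < ‖s⁻¹ • x‖ := by
        rw [norm_smul, norm_inv, Real.norm_of_nonneg (by linarith)]
        have : 0 < s := by linarith
        positivity
      positivity
    change P.G (s⁻¹ • x) < 1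
    linarith
  have h2 : Tendsto (fun s : ℝ => s⁻¹ • x) (𝓝[>] 1) (𝓝 x) := by
    have h3 : Tendsto (fun s : ℝ => s⁻¹ • x) (𝓝 1) (𝓝 ((1:ℝ)⁻¹ • x)) :=
      (tendsto_inv₀ one_ne_zero).smul_const x
    rw [inv_one, one_smul] at h3
    exact h3.mono_left nhdsWithin_le_nhds
  exact mem_closure_of_tendsto h2 (by
    filter_upwards [self_mem_nhdsWithin] with s hs
    exact h1 s hs)

end Profile

end MP_fd31a8_an
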