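import Pool.Agent.Lib.MP_fd31a8_an.Basic
import Pool.Agent.Lib.MP_fd31a8_an.Domain

/-! # The perimeter of a cube and an upper bound for the Cheeger constant of `Ω` -/

open MeasureTheory Set Filter
open scoped ENNReal NNReal Topology

namespace MP_fd31a8_an

/-- the cube `[-ρ, ρ]^d` -/
def box (d : ℕ) (ρ : ℝ) : Set (Sp d) := {x | ∀ i, x i ∈ Icc (-ρ) ρ}

lemma box_eq_preimage (d : ℕ) (ρ : ℝ) : box d ρ =
    (@WithLp.ofLp 2 (Fin d → ℝ)) ⁻¹' (Icc (fun _ => -ρ) (fun _ => ρ)) := by
  ext x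
  simp [box, Pi.le_def, forall_and]

lemma measurableSet_box (d : ℕ) (ρ : ℝ) : MeasurableSet (box d ρ) := by
  rw [box_eq_preimage]
  exact measurableSet_Icc.preimage (PiLp.volume_preserving_ofLp (Fin d)).measurable

lemma volume_box (d : ℕ) {ρ : ℝ} (hρ : 0 < ρ) : volume (box d ρ) = ENNReal.ofReal ((2 * ρ) ^ d) := by
  rw [box_eq_preimage, (PiLp.volume_preserving_ofLp (Fin d)).measure_preimage
    measurableSet_Icc.nullMeasurableSet, Real.volume_Icc_pi]
  simp only [Finset.prod_const, Finset.card_univ, Fintype.card_fin]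
  rw [ENNReal.ofReal_pow (by positivity)]
  congr 2
  ring

theorem perimeter_box_le (n : ℕ) {ρ : ℝ} (hρ : 0 < ρ) :
    perimeter (box (n + 1) ρ) ≤ ENNReal.ofReal (2 * (n + 1) * (2 * ρ) ^ n) := by
  unfold perimeter
  refine iSup₂_le fun φ hφ => ENNReal.ofReal_le_ofReal ?_
  obtain ⟨h1, h2, h3⟩ := hφ
  have hmp := PiLp.volume_preserving_ofLp (Fin (n + 1))
  set a : Fin (n + 1) → ℝ := fun _ => -ρ with ha
  set b : Fin (n + 1) → ℝ := fun _ => ρ with hb
  have hab : a ≤ b := fun _ => by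
    simp only [ha, hb]
    linarith
  have hemb : MeasurableEmbedding (@WithLp.ofLp 2 (Fin (n + 1) → ℝ)) :=
    (MeasurableEquiv.toLp 2 (Fin (n + 1) → ℝ)).symm.measurableEmbedding
  have e1 : ∫ x in box (n + 1) ρ, divg φ x = ∫ y in Icc a b, divg φ (WithLp.toLp 2 y) := by
    rw [box_eq_preimage]
    exact hmp.setIntegral_preimage_emb hemb (fun y => divg φ (WithLp.toLp 2 y)) (Icc a b)
  rw [e1]
  let L : Sp (n + 1) ≃L[ℝ] (Fin (n + 1) → ℝ) := EuclideanSpace.equiv (Fin (n + 1)) ℝ
  set F : (Fin (n + 1) → ℝ) → (Fin (n + 1) → ℝ) := fun y => L (φ (L.symm y)) with hF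
  set F' : (Fin (n + 1) → ℝ) → ((Fin (n + 1) → ℝ) →L[ℝ] (Fin (n + 1) → ℝ)) := fun y =>
    (L : Sp (n + 1) →L[ℝ] (Fin (n + 1) → ℝ)).comp ((fderiv ℝ φ (L.symm y)).comp
      (L.symm : (Fin (n + 1) → ℝ) →L[ℝ] Sp (n + 1))) with hF'
  have hder : ∀ y, HasFDerivAt F (F' y) y := by
    intro y
    have a1 : HasFDerivAt φ (fderiv ℝ φ (L.symm y)) (L.symm y) :=
      (h1.differentiable one_ne_zero _).hasFDerivAt
    have a2 := a1.comp y L.symm.hasFDerivAt
    exact (L.hasFDerivAt (x := φ (L.symm y))).comp y a2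
  have hdiv : ∀ y, divg φ (WithLp.toLp 2 y) = ∑ i, F' y (Pi.single i 1) i := by
    intro y
    unfold divg
    refine Finset.sum_congr rfl fun i _ => ?_
    rfl
  have hcontF : Continuous F := L.continuous.comp (h1.continuous.comp L.symm.continuous)
  have hcontdiv : Continuous fun y => ∑ i, F' y (Pi.single i 1) i := by
    have : (fun y => ∑ i, F' y (Pi.single i 1) i) = fun y => divg φ (L.symm y) := by
      funext y
      rw [← hdiv]
      rfl
    rw [this]
    exact (continuous_divg h1).comp L.symm.continuous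
  simp_rw [hdiv]
  rw [integral_divergence_of_hasFDerivAt_off_countable a b hab F F' ∅ countable_empty
    hcontF.continuousOn (fun x _ => hder x)
    (hcontdiv.continuousOn.integrableOn_compact isCompact_Icc)]
  have hface : ∀ (i : Fin (n + 1)) (u : (Fin n → ℝ) → (Fin (n + 1) → ℝ)),
      |∫ x in Icc (a ∘ i.succAbove) (b ∘ i.succAbove), F (u x) i| ≤ (2 * ρ) ^ n := by
    intro i u
    have hv : volume (Icc (a ∘ i.succAbove) (b ∘ i.succAbove)) = ENNReal.ofReal ((2 * ρ) ^ n) := by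
      rw [Real.volume_Icc_pi]
      simp only [ha, hb, Function.comp_apply, Finset.prod_const, Finset.card_univ,
        Fintype.card_fin]
      rw [ENNReal.ofReal_pow (by positivity)]
      congr 2
      ring
    have := norm_setIntegral_le_of_norm_le_const (μ := volume)
      (s := Icc (a ∘ i.succAbove) (b ∘ i.succAbove)) (f := fun x => F (u x) i) (C := 1)
      (by rw [hv]; exact ENNReal.ofReal_lt_top) (fun x _ => by
        have e2 : ‖F (u x) i‖ ≤ ‖φ (L.symm (u x))‖ := PiLp.norm_apply_le (φ (L.symm (u x))) i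
        exact e2.trans (h3 _))
    rw [Real.norm_eq_abs, one_mul, Measure.real, hv, ENNReal.toReal_ofReal (by positivity)] at this
    exact this
  calc ∑ i : Fin (n + 1), ((∫ x in Icc (a ∘ i.succAbove) (b ∘ i.succAbove),
          F (Fin.insertNth i (b i) x) i) -
          ∫ x in Icc (a ∘ i.succAbove) (b ∘ i.succAbove), F (Fin.insertNth i (a i) x) i)
      ≤ ∑ _i : Fin (n + 1), (2 * (2 * ρ) ^ n) := by
        refine Finset.sum_le_sum fun i _ => ?_
        have b1 := (abs_le.1 (hface i (fun x => Fin.insertNth i (b i) x))).2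
        have b2 := (abs_le.1 (hface i (fun x => Fin.insertNth i (a i) x))).1
        linarith
    _ = 2 * (n + 1) * (2 * ρ) ^ n := by
        rw [Finset.sum_const, Finset.card_univ, Fintype.card_fin, nsmul_eq_mul]
        push_cast
        ring

namespace Profile

variable {α : ℝ} (P : Profile α)

/-- upper bound for `g` near `0` when `c` is close to the identity -/
lemma g_le_of_close {k t : ℝ} (hk : ∀ s, 0 ≤ s → s ≤ 1 → s - P.c s ≤ k) (ht : |t| ≤ 1) :
    P.g t ≤ t ^ 2 + 2 * P.A * k * |t| := by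
  rw [← P.g_absD, ← sq_abs]
  set u := |t| with hu
  have hu0 : 0 ≤ u := abs_nonneg _
  have h1 : ∫ s in (0:ℝ)..u, (s - k) ≤ ∫ s in (0:ℝ)..u, P.c s :=
    intervalIntegral.integral_mono_on hu0
      ((continuous_id.sub continuous_const).intervalIntegrable _ _)
      (P.intervalIntegrable_c _ _) fun x hx => by
        have := hk x hx.1 (hx.2.trans ht)
        linarith
  have i1 : IntervalIntegrable (fun s : ℝ => s) volume 0 u := continuous_id.intervalIntegrable _ _
  rw [intervalIntegral.integral_sub i1 intervalIntegrable_const, integral_id,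
    intervalIntegral.integral_const, smul_eq_mul] at h1
  unfold g
  have := P.A_pos
  nlinarith

/-- **Upper bound for the Cheeger constant.** -/
theorem cheegerConst_le {d : ℕ} (hd : 2 ≤ d) (hA : P.A = 8 * d)
    (hk : ∀ t, 0 ≤ t → t ≤ 1 → t - P.c t ≤ 1 / (8 * d ^ 2)) :
    cheegerConst (P.Omega d) ≤ ENNReal.ofReal (2 * d * Real.sqrt d) := by
  have hd2 : (2:ℝ) ≤ d := by exact_mod_cast hd
  have hsq : 0 < Real.sqrt d := Real.sqrt_pos.2 (by linarith)
  have hss : Real.sqrt d * Real.sqrt d = d := Real.mul_self_sqrt (by linarith)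
  set ρ : ℝ := 1 / (2 * Real.sqrt d) with hρ
  have hρ0 : 0 < ρ := by positivity
  have hρ1 : ρ ≤ 1 := by
    rw [hρ, div_le_one (by positivity)]
    nlinarith
  have hρsq : d * ρ ^ 2 = 1 / 4 := by
    have h4 : ρ ^ 2 = 1 / (4 * (Real.sqrt d * Real.sqrt d)) := by
      rw [hρ]
      ring
    rw [h4, hss]
    field_simp
  have hsub : box d ρ ⊆ P.Omega d := by
    intro x hx
    have h1 : ∀ i, P.g (x i) ≤ ρ ^ 2 + 2 / d * ρ := by
      intro i
      have hxi : |x i| ≤ ρ := abs_le.2 (hx i)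
      have h2 := P.g_le_of_close hk (hxi.trans hρ1)
      rw [hA] at h2
      have h3 : 2 * (8 * (d:ℝ)) * (1 / (8 * d ^ 2)) = 2 / d := by
        field_simp
      rw [h3] at h2
      have h4 : (x i) ^ 2 ≤ ρ ^ 2 := sq_le_sq' (abs_le.1 hxi).1 (abs_le.1 hxi).2
      have h5 : 2 / d * |x i| ≤ 2 / d * ρ := by gcongr
      linarith
    have h2 : P.G x ≤ d * (ρ ^ 2 + 2 / d * ρ) := by
      unfold G
      calc ∑ i, P.g (x i) ≤ ∑ _i : Fin d, (ρ ^ 2 + 2 / d * ρ) := Finset.sum_le_sum fun i _ => h1 i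
        _ = _ := by
          rw [Finset.sum_const, Finset.card_univ, Fintype.card_fin, nsmul_eq_mul]
    have h3 : d * (ρ ^ 2 + 2 / d * ρ) = 1 / 4 + 2 * ρ := by
      rw [mul_add, hρsq]
      field_simp
    have h4 : 2 * ρ < 3 / 4 := by
      rw [hρ]
      have : (4:ℝ)/3 < Real.sqrt d := by
        apply Real.lt_sqrt_of_sq_lt
        norm_num
        linarith
      rw [show 2 * (1 / (2 * Real.sqrt d)) = 1 / Real.sqrt d by field_simp,
        div_lt_iff₀ hsq]
      linarith
    change P.G x < 1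
    linarith
  have hvol := volume_box d hρ0
  have hv0 : 0 < volume (box d ρ) := by
    rw [hvol]
    simp only [ENNReal.ofReal_pos]
    positivity
  refine (iInf₂_le (box d ρ) ⟨(measurableSet_box d ρ).nullMeasurableSet, hsub, hv0⟩).trans ?_
  obtain ⟨n, rfl⟩ : ∃ n, d = n + 1 := ⟨d - 1, by omega⟩
  have hp := perimeter_box_le n hρ0
  rw [ENNReal.div_le_iff hv0.ne' (by rw [hvol]; exact ENNReal.ofReal_ne_top)]
  refine hp.trans ?_
  rw [hvol, ← ENNReal.ofReal_mul (by positivity)]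
  refine ENNReal.ofReal_le_ofReal (le_of_eq ?_)
  rw [pow_succ]
  have h6 : Real.sqrt ((n + 1 : ℕ) : ℝ) * (2 * ρ) = 1 := by
    rw [hρ]
    field_simp
  push_cast at h6 ⊢
  linear_combination (-(2 * ((n:ℝ) + 1) * (2 * ρ) ^ n)) * h6

end Profile

end MP_fd31a8_an
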