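import Mathlib
import Pool.Agent.Lib.MP_fd31a8_an.Basic

/-!
# The cut lemma

If `X` is a `C¹` field of norm at most one and `u` a function whose gradient is a nonnegative
multiple of `X`, `|X| = 1`, then cutting `A` by `{u > s}` changes the perimeter by at most
`- ∫_{A ∩ {u > s}} div X`.
-/

open MeasureTheory Set Filter
open scoped ENNReal NNReal Topology

namespace MP_fd31a8_an

variable {d : ℕ}

/-! ### Basic facts -/

lemma continuousOn_divg {T : Sp d → Sp d} {U : Set (Sp d)} (hU : IsOpen U)
    (hT : ContDiffOn ℝ 1 T U) : ContinuousOn (divg T) U := by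
  have : divg T = fun x => trL d (fderiv ℝ T x) := funext fun x => divg_eq T x
  rw [this]
  exact (trL d).continuous.comp_continuousOn (hT.continuousOn_fderiv_of_isOpen hU le_rfl)

lemma perimeter_le {A : Set (Sp d)} {c : ℝ}
    (h : ∀ T ∈ TestField d, ∫ x in A, divg T x ≤ c) : perimeter A ≤ ENNReal.ofReal c := by
  unfold perimeter
  exact iSup₂_le fun T hT => ENNReal.ofReal_le_ofReal (h T hT)

lemma integrableOn_divg {A : Set (Sp d)} {T : Sp d → Sp d}
    (hT : T ∈ TestField d) : IntegrableOn (divg T) A :=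
  (integrable_divg hT.1 hT.2.1).integrableOn

lemma testField_zero' : (fun _ => (0 : Sp d)) ∈ TestField d :=
  ⟨contDiff_const, HasCompactSupport.zero, fun x => by simp⟩

lemma norm_comb_le {a : ℝ} (h0 : 0 ≤ a) (h1 : a ≤ 1) {v w : Sp d} (hv : ‖v‖ ≤ 1) (hw : ‖w‖ ≤ 1) :
    ‖(1 - a) • v + a • w‖ ≤ 1 := by
  have h2 : ‖(1 - a) • v + a • w‖ ≤ (1 - a) * ‖v‖ + a * ‖w‖ := by
    have := norm_add_le ((1 - a) • v) (a • w)
    rwa [norm_smul, norm_smul, Real.norm_of_nonneg h0,
      Real.norm_of_nonneg (by linarith : 0 ≤ 1 - a)] at this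
  nlinarith

/-! ### The cut lemma -/

/-- The sequence of cut-off functions. -/
noncomputable def cutoff (lam u : Sp d → ℝ) (s : ℝ) (n : ℕ) (x : Sp d) : ℝ :=
  lam x * Real.smoothTransition (n * (u x - s))

section Cut

variable {W U : Set (Sp d)} {u lam : Sp d → ℝ} {X : Sp d → Sp d} {s : ℝ}

lemma cutoff_nonneg (hl : ∀ x, 0 ≤ lam x) (n : ℕ) (x : Sp d) : 0 ≤ cutoff lam u s n x :=
  mul_nonneg (hl x) (Real.smoothTransition.nonneg _)

lemma cutoff_le_one (hl1 : ∀ x, lam x ≤ 1) (n : ℕ) (x : Sp d) :
    cutoff lam u s n x ≤ 1 := by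
  unfold cutoff
  calc lam x * Real.smoothTransition (n * (u x - s)) ≤ 1 * 1 :=
        mul_le_mul (hl1 x) (Real.smoothTransition.le_one _) (Real.smoothTransition.nonneg _)
          zero_le_one
    _ = 1 := one_mul 1

lemma cutoff_eventually_zero (n : ℕ) {x : Sp d} (hx : x ∉ tsupport lam) :
    cutoff lam u s n =ᶠ[𝓝 x] fun _ => 0 := by
  filter_upwards [(isClosed_tsupport lam).isOpen_compl.mem_nhds hx] with y hy
  simp [cutoff, image_eq_zero_of_notMem_tsupport hy]

lemma contDiff_cutoff (hU : IsOpen U) (hu : ContDiffOn ℝ 1 u U) (hlam : ContDiff ℝ 1 lam)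
    (hsupp : tsupport lam ⊆ U) (n : ℕ) : ContDiff ℝ 1 (cutoff lam u s n) := by
  rw [contDiff_iff_contDiffAt]
  intro x
  by_cases hx : x ∈ tsupport lam
  · have hux : ContDiffAt ℝ 1 u x := hu.contDiffAt (hU.mem_nhds (hsupp hx))
    unfold cutoff
    refine hlam.contDiffAt.mul ?_
    exact Real.smoothTransition.contDiffAt.comp x
      (contDiffAt_const.mul (hux.sub contDiffAt_const))
  · exact (contDiffAt_const (c := (0 : ℝ))).congr_of_eventuallyEq (cutoff_eventually_zero n hx)

lemma contDiff_cutoff_smul (hU : IsOpen U) (hu : ContDiffOn ℝ 1 u U) (hlam : ContDiff ℝ 1 lam)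
    (hsupp : tsupport lam ⊆ U) (hX : ContDiffOn ℝ 1 X U) (n : ℕ) :
    ContDiff ℝ 1 (fun x => cutoff lam u s n x • X x) := by
  rw [contDiff_iff_contDiffAt]
  intro x
  by_cases hx : x ∈ tsupport lam
  · exact (contDiff_cutoff hU hu hlam hsupp n).contDiffAt.smul
      (hX.contDiffAt (hU.mem_nhds (hsupp hx)))
  · refine (contDiffAt_const (c := (0 : Sp d))).congr_of_eventuallyEq ?_
    filter_upwards [cutoff_eventually_zero (u := u) (s := s) n hx] with y hy
    rw [hy, zero_smul]

/-- The key pointwise inequality. -/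
lemma fderiv_cutoff_nonneg (hU : IsOpen U) (hu : ContDiffOn ℝ 1 u U) (hlam : ContDiff ℝ 1 lam)
    (hl : ∀ x, 0 ≤ lam x) (hl1 : ∀ x, lam x ≤ 1) (hsupp : tsupport lam ⊆ U)
    (hX1 : ∀ x ∈ U, ‖X x‖ = 1)
    (hgrad : ∀ x ∈ U, ∃ m : ℝ, 0 ≤ m ∧ ∀ v, fderiv ℝ u x v = m * inner ℝ (X x) v)
    (hcut : ∀ x ∈ W, x ∈ U → s < u x → lam x = 1) (n : ℕ) {x : Sp d} (hx : x ∈ W)
    {v : Sp d} (hv : ‖v‖ ≤ 1) : 0 ≤ fderiv ℝ (cutoff lam u s n) x (X x - v) := by
  rcases (cutoff_nonneg (u := u) (s := s) hl n x).eq_or_lt with h0 | h0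
  · -- minimum
    have hmin : IsLocalMin (cutoff lam u s n) x := by
      refine Eventually.of_forall fun y => ?_
      rw [← h0]
      exact cutoff_nonneg hl n y
    rw [hmin.fderiv_eq_zero]
    simp
  · have hlx : lam x ≠ 0 := by
      intro h
      simp [cutoff, h] at h0
    have hxU : x ∈ U := hsupp (subset_tsupport _ hlx)
    have hpos : 0 < Real.smoothTransition (n * (u x - s)) := by
      rcases (Real.smoothTransition.nonneg (n * (u x - s))).eq_or_lt with h | h
      · rw [cutoff, ← h] at h0
        simp at h0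
      · exact h
    have hus : s < u x := by
      by_contra hcon
      push Not at hcon
      have : (n : ℝ) * (u x - s) ≤ 0 :=
        mul_nonpos_of_nonneg_of_nonpos (Nat.cast_nonneg n) (by linarith)
      rw [Real.smoothTransition.zero_of_nonpos this] at hpos
      exact lt_irrefl _ hpos
    have hl1x : lam x = 1 := hcut x hx hxU hus
    have hlam' : fderiv ℝ lam x = 0 := by
      have hmax : IsLocalMax lam x := Eventually.of_forall fun y => by rw [hl1x]; exact hl1 y
      exact hmax.fderiv_eq_zero
    have hud : DifferentiableAt ℝ u x :=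
      (hu.contDiffAt (hU.mem_nhds hxU)).differentiableAt one_ne_zero
    have hld : DifferentiableAt ℝ lam x := hlam.differentiable one_ne_zero x
    obtain ⟨m, hm, hmv⟩ := hgrad x hxU
    have hψ : HasDerivAt Real.smoothTransition
        (deriv Real.smoothTransition (n * (u x - s))) (n * (u x - s)) :=
      ((Real.smoothTransition.contDiffAt (n := 1)).differentiableAt one_ne_zero).hasDerivAt
    have hψ0 : 0 ≤ deriv Real.smoothTransition (n * (u x - s)) :=
      Real.smoothTransition.monotone.deriv_nonneg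
    have hinner : HasFDerivAt (fun y => (n : ℝ) * (u y - s)) ((n : ℝ) • fderiv ℝ u x) x :=
      (hud.hasFDerivAt.sub_const s).const_mul (n : ℝ)
    have hcomp := hψ.comp_hasFDerivAt x hinner
    have hprod := hld.hasFDerivAt.mul hcomp
    have heq : cutoff lam u s n
        = lam * (Real.smoothTransition ∘ fun y => (n : ℝ) * (u y - s)) := rfl
    rw [heq, hprod.fderiv, hlam', hl1x]
    simp only [smul_zero, add_zero, one_smul, smul_apply, smul_eq_mul]
    have h2 : 0 ≤ fderiv ℝ u x (X x - v) := by
      rw [hmv]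
      refine mul_nonneg hm ?_
      rw [inner_sub_right, real_inner_self_eq_norm_sq, hX1 x hxU]
      have := real_inner_le_norm (X x) v
      rw [hX1 x hxU] at this
      nlinarith
    positivity

lemma cutoff_tendsto (hcut : ∀ x ∈ W, x ∈ U → s < u x → lam x = 1)
    (hsupp : tsupport lam ⊆ U) {x : Sp d} (hx : x ∈ W) :
    Tendsto (fun n : ℕ => cutoff lam u s n x) atTop
      (𝓝 (indicator {y | y ∈ U ∧ s < u y} (fun _ => (1 : ℝ)) x)) := by
  by_cases h : x ∈ U ∧ s < u x
  · rw [indicator_of_mem (by exact h)]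
    obtain ⟨N, hN⟩ := exists_nat_ge (1 / (u x - s))
    refine tendsto_const_nhds.congr' ?_
    filter_upwards [eventually_ge_atTop N] with n hn
    have h1 : (1 : ℝ) ≤ n * (u x - s) := by
      have h2 : 0 < u x - s := by linarith [h.2]
      have h3 : 1 / (u x - s) ≤ n := hN.trans (by exact_mod_cast hn)
      rwa [div_le_iff₀ h2] at h3
    rw [cutoff, hcut x hx h.1 h.2, Real.smoothTransition.one_of_one_le h1, one_mul]
  · rw [indicator_of_notMem (by exact h)]
    refine tendsto_const_nhds.congr fun n => ?_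
    by_cases hU : x ∈ U
    · have hus : u x - s ≤ 0 := by
        by_contra hcon
        exact h ⟨hU, by linarith⟩
      rw [cutoff, Real.smoothTransition.zero_of_nonpos
        (mul_nonpos_of_nonneg_of_nonpos (Nat.cast_nonneg n) hus), mul_zero]
    · have : lam x = 0 := image_eq_zero_of_notMem_tsupport fun h' => hU (hsupp h')
      rw [cutoff, this, zero_mul]

/-- **Cut lemma**, integrated form. -/
theorem cut_integral {A : Set (Sp d)} (hA : MeasurableSet A) (hAfin : volume A ≠ ⊤) (hAW : A ⊆ W)
    (hper : perimeter A ≠ ⊤) (hU : IsOpen U) (hu : ContDiffOn ℝ 1 u U) (hX : ContDiffOn ℝ 1 X U)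
    (hlam : ContDiff ℝ 1 lam) (hlc : HasCompactSupport lam)
    (hl : ∀ x, 0 ≤ lam x) (hl1 : ∀ x, lam x ≤ 1) (hsupp : tsupport lam ⊆ U)
    (hX1 : ∀ x ∈ U, ‖X x‖ = 1)
    (hgrad : ∀ x ∈ U, ∃ m : ℝ, 0 ≤ m ∧ ∀ v, fderiv ℝ u x v = m * inner ℝ (X x) v)
    (hcut : ∀ x ∈ W, x ∈ U → s < u x → lam x = 1) {T : Sp d → Sp d} (hT : T ∈ TestField d) :
    (∫ x in A \ {y | y ∈ U ∧ s < u y}, divg T x)
      + ∫ x in A ∩ {y | y ∈ U ∧ s < u y}, divg X x ≤ (perimeter A).toReal := by
  classical
  set N : Set (Sp d) := {y | y ∈ U ∧ s < u y} with hN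
  have hNopen : IsOpen N := by
    have : N = U ∩ u ⁻¹' Ioi s := by ext y; simp [hN]
    rw [this]
    exact hu.continuousOn.isOpen_inter_preimage hU isOpen_Ioi
  have hTc : HasCompactSupport T := hT.2.1
  -- the test fields
  set S : ℕ → Sp d → Sp d := fun n x =>
    ((1 - cutoff lam u s n x) • T x + cutoff lam u s n x • X x) with hS
  have hη : ∀ n, ContDiff ℝ 1 (cutoff lam u s n) := contDiff_cutoff hU hu hlam hsupp
  have hηX : ∀ n, ContDiff ℝ 1 (fun x => cutoff lam u s n x • X x) :=
    contDiff_cutoff_smul hU hu hlam hsupp hX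
  have hSd : ∀ n, ContDiff ℝ 1 (S n) := fun n =>
    ((contDiff_const.sub (hη n)).smul hT.1).add (hηX n)
  have hηc : ∀ n, HasCompactSupport (cutoff lam u s n) := fun n => hlc.mul_right
  have hST : ∀ n, S n ∈ TestField d := by
    intro n
    refine ⟨hSd n, ?_, fun x => ?_⟩
    · have h1 : HasCompactSupport (fun x => (1 - cutoff lam u s n x) • T x) :=
        hTc.mono' fun x hx => by
          by_contra hcon
          have : T x = 0 := by
            by_contra h2
            exact hcon (subset_tsupport T h2)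
          exact hx (by simp [this])
      have h2 : HasCompactSupport (fun x => cutoff lam u s n x • X x) :=
        (hηc n).mono' fun x hx => by
          by_contra hcon
          have : cutoff lam u s n x = 0 := by
            by_contra h2
            exact hcon (subset_tsupport (cutoff lam u s n) h2)
          exact hx (by simp [this])
      exact h1.add h2
    · by_cases hxU : x ∈ U
      · exact norm_comb_le (cutoff_nonneg hl n x) (cutoff_le_one hl1 n x) (hT.2.2 x) (hX1 x hxU).le
      · have h0 : cutoff lam u s n x = 0 := by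
          have : lam x = 0 := image_eq_zero_of_notMem_tsupport fun h' => hxU (hsupp h')
          rw [cutoff, this, zero_mul]
        simp only [hS, h0, sub_zero, one_smul, zero_smul, add_zero]
        exact hT.2.2 x
  -- divergence of the test fields
  have hdiv : ∀ n, ∀ x ∈ W, (1 - cutoff lam u s n x) * divg T x + cutoff lam u s n x * divg X x
      ≤ divg (S n) x := by
    intro n x hx
    have hTd : DifferentiableAt ℝ T x := hT.1.differentiable one_ne_zero x
    have hηd : DifferentiableAt ℝ (cutoff lam u s n) x := (hη n).differentiable one_ne_zero x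
    by_cases hxs : x ∈ tsupport lam
    · have hxU : x ∈ U := hsupp hxs
      have hXd : DifferentiableAt ℝ X x :=
        (hX.contDiffAt (hU.mem_nhds hxU)).differentiableAt one_ne_zero
      have e1 : divg (S n) x = (1 - cutoff lam u s n x) * divg T x
          + fderiv ℝ (fun y => 1 - cutoff lam u s n y) x (T x)
          + (cutoff lam u s n x * divg X x + fderiv ℝ (cutoff lam u s n) x (X x)) := by
        rw [hS]
        rw [divg_add (φ := fun y => (1 - cutoff lam u s n y) • T y)
          (ψ := fun y => cutoff lam u s n y • X y)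
          ((hηd.const_sub 1).smul hTd) (hηd.smul hXd),
          divg_smul (hηd.const_sub 1) hTd, divg_smul hηd hXd]
      have e2 : fderiv ℝ (fun y => 1 - cutoff lam u s n y) x = - fderiv ℝ (cutoff lam u s n) x := by
        rw [fderiv_const_sub]
      have e3 := fderiv_cutoff_nonneg (s := s) hU hu hlam hl hl1 hsupp hX1 hgrad hcut n hx
        (hT.2.2 x)
      rw [map_sub] at e3
      rw [e1, e2]
      simp only [neg_apply]
      linarith
    · have h0 := cutoff_eventually_zero (u := u) (s := s) n hxs
      have h1 : S n =ᶠ[𝓝 x] T := by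
        filter_upwards [h0] with y hy
        simp only [hS, hy, sub_zero, one_smul, zero_smul, add_zero]
      rw [divg_congr h1, h0.self_of_nhds]
      simp
  -- integrate
  obtain ⟨C1, hC1', hC1⟩ := exists_bound_divg hT.1 hT.2.1
  obtain ⟨C2, hC2⟩ : ∃ C : ℝ, ∀ x ∈ tsupport lam, |divg X x| ≤ C := by
    have := (hlc.isCompact).exists_bound_of_continuousOn
      ((continuousOn_divg hU hX).mono hsupp)
    obtain ⟨C, hC⟩ := this
    exact ⟨C, fun x hx => by simpa using hC x hx⟩
  set F : ℕ → Sp d → ℝ := fun n x =>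
    (1 - cutoff lam u s n x) * divg T x + cutoff lam u s n x * divg X x with hF
  have hFbound : ∀ n x, ‖F n x‖ ≤ C1 + max C2 0 := by
    intro n x
    have h0 := cutoff_nonneg (u := u) (s := s) hl n x
    have h1 := cutoff_le_one (u := u) (s := s) hl1 n x
    have h2 : |(1 - cutoff lam u s n x) * divg T x| ≤ C1 := by
      rw [abs_mul, abs_of_nonneg (by linarith : 0 ≤ 1 - cutoff lam u s n x)]
      calc (1 - cutoff lam u s n x) * |divg T x| ≤ 1 * C1 :=
            mul_le_mul (by linarith) (hC1 x) (abs_nonneg _) zero_le_one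
        _ = C1 := one_mul _
    have h3 : |cutoff lam u s n x * divg X x| ≤ max C2 0 := by
      by_cases hxs : x ∈ tsupport lam
      · rw [abs_mul, abs_of_nonneg h0]
        calc cutoff lam u s n x * |divg X x| ≤ 1 * C2 :=
              mul_le_mul h1 (hC2 x hxs) (abs_nonneg _) zero_le_one
          _ = C2 := one_mul _
          _ ≤ max C2 0 := le_max_left _ _
      · have : lam x = 0 := image_eq_zero_of_notMem_tsupport hxs
        simp [cutoff, this]
    calc ‖F n x‖ ≤ |(1 - cutoff lam u s n x) * divg T x| + |cutoff lam u s n x * divg X x| := by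
          rw [Real.norm_eq_abs]; exact abs_add_le _ _
      _ ≤ C1 + max C2 0 := add_le_add h2 h3
  have hFcont : ∀ n, Continuous (F n) := by
    intro n
    have hc1 : Continuous fun x => (1 - cutoff lam u s n x) * divg T x :=
      (continuous_const.sub (hη n).continuous).mul (continuous_divg hT.1)
    have hc2 : Continuous fun x => cutoff lam u s n x * divg X x := by
      rw [continuous_iff_continuousAt]
      intro x
      by_cases hxs : x ∈ tsupport lam
      · exact (hη n).continuous.continuousAt.mul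
          ((continuousOn_divg hU hX).continuousAt (hU.mem_nhds (hsupp hxs)))
      · refine (continuousAt_const (y := (0 : ℝ))).congr ?_
        filter_upwards [cutoff_eventually_zero (u := u) (s := s) n hxs] with y hy
        rw [hy, zero_mul]
    exact hc1.add hc2
  have hFint : ∀ n, IntegrableOn (F n) A := fun n =>
    Measure.integrableOn_of_bounded (M := C1 + max C2 0) hAfin
      (hFcont n).aestronglyMeasurable (Eventually.of_forall fun x => hFbound n x)
  have hle : ∀ n, ∫ x in A, F n x ≤ (perimeter A).toReal := by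
    intro n
    refine le_trans ?_ (integral_le_perimeter (hST n) hper)
    exact setIntegral_mono_on (hFint n) (integrableOn_divg (hST n)) hA
      fun x hx => hdiv n x (hAW hx)
  set G : Sp d → ℝ := fun x => (1 - indicator N (fun _ => (1 : ℝ)) x) * divg T x
    + indicator N (fun _ => (1 : ℝ)) x * divg X x with hG
  have hlim : Tendsto (fun n => ∫ x in A, F n x) atTop (𝓝 (∫ x in A, G x)) := by
    refine tendsto_integral_of_dominated_convergence (fun _ => C1 + max C2 0)
      (fun n => (hFcont n).aestronglyMeasurable) ?_ ?_ ?_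
    · exact integrableOn_const hAfin
    · exact fun n => Eventually.of_forall fun x => hFbound n x
    · rw [ae_restrict_iff' hA]
      refine Eventually.of_forall fun x hx => ?_
      have ht := cutoff_tendsto (u := u) (s := s) hcut hsupp (hAW hx)
      exact ((tendsto_const_nhds.sub ht).mul_const _).add (ht.mul_const _)
  have hfin : ∫ x in A, G x ≤ (perimeter A).toReal := le_of_tendsto' hlim hle
  -- identify the limit
  have hXint : IntegrableOn (divg X) (A ∩ N) := by
    have hfinm : IsFiniteMeasure (volume.restrict (A ∩ N)) :=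
      isFiniteMeasure_restrict.2 (ne_top_of_le_ne_top hAfin (measure_mono inter_subset_left))
    have h1 : AEStronglyMeasurable (divg X) (volume.restrict U) :=
      (continuousOn_divg hU hX).aestronglyMeasurable hU.measurableSet
    have h2 : (volume.restrict (A ∩ N) : Measure (Sp d)) ≤ volume.restrict U :=
      Measure.restrict_mono (fun y (hy : y ∈ A ∩ N) => hy.2.1) le_rfl
    refine Integrable.of_bound (h1.mono_measure h2) C2 ?_
    rw [ae_restrict_iff' (hA.inter hNopen.measurableSet)]
    refine Eventually.of_forall fun x hx => ?_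
    have hlx : lam x = 1 := hcut x (hAW hx.1) hx.2.1 hx.2.2
    have : x ∈ tsupport lam := subset_tsupport _ (by rw [Function.mem_support, hlx]; exact one_ne_zero)
    simpa using hC2 x this
  have hsplit : ∫ x in A, G x = (∫ x in A \ N, divg T x) + ∫ x in A ∩ N, divg X x := by
    have h1 : (∫ x in A ∩ N, G x) = ∫ x in A ∩ N, divg X x := by
      refine setIntegral_congr_fun (hA.inter hNopen.measurableSet) fun x hx => ?_
      simp [hG, indicator_of_mem hx.2]
    have h2 : (∫ x in A \ N, G x) = ∫ x in A \ N, divg T x := by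
      refine setIntegral_congr_fun (hA.diff hNopen.measurableSet) fun x hx => ?_
      simp [hG, indicator_of_notMem hx.2]
    have hGint1 : IntegrableOn G (A ∩ N) :=
      hXint.congr_fun (fun x hx => by simp [hG, indicator_of_mem hx.2])
        (hA.inter hNopen.measurableSet)
    have hGint2 : IntegrableOn G (A \ N) :=
      ((integrableOn_divg (A := A) hT).mono_set sdiff_subset).congr_fun
        (fun x hx => by simp [hG, indicator_of_notMem hx.2]) (hA.diff hNopen.measurableSet)
    have hGint : IntegrableOn G A := by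
      have := hGint1.union hGint2
      rwa [inter_union_sdiff] at this
    rw [← integral_inter_add_sdiff hNopen.measurableSet hGint, h1, h2, add_comm]
  rw [← hsplit]
  exact hfin

/-- **Cut lemma.** -/
theorem cut_perimeter {A : Set (Sp d)} (hA : MeasurableSet A) (hAfin : volume A ≠ ⊤) (hAW : A ⊆ W)
    (hper : perimeter A ≠ ⊤) (hU : IsOpen U) (hu : ContDiffOn ℝ 1 u U) (hX : ContDiffOn ℝ 1 X U)
    (hlam : ContDiff ℝ 1 lam) (hlc : HasCompactSupport lam)
    (hl : ∀ x, 0 ≤ lam x) (hl1 : ∀ x, lam x ≤ 1) (hsupp : tsupport lam ⊆ U)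
    (hX1 : ∀ x ∈ U, ‖X x‖ = 1)
    (hgrad : ∀ x ∈ U, ∃ m : ℝ, 0 ≤ m ∧ ∀ v, fderiv ℝ u x v = m * inner ℝ (X x) v)
    (hcut : ∀ x ∈ W, x ∈ U → s < u x → lam x = 1) :
    perimeter (A \ {y | y ∈ U ∧ s < u y})
      ≤ ENNReal.ofReal ((perimeter A).toReal - ∫ x in A ∩ {y | y ∈ U ∧ s < u y}, divg X x) := by
  refine perimeter_le fun T hT => ?_
  have := cut_integral hA hAfin hAW hper hU hu hX hlam hlc hl hl1 hsupp hX1 hgrad hcut hT
  linarith

end Cut

end MP_fd31a8_an
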