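import Mathlib

/-!
# MP_fd31a8_an : perimeter, Cheeger sets, `C^{1,α}` boundaries (definitions)
-/

open MeasureTheory Set Filter
open scoped ENNReal NNReal Topology

namespace MP_fd31a8_an

/-- `d`-dimensional Euclidean space. -/
abbrev Sp (d : ℕ) := EuclideanSpace ℝ (Fin d)

variable {d : ℕ}

/-- The divergence `∑ i, ∂ᵢ φᵢ` of a vector field. -/
noncomputable def divg (φ : Sp d → Sp d) (x : Sp d) : ℝ :=
  ∑ i : Fin d, (fderiv ℝ φ x (EuclideanSpace.single i (1 : ℝ))) i

/-- Admissible test fields: `C¹`, compactly supported, of norm at most `1` everywhere. -/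
def TestField (d : ℕ) : Set (Sp d → Sp d) :=
  {φ | ContDiff ℝ 1 φ ∧ HasCompactSupport φ ∧ ∀ x, ‖φ x‖ ≤ 1}

/-- De Giorgi perimeter (in the whole space): the supremum of `∫_A div φ` over all test fields. -/
noncomputable def perimeter (A : Set (Sp d)) : ℝ≥0∞ :=
  ⨆ φ ∈ TestField d, ENNReal.ofReal (∫ x in A, divg φ x)

/-- The Cheeger constant of `Ω`: the infimum of `P(A)/|A|` over Lebesgue measurable `A ⊆ Ω` of
positive measure. -/
noncomputable def cheegerConst (Ω : Set (Sp d)) : ℝ≥0∞ :=
  ⨅ A ∈ {A : Set (Sp d) | NullMeasurableSet A ∧ A ⊆ Ω ∧ 0 < volume A}, perimeter A / volume A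

/-- `A` is a Cheeger set of `Ω`: it attains the infimum defining the Cheeger constant. -/
def IsCheegerSet (Ω A : Set (Sp d)) : Prop :=
  NullMeasurableSet A ∧ A ⊆ Ω ∧ 0 < volume A ∧ perimeter A / volume A = cheegerConst Ω

/-- The measure theoretic boundary `{x : 0 < |A ∩ B_r(x)| < |B_r(x)| for all r > 0}`.  For a set
of finite perimeter this is the support of the Gauss-Green measure, i.e. the closure of the
reduced boundary. -/
def essBoundary (A : Set (Sp d)) : Set (Sp d) :=
  {x | ∀ r > 0, 0 < volume (A ∩ Metric.ball x r) ∧ 0 < volume (Metric.ball x r \ A)}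

/-- `Ω` has boundary of class `C^{1,α}`: near each boundary point `x`, after choosing a unit
direction `e`, `Ω` is the subgraph in direction `e` of a function `f` of the remaining variables
(`y - ⟪y, e⟫ e` is the projection of `y` to the hyperplane orthogonal to `e`) which is `C^{1,α}`
near the projection of `x`: `f` is differentiable there and its derivative is Hölder continuous
with exponent `α`. -/
def HasC1HolderBoundary (α : ℝ≥0) (Ω : Set (Sp d)) : Prop :=
  ∀ x ∈ frontier Ω, ∃ (r : ℝ) (e : Sp d) (f : Sp d → ℝ) (V : Set (Sp d)) (C : ℝ≥0),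
    0 < r ∧ ‖e‖ = 1 ∧ IsOpen V ∧ (x - inner ℝ x e • e) ∈ V ∧
    (∀ z ∈ V, DifferentiableAt ℝ f z) ∧ HolderOnWith C α (fderiv ℝ f) V ∧
    ∀ y ∈ Metric.ball x r, (y ∈ Ω ↔ inner ℝ y e < f (y - inner ℝ y e • e))

end MP_fd31a8_an
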