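import Pool.Agent.Lib.MP_fd31a8_an.Defs

/-! # Dimension bound for the slabs over a Cantor-like set -/

open MeasureTheory Set Filter
open scoped ENNReal NNReal Topology

namespace MP_fd31a8_an

lemma card_rest {d : ℕ} (i j : Fin d) (hij : i ≠ j) :
    Fintype.card {l : Fin d // l ≠ i ∧ l ≠ j} + 2 = d := by
  classical
  have h1 : Fintype.card {l : Fin d // l ≠ i ∧ l ≠ j} =
      (Finset.univ.filter fun l : Fin d => l ≠ i ∧ l ≠ j).card := Fintype.card_subtype _
  have h2 : (Finset.univ.filter fun l : Fin d => l ≠ i ∧ l ≠ j) = ({i, j} : Finset (Fin d))ᶜ := by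
    ext l
    simp
  rw [h1, h2, Finset.card_compl, Finset.card_pair hij, Fintype.card_fin]
  have : 2 ≤ d := by
    have := Finset.card_le_univ ({i, j} : Finset (Fin d))
    rw [Finset.card_pair hij, Fintype.card_fin] at this
    exact this
  omega

lemma ediam_box_le {d : ℕ} {S : Set (Sp d)} {r : ℝ} (hr : 0 ≤ r)
    (h : ∀ y ∈ S, ∀ z ∈ S, ∀ l, |y l - z l| ≤ r) : Metric.ediam S ≤ ENNReal.ofReal (Real.sqrt d * r) := by
  refine Metric.ediam_le fun y hy z hz => ?_
  rw [edist_dist]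
  refine ENNReal.ofReal_le_ofReal ?_
  rw [dist_eq_norm, EuclideanSpace.norm_eq]
  have : Real.sqrt d * r = Real.sqrt (d * r ^ 2) := by
    rw [Real.sqrt_mul (by positivity), Real.sqrt_sq hr]
  rw [this]
  refine Real.sqrt_le_sqrt ?_
  calc ∑ i, ‖(y - z) i‖ ^ 2 ≤ ∑ _i : Fin d, r ^ 2 := by
        refine Finset.sum_le_sum fun i _ => ?_
        have h3 := h y hy z hz i
        simp only [PiLp.sub_apply, Real.norm_eq_abs]
        gcongr
    _ = d * r ^ 2 := by simp

theorem dimH_slab_le {d : ℕ} (i j : Fin d) (hij : i ≠ j) (α β : ℝ) (h0 : 0 < α) (hβ0 : 0 < β)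
    (hβ1 : β < 1) (hβ : β ^ α = 1/2) (K : ℕ) (T : Set ℝ)
    (hT : ∀ n : ℕ, ∃ F : Finset ℝ, F.card ≤ K * 2 ^ n ∧ T ⊆ ⋃ a ∈ F, Set.Icc a (a + β ^ n))
    (R : ℝ) :
    dimH {y : Sp d | y j = 0 ∧ y i ∈ T ∧ ∀ l, |y l| ≤ R} ≤ ENNReal.ofReal ((d:ℝ) - 2 + α) := by
  classical
  set Z : Set (Sp d) := {y : Sp d | y j = 0 ∧ y i ∈ T ∧ ∀ l, |y l| ≤ R} with hZ
  set m : ℕ := Fintype.card {l : Fin d // l ≠ i ∧ l ≠ j} with hm
  have hmd : (m : ℝ) + 2 = d := by exact_mod_cast card_rest i j hij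
  set s : ℝ := m + α with hs
  have hsd : (d : ℝ) - 2 + α = s := by rw [hs]; linarith
  rw [hsd]
  have hs0 : 0 < s := by positivity
  choose F hF1 hF2 using hT
  set R' : ℝ := |R| with hR'
  have hR'0 : 0 ≤ R' := abs_nonneg _
  set N : ℕ → ℕ := fun n => ⌊2 * R' / β ^ n⌋₊ + 1 with hN
  let ι : ℕ → Type := fun n => {a : ℝ // a ∈ F n} × ({l : Fin d // l ≠ i ∧ l ≠ j} → Fin (N n))
  let t : ∀ n, ι n → Set (Sp d) := fun n p => {y | y ∈ Z ∧ y i ∈ Icc (p.1 : ℝ) (p.1 + β ^ n) ∧
    ∀ l : {l : Fin d // l ≠ i ∧ l ≠ j}, y l ∈ Icc (-R' + (p.2 l : ℕ) * β ^ n)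
      (-R' + (p.2 l : ℕ) * β ^ n + β ^ n)}
  have hdiam : ∀ n (p : ι n), Metric.ediam (t n p) ≤ ENNReal.ofReal (Real.sqrt d * β ^ n) := by
    intro n p
    refine ediam_box_le (by positivity) ?_
    rintro y ⟨hyZ, hyi, hyl⟩ z ⟨hzZ, hzi, hzl⟩ l
    by_cases hli : l = i
    · subst hli
      rw [abs_le]
      constructor <;> linarith [hyi.1, hyi.2, hzi.1, hzi.2]
    by_cases hlj : l = j
    · subst hlj
      rw [hyZ.1, hzZ.1]
      simp only [sub_self, abs_zero]
      positivity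
    · have a := hyl ⟨l, hli, hlj⟩
      have b := hzl ⟨l, hli, hlj⟩
      simp only [mem_Icc] at a b
      rw [abs_le]
      constructor <;> linarith [a.1, a.2, b.1, b.2]
  have hcov : ∀ n, Z ⊆ ⋃ p, t n p := by
    intro n y hy
    have hβn : 0 < β ^ n := by positivity
    obtain ⟨a, ha, hya⟩ := mem_iUnion₂.1 (hF2 n hy.2.1)
    have hk : ∀ l : {l : Fin d // l ≠ i ∧ l ≠ j}, ∃ k : Fin (N n),
        y l ∈ Icc (-R' + (k : ℕ) * β ^ n) (-R' + (k : ℕ) * β ^ n + β ^ n) := by
      intro l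
      have h1 : |y l| ≤ R' := (hy.2.2 l).trans (le_abs_self R)
      rw [abs_le] at h1
      have h2 : 0 ≤ (y l + R') / β ^ n := div_nonneg (by linarith) hβn.le
      have h3 : ⌊(y l + R') / β ^ n⌋₊ < N n := by
        rw [hN]
        refine Nat.lt_succ_of_le (Nat.floor_le_floor ?_)
        gcongr
        linarith
      refine ⟨⟨⌊(y l + R') / β ^ n⌋₊, h3⟩, ?_⟩
      have h4 := Nat.floor_le h2
      have h5 := Nat.lt_floor_add_one ((y l + R') / β ^ n)
      rw [le_div_iff₀ hβn] at h4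
      rw [div_lt_iff₀ hβn] at h5
      simp only [mem_Icc]
      constructor <;> linarith
    choose k hk using hk
    exact mem_iUnion.2 ⟨⟨⟨a, ha⟩, k⟩, hy, hya, hk⟩
  have hr0 : Tendsto (fun n : ℕ => ENNReal.ofReal (Real.sqrt d * β ^ n)) atTop (𝓝 0) := by
    have h1 : Tendsto (fun n : ℕ => Real.sqrt d * β ^ n) atTop (𝓝 (Real.sqrt d * 0)) :=
      (tendsto_pow_atTop_nhds_zero_of_lt_one hβ0.le hβ1).const_mul _
    rw [mul_zero] at h1
    have := (ENNReal.continuous_ofReal.tendsto 0).comp h1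
    rw [ENNReal.ofReal_zero] at this
    exact this
  set B : ℝ := K * (2 * R' + 1) ^ m * (Real.sqrt d) ^ s with hB
  have hsum : ∀ n, ∑ p : ι n, Metric.ediam (t n p) ^ s ≤ ENNReal.ofReal B := by
    intro n
    have hβn : 0 < β ^ n := by positivity
    have hβn1 : β ^ n ≤ 1 := pow_le_one₀ hβ0.le hβ1.le
    calc ∑ p : ι n, Metric.ediam (t n p) ^ s
        ≤ ∑ _p : ι n, ENNReal.ofReal ((Real.sqrt d * β ^ n) ^ s) := by
          refine Finset.sum_le_sum fun p _ => ?_
          rw [← ENNReal.ofReal_rpow_of_nonneg (by positivity) hs0.le]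
          exact ENNReal.rpow_le_rpow (hdiam n p) hs0.le
      _ = ENNReal.ofReal (((F n).card * (N n) ^ m : ℕ) * (Real.sqrt d * β ^ n) ^ s) := by
          rw [Finset.sum_const, nsmul_eq_mul, ENNReal.ofReal_mul (by positivity),
            ENNReal.ofReal_natCast]
          congr 2
          simp only [Finset.card_univ, ι, Fintype.card_prod, Fintype.card_coe, Fintype.card_fun,
            Fintype.card_fin, hm]
      _ ≤ ENNReal.ofReal B := by
          refine ENNReal.ofReal_le_ofReal ?_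
          push_cast
          have e1 : ((F n).card : ℝ) ≤ K * 2 ^ n := by exact_mod_cast hF1 n
          have e2 : (N n : ℝ) ≤ (2 * R' + 1) / β ^ n := by
            rw [hN]
            push_cast
            have := Nat.floor_le (show 0 ≤ 2 * R' / β ^ n by positivity)
            have h3 : 1 ≤ 1 / β ^ n := by
              rw [le_div_iff₀ hβn]
              linarith
            calc (⌊2 * R' / β ^ n⌋₊ : ℝ) + 1 ≤ 2 * R' / β ^ n + 1 / β ^ n := by linarith
              _ = _ := by ring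
          have e3 : (Real.sqrt d * β ^ n) ^ s = (Real.sqrt d) ^ s * ((β ^ n) ^ m * (1 / 2) ^ n) := by
            rw [Real.mul_rpow (by positivity) hβn.le]
            congr 1
            rw [hs, Real.rpow_add hβn, Real.rpow_natCast]
            congr 1
            rw [← Real.rpow_natCast β n, ← Real.rpow_mul hβ0.le, mul_comm, Real.rpow_mul hβ0.le,
              hβ, Real.rpow_natCast]
          rw [e3]
          have e4 : ((F n).card : ℝ) * (N n : ℝ) ^ m ≤ (K * 2 ^ n) * ((2 * R' + 1) / β ^ n) ^ m := by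
            gcongr
          calc ((F n).card : ℝ) * (N n : ℝ) ^ m *
                ((Real.sqrt d) ^ s * ((β ^ n) ^ m * (1 / 2) ^ n))
              ≤ ((K * 2 ^ n) * ((2 * R' + 1) / β ^ n) ^ m) *
                ((Real.sqrt d) ^ s * ((β ^ n) ^ m * (1 / 2) ^ n)) := by gcongr
            _ = B := by
                rw [hB, div_pow]
                have h2 : (2:ℝ) ^ n * (1/2) ^ n = 1 := by
                  rw [← mul_pow]
                  norm_num
                field_simp
                linear_combination (K * (Real.sqrt d) ^ s) * h2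
  have hfin : μH[s] Z ≠ ∞ := by
    have h1 := Measure.hausdorffMeasure_le_liminf_sum s Z (l := atTop)
      (fun n : ℕ => ENNReal.ofReal (Real.sqrt d * β ^ n)) hr0 t
      (Eventually.of_forall fun n p => hdiam n p) (Eventually.of_forall hcov)
    have h2 : liminf (fun n => ∑ p : ι n, Metric.ediam (t n p) ^ s) atTop ≤ ENNReal.ofReal B := by
      refine (liminf_le_liminf (Eventually.of_forall hsum)).trans ?_
      simp
    exact ((h1.trans h2).trans_lt ENNReal.ofReal_lt_top).ne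
  have h3 : dimH Z ≤ ((Real.toNNReal s : ℝ≥0) : ℝ≥0∞) := by
    refine dimH_le_of_hausdorffMeasure_ne_top ?_
    rw [Real.coe_toNNReal s hs0.le]
    exact hfin
  exact h3

end MP_fd31a8_an
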