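import Pool.Agent.Lib.MP_fd31a8_an.Dim
import Pool.Agent.Lib.MP_fd31a8_an.Boundary

/-! # Dimension of the part of the boundary of `Ω` lying over the Cantor set -/

open MeasureTheory Set Filter
open scoped ENNReal NNReal Topology

namespace MP_fd31a8_an

variable {d : ℕ}

lemma dimH_le_of_dist_le {X Y : Type*} [MetricSpace X] [MetricSpace Y]
    {S : Set X} {f : X → Y} {C : ℝ≥0} (h : ∀ x ∈ S, ∀ y ∈ S, dist x y ≤ C * dist (f x) (f y)) :
    dimH S ≤ dimH (f '' S) := by
  have h1 : AntilipschitzWith C (fun x : S => f x) :=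
    AntilipschitzWith.of_le_mul_dist fun x y => h x x.2 y y.2
  have h2 := h1.le_dimH_image univ
  have h3 : (fun x : S => f x) '' univ = f '' S := by
    rw [image_univ]
    ext z
    simp
  have h4 : dimH (univ : Set S) = dimH S := by
    have := (isometry_subtype_coe (s := S)).dimH_image univ
    rw [← this]
    congr 1
    simp
  rw [h3, h4] at h2
  exact h2

namespace Profile

variable {α : ℝ} (P : Profile α)

lemma not_mem_K_of_gt {t : ℝ} (ht : P.q < t) : t ∉ P.K := by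
  intro h
  apply h
  filter_upwards [Ioi_mem_nhds ht] with s hs
  rw [P.const s (le_of_lt hs), P.const t ht.le]

lemma neg_mem_K {t : ℝ} (ht : t ∈ P.K) : -t ∈ P.K := by
  intro h
  apply ht
  have h1 : Tendsto (fun s : ℝ => -s) (𝓝 t) (𝓝 (-t)) := continuous_neg.tendsto t
  filter_upwards [h1.eventually h] with s hs
  rw [P.odd, P.odd] at hs
  linarith

lemma abs_mem_K {t : ℝ} (ht : t ∈ P.K) : |t| ∈ P.K := by
  rcases abs_choice t with h | h
  · rwa [h]
  · rw [h]
    exact P.neg_mem_K ht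

lemma abs_le_q_of_mem_K {t : ℝ} (ht : t ∈ P.K) : |t| ≤ P.q := by
  by_contra h
  exact P.not_mem_K_of_gt (not_le.1 h) (P.abs_mem_K ht)

lemma g_lt_one_of_mem_K {t : ℝ} (ht : t ∈ P.K) : P.g t < 1 := by
  have h1 := P.abs_le_q_of_mem_K ht
  have h2 : P.g P.q < 1 := P.gq_lt
  rw [← P.g_absD]
  rcases h1.eq_or_lt with h | h
  · rw [h]
    exact h2
  · exact (P.g_lt_of_lt (abs_nonneg t) h).trans h2

/-- the projection killing the `j`-th coordinate -/
noncomputable def proj0 (j : Fin d) (x : Sp d) : Sp d := x - EuclideanSpace.single j (x j)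

lemma proj0_apply_self (j : Fin d) (x : Sp d) : proj0 j x j = 0 := by
  simp [proj0]

lemma proj0_apply_ne {j l : Fin d} (h : l ≠ j) (x : Sp d) : proj0 j x l = x l := by
  simp [proj0, h]

lemma abs_coord_sub_le {j l : Fin d} (h : l ≠ j) (x y : Sp d) :
    |x l - y l| ≤ dist (proj0 j x) (proj0 j y) := by
  rw [← proj0_apply_ne h x, ← proj0_apply_ne h y, dist_eq_norm]
  exact PiLp.norm_apply_le (proj0 j x - proj0 j y) l

lemma dist_le_proj0 (j : Fin d) (x y : Sp d) :
    dist x y ≤ dist (proj0 j x) (proj0 j y) + |x j - y j| := by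
  rw [dist_eq_norm, dist_eq_norm]
  have h1 : x - y = (proj0 j x - proj0 j y) + EuclideanSpace.single j (x j - y j) := by
    ext l
    by_cases hl : l = j
    · subst hl
      simp [proj0]
    · simp [proj0, hl]
  rw [h1]
  refine (norm_add_le _ _).trans ?_
  rw [PiLp.norm_single, Real.norm_eq_abs]

lemma coord_dist_le (h0 : 0 < α) {j : Fin d} {μ : ℝ} (hμ : 0 < μ) {x y : Sp d}
    (hx : P.G x = 1) (hy : P.G y = 1) (hxj : μ ≤ |x j|) (hyj : μ ≤ |y j|)
    (hle : |x j| ≤ |y j|) :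
    |y j| - |x j| ≤ d * P.B / (2 * μ) * dist (proj0 j x) (proj0 j y) := by
  have h1 := P.sq_sub_sq_le (abs_nonneg (x j)) hle
  rw [P.g_absD, P.g_absD] at h1
  have h2 : P.g (y j) - P.g (x j) = P.w j y - P.w j x := by
    rw [P.w_eq, P.w_eq, hx, hy]
    ring
  have hxn := P.norm_le_one_of_G_le hx.le
  have hyn := P.norm_le_one_of_G_le hy.le
  have h3 : P.w j y - P.w j x ≤ d * P.B * dist (proj0 j x) (proj0 j y) := by
    unfold w
    have e1 : (1 - ∑ l ∈ Finset.univ.erase j, P.g (y l)) -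
        (1 - ∑ l ∈ Finset.univ.erase j, P.g (x l)) =
        ∑ l ∈ Finset.univ.erase j, (P.g (x l) - P.g (y l)) := by
      rw [Finset.sum_sub_distrib]
      ring
    rw [e1]
    have hB := P.B_pos
    calc ∑ l ∈ Finset.univ.erase j, (P.g (x l) - P.g (y l))
        ≤ ∑ _l ∈ Finset.univ.erase j, P.B * dist (proj0 j x) (proj0 j y) := by
          refine Finset.sum_le_sum fun l hl => ?_
          have a1 : |x l| ≤ 2 := by
            have := PiLp.norm_apply_le x l
            rw [Real.norm_eq_abs] at this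
            linarith
          have a2 : |y l| ≤ 2 := by
            have := PiLp.norm_apply_le y l
            rw [Real.norm_eq_abs] at this
            linarith
          refine (le_abs_self _).trans ((P.abs_g_sub_leD h0 a1 a2).trans ?_)
          gcongr
          exact abs_coord_sub_le (Finset.ne_of_mem_erase hl) x y
      _ = ((Finset.univ.erase j).card : ℝ) * (P.B * dist (proj0 j x) (proj0 j y)) := by
          rw [Finset.sum_const, nsmul_eq_mul]
      _ ≤ d * (P.B * dist (proj0 j x) (proj0 j y)) := by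
          gcongr
          calc (Finset.univ.erase j).card ≤ (Finset.univ : Finset (Fin d)).card :=
                Finset.card_le_card (Finset.erase_subset _ _)
            _ = d := by simp
      _ = _ := by ring
  rw [div_mul_eq_mul_div, le_div_iff₀ (by positivity)]
  nlinarith

lemma dimH_piece_le (h0 : 0 < α) {i j : Fin d} (hij : i ≠ j) {β : ℝ} (hβ0 : 0 < β)
    (hβ1 : β < 1) (hβ : β ^ α = 1/2) (N : ℕ)
    (hT : ∀ n : ℕ, ∃ F : Finset ℝ, F.card ≤ N * 2 ^ n ∧ P.K ⊆ ⋃ a ∈ F, Set.Icc a (a + β ^ n))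
    {μ : ℝ} (hμ : 0 < μ) (σ : ℝ) (hσ : |σ| = 1) :
    dimH {x : Sp d | P.G x = 1 ∧ x i ∈ P.K ∧ μ ≤ σ * x j} ≤ ENNReal.ofReal ((d:ℝ) - 2 + α) := by
  have hB := P.B_pos
  set Cr : ℝ := 1 + d * P.B / (2 * μ) with hCr
  have hCr0 : 0 ≤ Cr := by positivity
  have hab : ∀ x : Sp d, μ ≤ σ * x j → |x j| = σ * x j := by
    intro x hx
    have h1 : |σ * x j| = σ * x j := abs_of_nonneg (hμ.le.trans hx)
    rwa [abs_mul, hσ, one_mul] at h1
  have key : ∀ x ∈ {x : Sp d | P.G x = 1 ∧ x i ∈ P.K ∧ μ ≤ σ * x j},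
      ∀ y ∈ {x : Sp d | P.G x = 1 ∧ x i ∈ P.K ∧ μ ≤ σ * x j},
      dist x y ≤ (Cr.toNNReal : ℝ≥0) * dist (proj0 j x) (proj0 j y) := by
    rintro x ⟨hx1, -, hx2⟩ y ⟨hy1, -, hy2⟩
    rw [Real.coe_toNNReal _ hCr0]
    have h1 : |x j - y j| ≤ d * P.B / (2 * μ) * dist (proj0 j x) (proj0 j y) := by
      have hxa := hab x hx2
      have hya := hab y hy2
      have e1 : |x j - y j| = |(|x j| - |y j|)| := by
        rw [hxa, hya, ← mul_sub, abs_mul, hσ, one_mul]
      rw [e1]
      rcases le_total |x j| |y j| with h | h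
      · rw [abs_sub_comm, abs_of_nonneg (sub_nonneg.2 h)]
        exact P.coord_dist_le h0 hμ hx1 hy1 (by rw [hxa]; exact hx2) (by rw [hya]; exact hy2) h
      · rw [abs_of_nonneg (sub_nonneg.2 h), dist_comm]
        exact P.coord_dist_le h0 hμ hy1 hx1 (by rw [hya]; exact hy2) (by rw [hxa]; exact hx2) h
    calc dist x y ≤ dist (proj0 j x) (proj0 j y) + |x j - y j| := dist_le_proj0 j x y
      _ ≤ dist (proj0 j x) (proj0 j y) + d * P.B / (2 * μ) * dist (proj0 j x) (proj0 j y) := by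
          gcongr
      _ = Cr * dist (proj0 j x) (proj0 j y) := by
          rw [hCr]
          ring
  refine (dimH_le_of_dist_le key).trans ((dimH_mono ?_).trans
    (dimH_slab_le i j hij α β h0 hβ0 hβ1 hβ N P.K hT 1))
  rintro z ⟨x, ⟨hx1, hx2, -⟩, rfl⟩
  refine ⟨proj0_apply_self j x, ?_, ?_⟩
  · rw [proj0_apply_ne hij]
    exact hx2
  · intro l
    by_cases hl : l = j
    · rw [hl, proj0_apply_self, abs_zero]
      exact zero_le_one
    · rw [proj0_apply_ne hl]
      exact (PiLp.norm_apply_le x l).trans (P.norm_le_one_of_G_le hx1.le)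

theorem dimH_boundary_over_K_le (h0 : 0 < α) {β : ℝ} (hβ0 : 0 < β)
    (hβ1 : β < 1) (hβ : β ^ α = 1/2) (N : ℕ)
    (hT : ∀ n : ℕ, ∃ F : Finset ℝ, F.card ≤ N * 2 ^ n ∧ P.K ⊆ ⋃ a ∈ F, Set.Icc a (a + β ^ n)) :
    dimH {x : Sp d | P.G x = 1 ∧ ∃ i, x i ∈ P.K} ≤ ENNReal.ofReal ((d:ℝ) - 2 + α) := by
  have hcov : {x : Sp d | P.G x = 1 ∧ ∃ i, x i ∈ P.K} ⊆
      ⋃ p : (Fin d × Fin d) × (ℕ × Bool), (if p.1.1 ≠ p.1.2 then
        {x : Sp d | P.G x = 1 ∧ x p.1.1 ∈ P.K ∧
          1 / ((p.2.1 : ℝ) + 1) ≤ (if p.2.2 then 1 else -1) * x p.1.2} else ∅) := by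
    rintro x ⟨hx1, i, hxi⟩
    have hj : ∃ j, j ≠ i ∧ x j ≠ 0 := by
      by_contra hcon
      push Not at hcon
      have h1 : P.G x = P.g (x i) := by
        unfold G
        rw [Finset.sum_eq_single i]
        · intro l _ hl
          rw [hcon l hl, P.g_zeroD]
        · intro h
          exact absurd (Finset.mem_univ i) h
      have h2 := P.g_lt_one_of_mem_K hxi
      rw [h1] at hx1
      linarith
    obtain ⟨j, hji, hxj⟩ := hj
    obtain ⟨m, hm⟩ := exists_nat_one_div_lt (abs_pos.2 hxj)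
    rcases lt_or_gt_of_ne hxj with h | h
    · refine mem_iUnion.2 ⟨((i, j), (m, false)), ?_⟩
      rw [if_pos (by exact hji.symm)]
      refine ⟨hx1, hxi, ?_⟩
      rw [abs_of_neg h] at hm
      simp only [Bool.false_eq_true, if_false]
      linarith
    · refine mem_iUnion.2 ⟨((i, j), (m, true)), ?_⟩
      rw [if_pos (by exact hji.symm)]
      refine ⟨hx1, hxi, ?_⟩
      rw [abs_of_pos h] at hm
      simp only [if_true]
      linarith
  refine (dimH_mono hcov).trans ?_
  rw [dimH_iUnion]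
  refine iSup_le fun p => ?_
  by_cases h : p.1.1 ≠ p.1.2
  · rw [if_pos h]
    refine P.dimH_piece_le h0 h hβ0 hβ1 hβ N hT (by positivity) _ ?_
    split_ifs <;> simp
  · rw [if_neg h, dimH_empty]
    exact zero_le

end Profile

end MP_fd31a8_an
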