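import Pool.Agent.Lib.MP_fd31a8_an.Compact

/-! # Existence of Cheeger sets -/

open MeasureTheory Set Filter
open scoped ENNReal NNReal Topology symmDiff

namespace MP_fd31a8_an

variable {d : ℕ}

lemma abs_setIntegral_sub_le {f : Sp d → ℝ} (hf : Integrable f) {C : ℝ} (hC : ∀ x, |f x| ≤ C)
    {A E : Set (Sp d)} (hA : MeasurableSet A) (hE : MeasurableSet E) (hAv : volume A ≠ ∞)
    (hEv : volume E ≠ ∞) :
    |(∫ x in A, f x) - ∫ x in E, f x| ≤ C * (volume (A ∆ E)).toReal := by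
  have h1 : ∫ x in A, f x = (∫ x in A ∩ E, f x) + ∫ x in A \ E, f x :=
    (integral_inter_add_sdiff hE hf.integrableOn).symm
  have h2 : ∫ x in E, f x = (∫ x in E ∩ A, f x) + ∫ x in E \ A, f x :=
    (integral_inter_add_sdiff hA hf.integrableOn).symm
  have hAE : volume (A \ E) ≠ ∞ := ne_top_of_le_ne_top hAv (measure_mono sdiff_subset)
  have hEA : volume (E \ A) ≠ ∞ := ne_top_of_le_ne_top hEv (measure_mono sdiff_subset)
  have h3 : ‖∫ x in A \ E, f x‖ ≤ C * (volume (A \ E)).toReal :=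
    norm_setIntegral_le_of_norm_le_const hAE.lt_top fun x _ => hC x
  have h4 : ‖∫ x in E \ A, f x‖ ≤ C * (volume (E \ A)).toReal :=
    norm_setIntegral_le_of_norm_le_const hEA.lt_top fun x _ => hC x
  have h5 : (volume (A ∆ E)).toReal = (volume (A \ E)).toReal + (volume (E \ A)).toReal := by
    rw [measure_symmDiff_eq hA.nullMeasurableSet hE.nullMeasurableSet, ENNReal.toReal_add hAE hEA]
  rw [h1, h2, inter_comm E A, h5]
  have h6 : (∫ x in A ∩ E, f x) + (∫ x in A \ E, f x) -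
      ((∫ x in A ∩ E, f x) + ∫ x in E \ A, f x) = (∫ x in A \ E, f x) - ∫ x in E \ A, f x := by ring
  rw [h6]
  calc |(∫ x in A \ E, f x) - ∫ x in E \ A, f x|
      ≤ ‖∫ x in A \ E, f x‖ + ‖∫ x in E \ A, f x‖ := by
        rw [← Real.norm_eq_abs]
        exact norm_sub_le _ _
    _ ≤ _ := by linarith

theorem exists_cheegerSet {Ω : Set (Sp d)} (hΩ : Bornology.IsBounded Ω) (hΩm : MeasurableSet Ω)
    (hfin : cheegerConst Ω ≠ ∞) :
    ∃ E : Set (Sp d), MeasurableSet E ∧ IsCheegerSet Ω E := by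
  set h := cheegerConst Ω with hh
  have hΩv : volume Ω ≠ ∞ := hΩ.measure_lt_top.ne
  -- a minimizing sequence of measurable sets
  have hseq : ∀ n : ℕ, ∃ A : Set (Sp d), MeasurableSet A ∧ A ⊆ Ω ∧ 0 < volume A ∧
      perimeter A ≤ (h + ENNReal.ofReal (1 / (n + 1))) * volume A := by
    intro n
    have hlt : h < h + ENNReal.ofReal (1 / ((n:ℝ) + 1)) :=
      ENNReal.lt_add_right hfin (by
        simp only [ne_eq, ENNReal.ofReal_eq_zero, not_le]
        positivity)
    have hlt' : (⨅ A ∈ {A : Set (Sp d) | NullMeasurableSet A ∧ A ⊆ Ω ∧ 0 < volume A},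
        perimeter A / volume A) < h + ENNReal.ofReal (1 / ((n:ℝ) + 1)) := hlt
    obtain ⟨A, hA⟩ := iInf_lt_iff.1 hlt'
    obtain ⟨⟨hA1, hA2, hA3⟩, hA4⟩ := iInf_lt_iff.1 hA
    obtain ⟨B, hBA, hBm, hBae⟩ := hA1.exists_measurable_subset_ae_eq
    have hv : volume B = volume A := measure_congr hBae
    have hP : perimeter B = perimeter A := perimeter_congr hBae
    refine ⟨B, hBm, hBA.trans hA2, hv ▸ hA3, ?_⟩
    rw [hP, hv]
    have hA3' : volume A ≠ 0 := hA3.ne'
    have hAt : volume A ≠ ∞ := ne_top_of_le_ne_top hΩv (measure_mono hA2)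
    exact (ENNReal.div_le_iff hA3' hAt).1 hA4.le
  choose A hAm hAΩ hA0 hAP using hseq
  have hAv : ∀ n, volume (A n) ≠ ∞ := fun n => ne_top_of_le_ne_top hΩv (measure_mono (hAΩ n))
  have hle1 : ∀ n : ℕ, ENNReal.ofReal (1 / ((n:ℝ) + 1)) ≤ 1 := by
    intro n
    rw [← ENNReal.ofReal_one]
    refine ENNReal.ofReal_le_ofReal ?_
    rw [div_le_one (by positivity)]
    linarith [(Nat.cast_nonneg n : (0:ℝ) ≤ n)]
  have hh1 : h + 1 ≠ ∞ := by simp [hfin]
  have hAP' : ∀ n, perimeter (A n) ≤ (h + 1) * volume (A n) := fun n =>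
    (hAP n).trans (by gcongr; exact hle1 n)
  -- lower bound for the volumes
  set c : ℝ := (h + 1).toReal with hc
  have hc0 : 0 < c := ENNReal.toReal_pos (by simp) hh1
  have hcE : ENNReal.ofReal c = h + 1 := ENNReal.ofReal_toReal hh1
  set b := volume (Metric.closedBall (0 : Sp d) (1 / (2 * c))) with hb
  have hb0 : 0 < b := Metric.measure_closedBall_pos _ _ (by positivity)
  have hAb : ∀ n, b ≤ 2 * volume (A n) := fun n =>
    volume_lower_bound (hAm n) (hAv n) (hA0 n).ne' hc0 (by rw [hcE]; exact hAP' n)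
  -- compactness
  have : CompleteSpace (MeasuredSets (volume : Measure (Sp d))) := completeSpace_measuredSets _
  have hC : (h + 1) * volume Ω ≠ ∞ := ENNReal.mul_ne_top hh1 hΩv
  have htb := (totallyBounded_sets hΩ hC).closure
  have hcpt := htb.isCompact_of_isClosed isClosed_closure
  obtain ⟨E0, -, φ, hφ, hlim⟩ := hcpt.tendsto_subseq
    (x := fun n => toMS volume (A n) (hAm n)) (fun n => subset_closure
      ⟨by rw [coe_toMS]; exact hAΩ n, by
        rw [coe_toMS]
        exact (hAP' n).trans (by gcongr; exact hAΩ n)⟩)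
  set E : Set (Sp d) := (E0 : Set (Sp d)) ∩ Ω with hE
  have hEm : MeasurableSet E := (measurableSet_coe_MS E0).inter hΩm
  have hEΩ : E ⊆ Ω := inter_subset_right
  have hEv : volume E ≠ ∞ := ne_top_of_le_ne_top hΩv (measure_mono hEΩ)
  have hd0 : Tendsto (fun n => volume ((A (φ n)) ∆ E)) atTop (𝓝 0) := by
    have h1 : Tendsto (fun n => edist (toMS volume (A (φ n)) (hAm (φ n))) E0) atTop (𝓝 0) :=
      (tendsto_iff_edist_tendsto_0).1 hlim
    refine tendsto_of_tendsto_of_tendsto_of_le_of_le tendsto_const_nhds h1 (fun _ => zero_le)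
      fun n => ?_
    rw [MeasuredSets.edist_def, coe_toMS]
    refine measure_mono ?_
    intro x hx
    rw [mem_symmDiff] at hx ⊢
    rcases hx with ⟨hx1, hx2⟩ | ⟨hx1, hx2⟩
    · exact Or.inl ⟨hx1, fun h => hx2 ⟨h, hAΩ _ hx1⟩⟩
    · exact Or.inr ⟨hx1.1, hx2⟩
  have hlimE : Tendsto (fun n => toMS volume (A (φ n)) (hAm (φ n))) atTop
      (𝓝 (toMS volume E hEm)) := by
    rw [tendsto_iff_edist_tendsto_0]
    exact hd0
  have hvol : Tendsto (fun n => volume (A (φ n))) atTop (𝓝 (volume E)) :=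
    (MeasuredSets.continuous_measure.tendsto (toMS volume E hEm)).comp hlimE
  have hE0 : volume E ≠ 0 := by
    intro h0
    have h1 : b ≤ 2 * volume E :=
      ge_of_tendsto' (ENNReal.Tendsto.const_mul hvol (Or.inr (by norm_num))) fun n => hAb (φ n)
    rw [h0, mul_zero] at h1
    exact hb0.not_ge h1
  -- lower semicontinuity
  have hPE : perimeter E ≤ h * volume E := by
    unfold perimeter
    refine iSup₂_le fun ψ hψ => ?_
    have hint := integrable_divg hψ.1 hψ.2.1
    obtain ⟨C, hC0, hCb⟩ := exists_bound_divg hψ.1 hψ.2.1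
    have hconv : Tendsto (fun n => ∫ x in A (φ n), divg ψ x) atTop (𝓝 (∫ x in E, divg ψ x)) := by
      rw [tendsto_iff_norm_sub_tendsto_zero]
      have h1 : Tendsto (fun n => C * (volume ((A (φ n)) ∆ E)).toReal) atTop (𝓝 0) := by
        have h2 := (ENNReal.tendsto_toReal (a := 0) (by norm_num)).comp hd0
        have h3 := h2.const_mul C
        simpa using h3
      refine squeeze_zero (fun _ => norm_nonneg _) (fun n => ?_) h1
      exact abs_setIntegral_sub_le hint hCb (hAm _) hEm (hAv _) hEv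
    have h1 : Tendsto (fun n => ENNReal.ofReal (∫ x in A (φ n), divg ψ x)) atTop
        (𝓝 (ENNReal.ofReal (∫ x in E, divg ψ x))) :=
      (ENNReal.continuous_ofReal.tendsto _).comp hconv
    have h2 : Tendsto (fun n => (h + ENNReal.ofReal (1 / ((φ n : ℝ) + 1))) * volume (A (φ n)))
        atTop (𝓝 (h * volume E)) := by
      have h3 : Tendsto (fun n : ℕ => ENNReal.ofReal (1 / ((φ n : ℝ) + 1))) atTop (𝓝 0) := by
        have h4 := (tendsto_one_div_add_atTop_nhds_zero_nat (𝕜 := ℝ)).comp hφ.tendsto_atTop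
        have h5 := (ENNReal.continuous_ofReal.tendsto 0).comp h4
        rw [ENNReal.ofReal_zero] at h5
        exact h5
      have h6 : Tendsto (fun n : ℕ => h + ENNReal.ofReal (1 / ((φ n : ℝ) + 1))) atTop (𝓝 (h + 0)) :=
        tendsto_const_nhds.add h3
      rw [add_zero] at h6
      exact ENNReal.Tendsto.mul h6 (Or.inr hEv) hvol (Or.inr hfin)
    exact le_of_tendsto_of_tendsto' h1 h2 fun n =>
      (ofReal_le_perimeter hψ _).trans (hAP (φ n))
  refine ⟨E, hEm, hEm.nullMeasurableSet, hEΩ, pos_iff_ne_zero.2 hE0, le_antisymm ?_ ?_⟩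
  · exact (ENNReal.div_le_iff hE0 hEv).2 hPE
  · unfold cheegerConst
    exact iInf₂_le E ⟨hEm.nullMeasurableSet, hEΩ, pos_iff_ne_zero.2 hE0⟩

end MP_fd31a8_an
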