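import Pool.Agent.Lib.MP_fd31a8_an.Trans

/-! # Averaging the translation estimate; lower bound for the volume -/

open MeasureTheory Set Filter
open scoped ENNReal NNReal Topology

namespace MP_fd31a8_an

variable {d : ℕ}

theorem lintegral_closedBall_diff_le {A : Set (Sp d)} (hA : MeasurableSet A)
    (hAv : volume A ≠ ∞) (r : ℝ) :
    ∫⁻ x in A, volume (Metric.closedBall x r \ A) ≤
      volume (Metric.closedBall (0 : Sp d) r) * (ENNReal.ofReal r * perimeter A) := by
  have h1 : ∀ x : Sp d, volume (Metric.closedBall x r \ A) =
      volume.restrict (Metric.closedBall (0 : Sp d) r) {v | x + v ∉ A} := by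
    intro x
    have hm : MeasurableSet {v : Sp d | x + v ∉ A} := (hA.preimage (measurable_const_add x)).compl
    rw [Measure.restrict_apply hm, ← measure_preimage_add volume x (Metric.closedBall x r \ A)]
    congr 1
    ext v
    simp [dist_eq_norm, and_comm]
  have hS : MeasurableSet {p : Sp d × Sp d | p.1 + p.2 ∉ A} :=
    (hA.preimage (measurable_fst.add measurable_snd)).compl
  calc ∫⁻ x in A, volume (Metric.closedBall x r \ A)
      = ∫⁻ x in A, volume.restrict (Metric.closedBall (0 : Sp d) r) (Prod.mk x ⁻¹'
          {p : Sp d × Sp d | p.1 + p.2 ∉ A}) := by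
        refine lintegral_congr fun x => ?_
        rw [h1]
        rfl
    _ = ((volume.restrict A).prod (volume.restrict (Metric.closedBall (0 : Sp d) r)))
          {p : Sp d × Sp d | p.1 + p.2 ∉ A} := (Measure.prod_apply hS).symm
    _ = ∫⁻ v in Metric.closedBall (0 : Sp d) r, volume.restrict A ((fun x => (x, v)) ⁻¹'
          {p : Sp d × Sp d | p.1 + p.2 ∉ A}) := Measure.prod_apply_symm hS
    _ ≤ ∫⁻ v in Metric.closedBall (0 : Sp d) r, ENNReal.ofReal r * perimeter A := by
        refine setLIntegral_mono measurable_const fun v hv => ?_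
        have hm : MeasurableSet ((fun x => (x, v)) ⁻¹' {p : Sp d × Sp d | p.1 + p.2 ∉ A}) :=
          (hA.preimage (measurable_add_const v)).compl
        rw [Measure.restrict_apply hm]
        have : ((fun x => (x, v)) ⁻¹' {p : Sp d × Sp d | p.1 + p.2 ∉ A} ∩ A) =
            {x | x ∈ A ∧ x + v ∉ A} := by
          ext x
          simp [and_comm]
        rw [this]
        refine (volume_translate_diff_le hA hAv v).trans ?_
        gcongr
        simpa using hv
    _ = volume (Metric.closedBall (0 : Sp d) r) * (ENNReal.ofReal r * perimeter A) := by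
        rw [setLIntegral_const, mul_comm]

/-- Isoperimetric type lower bound: sets with `P(A) ≤ c |A|` have volume bounded below. -/
theorem volume_lower_bound {A : Set (Sp d)} (hA : MeasurableSet A) (hAv : volume A ≠ ∞)
    (hA0 : volume A ≠ 0) {c : ℝ} (hc : 0 < c) (hP : perimeter A ≤ ENNReal.ofReal c * volume A) :
    volume (Metric.closedBall (0 : Sp d) (1 / (2 * c))) ≤ 2 * volume A := by
  set r : ℝ := 1 / (2 * c) with hr
  have hr0 : 0 < r := by positivity
  set b := volume (Metric.closedBall (0 : Sp d) r) with hb
  have hbt : b ≠ ∞ := measure_closedBall_lt_top.ne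
  have h1 := lintegral_closedBall_diff_le hA hAv r
  have h2 : (b - volume A) * volume A ≤ ∫⁻ x in A, volume (Metric.closedBall x r \ A) := by
    rw [← setLIntegral_const]
    refine setLIntegral_mono' hA fun x _ => ?_
    have : b = volume (Metric.closedBall x r) := by
      rw [hb]
      exact (Measure.addHaar_closedBall_center volume x r).symm
    rw [this]
    exact le_measure_sdiff
  have h3 : b * (ENNReal.ofReal r * perimeter A) ≤ (b / 2) * volume A := by
    calc b * (ENNReal.ofReal r * perimeter A)
        ≤ b * (ENNReal.ofReal r * (ENNReal.ofReal c * volume A)) := by gcongr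
      _ = b * (ENNReal.ofReal (r * c)) * volume A := by
          rw [ENNReal.ofReal_mul hr0.le]
          ring
      _ = (b / 2) * volume A := by
          have : r * c = 1 / 2 := by
            rw [hr]
            field_simp
          rw [this, one_div, ENNReal.ofReal_inv_of_pos (by norm_num)]
          simp [ENNReal.div_eq_inv_mul, mul_comm]
  have h4 : (b - volume A) * volume A ≤ (b / 2) * volume A := h2.trans (h1.trans h3)
  have h5 : b - volume A ≤ b / 2 := (ENNReal.mul_le_mul_iff_left hA0 hAv).1 h4
  have h6 : b ≤ b / 2 + volume A := tsub_le_iff_right.1 h5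
  have h7 : b / 2 + b / 2 ≤ b / 2 + volume A := by
    rwa [ENNReal.add_halves]
  have h8 : b / 2 ≤ volume A :=
    (ENNReal.add_le_add_iff_left (ne_top_of_le_ne_top hbt ENNReal.half_le_self)).1 h7
  calc b = b / 2 + b / 2 := (ENNReal.add_halves b).symm
    _ ≤ volume A + volume A := by gcongr
    _ = 2 * volume A := (two_mul _).symm

end MP_fd31a8_an
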