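import Pool.Agent.Lib.MP_fd31a8_an.Defs

/-! # The profile data and the domain `Ω = {∑ g(xᵢ) < 1}` (definitions only) -/

open MeasureTheory Set Filter
open scoped ENNReal NNReal Topology

namespace MP_fd31a8_an

variable {d : ℕ}

/-- The data: an odd nondecreasing `α`-Hölder staircase `c` with `0 ≤ c(t) ≤ t`, constant on
`[q, ∞)`, and the amplitude `A`. -/
structure Profile (α : ℝ) where
  c : ℝ → ℝ
  A : ℝ
  L : ℝ
  q : ℝ
  A_pos : 0 < A
  L_nonneg : 0 ≤ L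
  q_pos : 0 < q
  odd : ∀ t, c (-t) = - c t
  mono : Monotone c
  holder : ∀ s t, |c s - c t| ≤ L * |s - t| ^ α
  le_self : ∀ t, 0 ≤ t → c t ≤ t
  const : ∀ t, q ≤ t → c t = c q
  gq_lt : (1 + A) * q ^ 2 - 2 * A * (∫ s in (0:ℝ)..q, c s) < 1

namespace Profile

variable {α : ℝ} (P : Profile α)

/-- `g(t) = (1+A) t² - 2A ∫₀ᵗ c`. -/
noncomputable def g (t : ℝ) : ℝ := (1 + P.A) * t ^ 2 - 2 * P.A * ∫ s in (0:ℝ)..t, P.c s

/-- the derivative of `g`. -/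
noncomputable def g' (t : ℝ) : ℝ := 2 * (1 + P.A) * t - 2 * P.A * P.c t

/-- `G(x) = ∑ g(xᵢ)`. -/
noncomputable def G (x : Sp d) : ℝ := ∑ i, P.g (x i)

/-- the domain `Ω = {G < 1}`. -/
def Omega (d : ℕ) : Set (Sp d) := {x | P.G x < 1}

/-- the set where `c` is not locally constant. -/
def K : Set ℝ := {t | ¬ ∀ᶠ s in 𝓝 t, P.c s = P.c t}

end Profile

end MP_fd31a8_an
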