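import Mathlib
import Pool.Agent.Lib.MP_fd31a8_an.Profile

/-!
# Steklov averages of the staircase (one-dimensional facts)
-/

open MeasureTheory Set Filter Metric
open scoped ENNReal NNReal Topology

namespace MP_fd31a8_an

namespace Profile

variable {α : ℝ} (P : Profile α)

lemma cont_c (hα : 0 < α) : Continuous P.c := by
  rw [continuous_iff_continuousAt]
  intro t
  rw [ContinuousAt, tendsto_iff_dist_tendsto_zero]
  have h1 : Tendsto (fun s : ℝ => P.L * |s - t| ^ α) (𝓝 t) (𝓝 0) := by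
    have h2 : Continuous fun s : ℝ => P.L * |s - t| ^ α := by
      refine continuous_const.mul ?_
      exact (continuous_abs.comp (continuous_id.sub continuous_const)).rpow_const
        fun _ => Or.inr hα.le
    have h3 := h2.tendsto t
    simpa [Real.zero_rpow hα.ne'] using h3
  refine squeeze_zero (fun _ => dist_nonneg) (fun s => ?_) h1
  rw [Real.dist_eq]
  exact P.holder s t

lemma c_zero : P.c 0 = 0 := by
  have := P.odd 0
  rw [neg_zero] at this
  linarith

lemma c_nonneg {t : ℝ} (ht : 0 ≤ t) : 0 ≤ P.c t := by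
  have := P.mono ht
  rwa [P.c_zero] at this

lemma ii (a b : ℝ) : IntervalIntegrable P.c volume a b := P.mono.intervalIntegrable

/-! ### facts on `g` -/

lemma hasDerivAt_g' (hα : 0 < α) (t : ℝ) : HasDerivAt P.g (P.g' t) t := by
  have h1 : HasDerivAt (fun t => ∫ s in (0:ℝ)..t, P.c s) (P.c t) t :=
    intervalIntegral.integral_hasDerivAt_right (P.ii 0 t)
      ((P.cont_c hα).stronglyMeasurableAtFilter _ _) (P.cont_c hα).continuousAt
  have h2 : HasDerivAt (fun t : ℝ => (1 + P.A) * t ^ 2) ((1 + P.A) * (2 * t)) t := by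
    have := (hasDerivAt_pow 2 t).const_mul (1 + P.A)
    simpa using this
  have h3 := h2.sub (h1.const_mul (2 * P.A))
  unfold g g'
  refine h3.congr_deriv ?_
  ring

lemma g_even (t : ℝ) : P.g (-t) = P.g t := by
  unfold g
  have h1 : ∫ s in (0:ℝ)..(-t), P.c s = ∫ s in (0:ℝ)..t, P.c s := by
    have h2 : ∫ s in (0:ℝ)..t, P.c (-s) = ∫ s in (-t)..(-0), P.c s :=
      intervalIntegral.integral_comp_neg P.c
    have h3 : ∫ s in (0:ℝ)..t, P.c (-s) = - ∫ s in (0:ℝ)..t, P.c s := by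
      rw [← intervalIntegral.integral_neg]
      refine intervalIntegral.integral_congr fun s _ => P.odd s
    rw [neg_zero] at h2
    rw [intervalIntegral.integral_symm, ← h2, h3, neg_neg]
  rw [h1]
  ring

lemma g'_odd (t : ℝ) : P.g' (-t) = - P.g' t := by
  unfold g'
  rw [P.odd]
  ring

lemma two_mul_le_g' {t : ℝ} (ht : 0 ≤ t) : 2 * t ≤ P.g' t := by
  unfold g'
  have h1 := P.le_self t ht
  have h2 := P.A_pos
  nlinarith

lemma g'_le {t : ℝ} (ht : 0 ≤ t) : P.g' t ≤ 2 * (1 + P.A) * t := by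
  unfold g'
  have h1 := P.c_nonneg ht
  have h2 := P.A_pos
  nlinarith

lemma abs_g'_le (t : ℝ) : |P.g' t| ≤ 2 * (1 + P.A) * |t| := by
  have hA := P.A_pos
  rcases le_total 0 t with h | h
  · rw [abs_of_nonneg ((by positivity : (0 : ℝ) ≤ 2 * t).trans (P.two_mul_le_g' h)),
      abs_of_nonneg h]
    exact P.g'_le h
  · have h' : 0 ≤ -t := by linarith
    have h1 : P.g' t = - P.g' (-t) := by rw [P.g'_odd, neg_neg]
    rw [h1, abs_neg, abs_of_nonneg ((by positivity : (0 : ℝ) ≤ 2 * (-t)).trans (P.two_mul_le_g' h')),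
      abs_of_nonpos h]
    exact P.g'_le h'

lemma g_zero : P.g 0 = 0 := by simp [g]

lemma g_sub_le (hα : 0 < α) {a s t : ℝ} (ha : 0 ≤ a) (has : a ≤ s) (hst : s ≤ t) :
    2 * a * (t - s) ≤ P.g t - P.g s := by
  have hcont : ContinuousOn P.g (Icc s t) :=
    fun x _ => (P.hasDerivAt_g' hα x).continuousAt.continuousWithinAt
  rcases hst.eq_or_lt with h | h
  · rw [h]; simp
  · obtain ⟨x, hx, hxe⟩ := exists_hasDerivAt_eq_slope P.g P.g' h hcont
      (fun x _ => P.hasDerivAt_g' hα x)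
    have h1 : P.g t - P.g s = P.g' x * (t - s) := by
      rw [hxe]
      field_simp [sub_ne_zero.2 h.ne']
    rw [h1]
    have h2 := P.two_mul_le_g' (t := x) (by linarith [hx.1])
    have h3 : 2 * a ≤ P.g' x := by linarith [hx.1]
    exact mul_le_mul_of_nonneg_right h3 (by linarith)

lemma g_mono (hα : 0 < α) {s t : ℝ} (hs : 0 ≤ s) (hst : s ≤ t) : P.g s ≤ P.g t := by
  have := P.g_sub_le hα le_rfl hs hst
  linarith

lemma g_abs (t : ℝ) : P.g |t| = P.g t := by
  rcases abs_choice t with h | h <;> rw [h]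
  exact P.g_even t

lemma sq_le_g (hα : 0 < α) (t : ℝ) : t ^ 2 ≤ P.g t := by
  -- `g t - t^2` is nondecreasing on `[0,∞)`
  rw [← P.g_abs, ← sq_abs]
  set a := |t|
  have ha : 0 ≤ a := abs_nonneg t
  have h1 : MonotoneOn (fun s => P.g s - s ^ 2) (Ici 0) := by
    refine monotoneOn_of_deriv_nonneg (convex_Ici 0) ?_ ?_ ?_
    · exact fun x _ => ((P.hasDerivAt_g' hα x).sub (hasDerivAt_pow 2 x)).continuousAt.continuousWithinAt
    · exact fun x _ => ((P.hasDerivAt_g' hα x).sub
        (hasDerivAt_pow 2 x)).differentiableAt.differentiableWithinAt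
    · intro x hx
      rw [interior_Ici] at hx
      have h2 : deriv (fun s => P.g s - s ^ 2) x = P.g' x - 2 * x := by
        have h3 : HasDerivAt (fun s => P.g s - s ^ 2) (P.g' x - 2 * x) x :=
          ((P.hasDerivAt_g' hα x).sub (hasDerivAt_pow 2 x)).congr_deriv (by simp)
        exact h3.deriv
      rw [h2]
      have := P.two_mul_le_g' (le_of_lt hx)
      linarith
  have h2 := h1 (mem_Ici.2 (le_refl (0 : ℝ))) (mem_Ici.2 ha) ha
  simp only [P.g_zero] at h2
  linarith

lemma g_le (t : ℝ) : P.g t ≤ (1 + P.A) * t ^ 2 := by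
  rw [← P.g_abs, ← sq_abs]
  set a := |t|
  have ha : 0 ≤ a := abs_nonneg t
  unfold g
  have h1 : 0 ≤ ∫ s in (0:ℝ)..a, P.c s :=
    intervalIntegral.integral_nonneg ha fun s hs => P.c_nonneg hs.1
  have := P.A_pos
  nlinarith

lemma abs_g_sub_le (hα : 0 < α) {s t : ℝ} (hs : |s| ≤ 2) (ht : |t| ≤ 2) :
    |P.g s - P.g t| ≤ 4 * (1 + P.A) * |s - t| := by
  have hA := P.A_pos
  have h := (convex_Icc (-2 : ℝ) 2).norm_image_sub_le_of_norm_hasDerivWithin_le
    (f := P.g) (f' := P.g') (C := 4 * (1 + P.A)) (fun x _ => (P.hasDerivAt_g' hα x).hasDerivWithinAt)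
    (fun x hx => by
      have h1 := P.abs_g'_le x
      have h2 : |x| ≤ 2 := abs_le.2 hx
      rw [Real.norm_eq_abs]
      nlinarith [abs_nonneg x]) (abs_le.1 ht) (abs_le.1 hs)
  simpa [Real.norm_eq_abs] using h

/-- the measure of the sections of the level slabs. -/
lemma volume_section_le (hα : 0 < α) {b : ℝ} (hb : 0 < b) (κ : ℝ) {τ : ℝ} :
    volume {s : ℝ | b ≤ |s| ∧ |P.g s - κ| ≤ τ} ≤ ENNReal.ofReal (2 * (τ / b)) := by
  rcases lt_or_ge τ 0 with hτ | hτ
  · have : {s : ℝ | b ≤ |s| ∧ |P.g s - κ| ≤ τ} = ∅ := by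
      ext s
      simp only [mem_ofPred_eq, mem_empty_iff_false, iff_false, not_and]
      intro _ h
      linarith [abs_nonneg (P.g s - κ)]
    rw [this]
    simp
  have key : ∀ s t : ℝ, b ≤ s → b ≤ t → |P.g s - κ| ≤ τ → |P.g t - κ| ≤ τ → |s - t| ≤ τ / b := by
    intro s t hs ht h1 h2
    wlog hst : t ≤ s generalizing s t
    · rw [abs_sub_comm]
      exact this t s ht hs h2 h1 (le_of_not_ge hst)
    rw [abs_of_nonneg (by linarith)]
    have h3 := P.g_sub_le hα hb.le ht hst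
    have h4 := abs_le.1 h1
    have h5 := abs_le.1 h2
    rw [le_div_iff₀ hb]
    nlinarith
  have hpos : volume {s : ℝ | b ≤ s ∧ |P.g s - κ| ≤ τ} ≤ ENNReal.ofReal (τ / b) := by
    refine (Real.volume_le_diam _).trans ?_
    refine Metric.ediam_le fun s hs t ht => ?_
    rw [edist_dist, Real.dist_eq]
    exact ENNReal.ofReal_le_ofReal (key s t hs.1 ht.1 hs.2 ht.2)
  have hneg : volume {s : ℝ | b ≤ -s ∧ |P.g s - κ| ≤ τ} ≤ ENNReal.ofReal (τ / b) := by
    refine (Real.volume_le_diam _).trans ?_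
    refine Metric.ediam_le fun s hs t ht => ?_
    rw [edist_dist, Real.dist_eq]
    refine ENNReal.ofReal_le_ofReal ?_
    have h1 : |P.g (-s) - κ| ≤ τ := by rw [P.g_even]; exact hs.2
    have h2 : |P.g (-t) - κ| ≤ τ := by rw [P.g_even]; exact ht.2
    have := key (-s) (-t) hs.1 ht.1 h1 h2
    rwa [← abs_neg, show -(-s - -t) = s - t by ring] at this
  have hsub : {s : ℝ | b ≤ |s| ∧ |P.g s - κ| ≤ τ}
      ⊆ {s : ℝ | b ≤ s ∧ |P.g s - κ| ≤ τ} ∪ {s : ℝ | b ≤ -s ∧ |P.g s - κ| ≤ τ} := by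
    rintro s ⟨h1, h2⟩
    rcases abs_choice s with h | h
    · left; exact ⟨by rwa [h] at h1, h2⟩
    · right; exact ⟨by rwa [h] at h1, h2⟩
  calc volume {s : ℝ | b ≤ |s| ∧ |P.g s - κ| ≤ τ}
      ≤ volume ({s : ℝ | b ≤ s ∧ |P.g s - κ| ≤ τ} ∪ {s : ℝ | b ≤ -s ∧ |P.g s - κ| ≤ τ}) :=
        measure_mono hsub
    _ ≤ ENNReal.ofReal (τ / b) + ENNReal.ofReal (τ / b) :=
        (measure_union_le _ _).trans (add_le_add hpos hneg)
    _ = ENNReal.ofReal (2 * (τ / b)) := by
        rw [← ENNReal.ofReal_add (by positivity) (by positivity)]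
        congr 1
        ring

/-! ### the Steklov average -/

/-- the average of `c` over `[t, t+e]`. -/
noncomputable def ce (e t : ℝ) : ℝ := e⁻¹ * ∫ s in t..(t + e), P.c s

/-- its derivative. -/
noncomputable def ce' (e t : ℝ) : ℝ := e⁻¹ * (P.c (t + e) - P.c t)

lemma hasDerivAt_ce (hα : 0 < α) (e t : ℝ) : HasDerivAt (P.ce e) (P.ce' e t) t := by
  have hF : ∀ x, HasDerivAt (fun t => ∫ s in (0:ℝ)..t, P.c s) (P.c x) x := fun x =>
    intervalIntegral.integral_hasDerivAt_right (P.ii 0 x)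
      ((P.cont_c hα).stronglyMeasurableAtFilter _ _) (P.cont_c hα).continuousAt
  have h1 : (P.ce e) = fun t => e⁻¹ * ((∫ s in (0:ℝ)..(t + e), P.c s) - ∫ s in (0:ℝ)..t, P.c s) := by
    funext t
    unfold ce
    rw [intervalIntegral.integral_interval_sub_left (P.ii _ _) (P.ii _ _)]
  rw [h1]
  have h2 : HasDerivAt (fun t => ∫ s in (0:ℝ)..(t + e), P.c s) (P.c (t + e)) t := by
    have := (hF (t + e)).comp_add_const t e
    exact this
  exact (h2.sub (hF t)).const_mul e⁻¹

lemma cont_ce' (hα : 0 < α) (e : ℝ) : Continuous (P.ce' e) := by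
  unfold ce'
  have := P.cont_c hα
  fun_prop

lemma ce'_nonneg {e : ℝ} (he : 0 < e) (t : ℝ) : 0 ≤ P.ce' e t :=
  mul_nonneg (inv_nonneg.2 he.le) (sub_nonneg.2 (P.mono (by linarith)))

lemma ce'_eq_zero {e t : ℝ} (he : 0 < e) (h : P.q + e ≤ |t|) : P.ce' e t = 0 := by
  unfold ce'
  rcases le_or_gt 0 t with h0 | h0
  · rw [abs_of_nonneg h0] at h
    rw [P.const t (by linarith), P.const (t + e) (by linarith)]
    simp
  · rw [abs_of_neg h0] at h
    have h1 : P.c t = - P.c (-t) := by rw [P.odd, neg_neg]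
    have h2 : P.c (t + e) = - P.c (-(t + e)) := by rw [P.odd, neg_neg]
    rw [h1, h2, P.const (-t) (by linarith), P.const (-(t + e)) (by linarith)]
    simp

lemma abs_ce_sub_le (hα : 0 < α) {e : ℝ} (he : 0 < e) (t : ℝ) :
    |P.ce e t - P.c t| ≤ P.L * e ^ α := by
  have h1 : P.ce e t - P.c t = e⁻¹ * ∫ s in t..(t + e), (P.c s - P.c t) := by
    unfold ce
    rw [intervalIntegral.integral_sub (P.ii _ _) (by simp), intervalIntegral.integral_const]
    simp only [smul_eq_mul]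
    field_simp
    ring
  rw [h1, abs_mul, abs_of_nonneg (inv_nonneg.2 he.le)]
  have h2 : ‖∫ s in t..(t + e), (P.c s - P.c t)‖ ≤ (P.L * e ^ α) * |t + e - t| := by
    refine intervalIntegral.norm_integral_le_of_norm_le_const fun s hs => ?_
    rw [uIoc_of_le (by linarith)] at hs
    rw [Real.norm_eq_abs]
    refine (P.holder s t).trans ?_
    refine mul_le_mul_of_nonneg_left ?_ P.L_nonneg
    refine Real.rpow_le_rpow (abs_nonneg _) ?_ hα.le
    rw [abs_of_nonneg (by linarith [hs.1])]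
    linarith [hs.2]
  rw [Real.norm_eq_abs, show t + e - t = e by ring, abs_of_pos he] at h2
  calc e⁻¹ * |∫ s in t..(t + e), (P.c s - P.c t)| ≤ e⁻¹ * (P.L * e ^ α * e) :=
        mul_le_mul_of_nonneg_left h2 (inv_nonneg.2 he.le)
    _ = P.L * e ^ α := by field_simp

lemma ce_sub_le (hα : 0 < α) {e a b : ℝ} (he : 0 < e) (hab : a ≤ b) :
    P.ce e b - P.ce e a ≤ P.L * (b - a) ^ α := by
  have h1 : P.ce e b - P.ce e a = e⁻¹ * ∫ s in (0:ℝ)..e, (P.c (b + s) - P.c (a + s)) := by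
    unfold ce
    have hc := P.cont_c hα
    rw [intervalIntegral.integral_sub]
    · have h2 : ∫ s in (0:ℝ)..e, P.c (b + s) = ∫ s in b..(b + e), P.c s := by
        rw [intervalIntegral.integral_comp_add_left (f := P.c) b]; simp
      have h3 : ∫ s in (0:ℝ)..e, P.c (a + s) = ∫ s in a..(a + e), P.c s := by
        rw [intervalIntegral.integral_comp_add_left (f := P.c) a]; simp
      rw [h2, h3]
      ring
    · exact (by fun_prop : Continuous fun s => P.c (b + s)).intervalIntegrable _ _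
    · exact (by fun_prop : Continuous fun s => P.c (a + s)).intervalIntegrable _ _
  have h2 : ‖∫ s in (0:ℝ)..e, (P.c (b + s) - P.c (a + s))‖ ≤ (P.L * (b - a) ^ α) * |e - 0| := by
    refine intervalIntegral.norm_integral_le_of_norm_le_const fun s _ => ?_
    rw [Real.norm_eq_abs]
    refine (P.holder _ _).trans (le_of_eq ?_)
    rw [show b + s - (a + s) = b - a by ring, abs_of_nonneg (by linarith)]
  rw [Real.norm_eq_abs, sub_zero, abs_of_pos he] at h2
  rw [h1]
  calc e⁻¹ * ∫ s in (0:ℝ)..e, (P.c (b + s) - P.c (a + s)) ≤ e⁻¹ * (P.L * (b - a) ^ α * e) :=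
        mul_le_mul_of_nonneg_left ((le_abs_self _).trans h2) (inv_nonneg.2 he.le)
    _ = P.L * (b - a) ^ α := by field_simp

lemma lintegral_ce'_le (hα : 0 < α) {e a b : ℝ} (he : 0 < e) (hab : a ≤ b) :
    ∫⁻ t in Icc a b, ENNReal.ofReal (P.ce' e t) ≤ ENNReal.ofReal (P.L * (b - a) ^ α) := by
  have h1 : IntegrableOn (P.ce' e) (Icc a b) :=
    (P.cont_ce' hα e).continuousOn.integrableOn_compact isCompact_Icc
  rw [← ofReal_integral_eq_lintegral_ofReal h1
    (Eventually.of_forall fun t => P.ce'_nonneg he t)]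
  refine ENNReal.ofReal_le_ofReal ?_
  rw [integral_Icc_eq_integral_Ioc, ← intervalIntegral.integral_of_le hab,
    intervalIntegral.integral_eq_sub_of_hasDerivAt (fun t _ => P.hasDerivAt_ce hα e t)
      ((P.cont_ce' hα e).intervalIntegrable _ _)]
  exact P.ce_sub_le hα he hab

end Profile

end MP_fd31a8_an
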