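import Mathlib
import Pool.Agent.Lib.MP_fd31a8_an.LowerA

/-!
# Slab estimates (Fubini)
-/

open MeasureTheory Set Filter Metric
open scoped ENNReal NNReal Topology

namespace MP_fd31a8_an

lemma lintegral_insertNth {n : ℕ} (i : Fin (n + 1)) {F : (Fin (n + 1) → ℝ) → ℝ≥0∞}
    (hF : Measurable F) :
    ∫⁻ x, F x = ∫⁻ w : Fin n → ℝ, ∫⁻ s : ℝ, F (i.insertNth s w) := by
  have hmp := volume_preserving_piFinSuccAbove (fun _ : Fin (n + 1) => ℝ) i
  have h1 := hmp.symm.lintegral_comp_emb (MeasurableEquiv.measurableEmbedding _) F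
  rw [← h1]
  have hF' : Measurable fun z : ℝ × (Fin n → ℝ) =>
      F ((MeasurableEquiv.piFinSuccAbove (fun _ : Fin (n + 1) => ℝ) i).symm z) :=
    hF.comp (MeasurableEquiv.measurable _)
  have h2 := lintegral_prod_symm' (μ := (volume : Measure ℝ))
    (ν := (volume : Measure (Fin n → ℝ))) _ hF'
  exact h2

/-- integral over a box of a function of one coordinate. -/
lemma lintegral_box_le {n : ℕ} (j : Fin (n + 1)) (y : Fin (n + 1) → ℝ) {ρ : ℝ}
    {φ : ℝ → ℝ≥0∞} (hφ : Measurable φ) :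
    ∫⁻ w : Fin (n + 1) → ℝ, indicator {w | ∀ k, |w k - y k| ≤ ρ} (fun w => φ (w j)) w
      ≤ ENNReal.ofReal (2 * ρ) ^ n * ∫⁻ s in Icc (y j - ρ) (y j + ρ), φ s := by
  classical
  have hS : MeasurableSet {w : Fin (n + 1) → ℝ | ∀ k, |w k - y k| ≤ ρ} := by
    have : {w : Fin (n + 1) → ℝ | ∀ k, |w k - y k| ≤ ρ} = ⋂ k, {w | |w k - y k| ≤ ρ} := by
      ext w; simp
    rw [this]
    refine MeasurableSet.iInter fun k => ?_
    exact measurableSet_le (by fun_prop) measurable_const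
  have hF : Measurable (indicator {w : Fin (n + 1) → ℝ | ∀ k, |w k - y k| ≤ ρ}
      (fun w => φ (w j))) :=
    (hφ.comp (measurable_pi_apply j)).indicator hS
  rw [lintegral_insertNth j hF]
  set y' : Fin n → ℝ := fun k => y (j.succAbove k) with hy'
  have hpt : ∀ (w : Fin n → ℝ) (s : ℝ),
      indicator {w : Fin (n + 1) → ℝ | ∀ k, |w k - y k| ≤ ρ} (fun w => φ (w j))
        (j.insertNth s w)
      = indicator (Icc (y' - fun _ => ρ) (y' + fun _ => ρ)) (fun _ => (1 : ℝ≥0∞)) w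
        * indicator (Icc (y j - ρ) (y j + ρ)) φ s := by
    intro w s
    have h1 : (j.insertNth s w ∈ {w : Fin (n + 1) → ℝ | ∀ k, |w k - y k| ≤ ρ})
        ↔ (w ∈ Icc (y' - fun _ => ρ) (y' + fun _ => ρ) ∧ s ∈ Icc (y j - ρ) (y j + ρ)) := by
      have h2 : (∀ k, |(j.insertNth s w : Fin (n + 1) → ℝ) k - y k| ≤ ρ)
          ↔ |s - y j| ≤ ρ ∧ ∀ k, |w k - y (j.succAbove k)| ≤ ρ := by
        rw [Fin.forall_iff_succAbove j]
        simp
      show (∀ k, |(j.insertNth s w : Fin (n + 1) → ℝ) k - y k| ≤ ρ) ↔ _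
      rw [h2, and_comm]
      refine and_congr ?_ ?_
      · simp only [mem_Icc, Pi.le_def, Pi.sub_apply, Pi.add_apply, hy']
        constructor
        · intro h
          exact ⟨fun k => by have := abs_le.1 (h k); linarith [this.1],
            fun k => by have := abs_le.1 (h k); linarith [this.2]⟩
        · rintro ⟨h3, h4⟩ k
          exact abs_le.2 ⟨by linarith [h3 k], by linarith [h4 k]⟩
      · rw [abs_le, mem_Icc]
        constructor
        · rintro ⟨a, b⟩; constructor <;> linarith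
        · rintro ⟨a, b⟩; constructor <;> linarith
    by_cases hc : w ∈ Icc (y' - fun _ => ρ) (y' + fun _ => ρ) ∧ s ∈ Icc (y j - ρ) (y j + ρ)
    · rw [indicator_of_mem (h1.2 hc), indicator_of_mem hc.1, indicator_of_mem hc.2]
      simp
    · rw [indicator_of_notMem (fun h => hc (h1.1 h))]
      rcases not_and_or.1 hc with h | h
      · rw [indicator_of_notMem h, zero_mul]
      · rw [indicator_of_notMem h, mul_zero]
  simp_rw [hpt]
  have hφi : Measurable (indicator (Icc (y j - ρ) (y j + ρ)) φ) := hφ.indicator measurableSet_Icc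
  simp_rw [lintegral_const_mul _ hφi]
  rw [lintegral_mul_const _ (measurable_const.indicator measurableSet_Icc),
    lintegral_indicator measurableSet_Icc, lintegral_indicator measurableSet_Icc]
  refine mul_le_mul_left ?_ _
  rw [setLIntegral_one, Real.volume_Icc_pi]
  simp only [Pi.add_apply, Pi.sub_apply]
  have : ∀ k : Fin n, ENNReal.ofReal (y' k + ρ - (y' k - ρ)) = ENNReal.ofReal (2 * ρ) := by
    intro k; congr 1; ring
  rw [Finset.prod_congr rfl fun k _ => this k, Finset.prod_const, Finset.card_univ,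
    Fintype.card_fin]

namespace Profile

variable {α : ℝ} (P : Profile α)

lemma slab_pi (hα : 0 < α) {n : ℕ} (i j : Fin (n + 2)) (hij : j ≠ i) (y : Fin (n + 2) → ℝ)
    {ρ b τ : ℝ} (hb : 0 < b) {φ : ℝ → ℝ≥0∞} (hφ : Measurable φ) :
    ∫⁻ x : Fin (n + 2) → ℝ, indicator {x | (∀ k, |x k - y k| ≤ ρ) ∧ b ≤ |x i|
        ∧ |(∑ k, P.g (x k)) - 1| ≤ τ} (fun x => φ (x j)) x
      ≤ ENNReal.ofReal (2 * (τ / b)) * (ENNReal.ofReal (2 * ρ) ^ n
        * ∫⁻ s in Icc (y j - ρ) (y j + ρ), φ s) := by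
  classical
  have hgc : Continuous P.g := by
    rw [continuous_iff_continuousAt]
    exact fun t => (P.hasDerivAt_g' hα t).continuousAt
  have hSk : MeasurableSet {w : Fin (n + 2) → ℝ | ∀ k, |w k - y k| ≤ ρ} := by
    have : {w : Fin (n + 2) → ℝ | ∀ k, |w k - y k| ≤ ρ} = ⋂ k, {w | |w k - y k| ≤ ρ} := by
      ext w; simp
    rw [this]
    refine MeasurableSet.iInter fun k => ?_
    exact measurableSet_le (by fun_prop) measurable_const
  have hS : MeasurableSet {x : Fin (n + 2) → ℝ | (∀ k, |x k - y k| ≤ ρ) ∧ b ≤ |x i|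
        ∧ |(∑ k, P.g (x k)) - 1| ≤ τ} := by
    have hmi : Measurable fun x : Fin (n + 2) → ℝ => |x i| :=
      continuous_abs.measurable.comp (measurable_pi_apply i)
    have h0 : Continuous fun x : Fin (n + 2) → ℝ => |(∑ k, P.g (x k)) - 1| := by fun_prop
    have h1 : MeasurableSet {x : Fin (n + 2) → ℝ | b ≤ |x i|} := measurableSet_le measurable_const hmi
    have h2 : MeasurableSet {x : Fin (n + 2) → ℝ | |(∑ k, P.g (x k)) - 1| ≤ τ} :=
      measurableSet_le h0.measurable measurable_const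
    exact hSk.inter (h1.inter h2)
  have hF : Measurable (indicator {x : Fin (n + 2) → ℝ | (∀ k, |x k - y k| ≤ ρ) ∧ b ≤ |x i|
        ∧ |(∑ k, P.g (x k)) - 1| ≤ τ} (fun x => φ (x j))) :=
    (hφ.comp (measurable_pi_apply j)).indicator hS
  rw [lintegral_insertNth i hF]
  obtain ⟨j', hj'⟩ : ∃ j', i.succAbove j' = j := Fin.exists_succAbove_eq hij
  set y' : Fin (n + 1) → ℝ := fun k => y (i.succAbove k) with hy'
  have hpt : ∀ (w : Fin (n + 1) → ℝ) (s : ℝ),
      indicator {x : Fin (n + 2) → ℝ | (∀ k, |x k - y k| ≤ ρ) ∧ b ≤ |x i|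
        ∧ |(∑ k, P.g (x k)) - 1| ≤ τ} (fun x => φ (x j)) (i.insertNth s w)
      ≤ indicator {w : Fin (n + 1) → ℝ | ∀ k, |w k - y' k| ≤ ρ} (fun w => φ (w j')) w
        * indicator {s : ℝ | b ≤ |s| ∧ |P.g s - (1 - ∑ k, P.g (w k))| ≤ τ}
          (fun _ => (1 : ℝ≥0∞)) s := by
    intro w s
    by_cases hc : i.insertNth s w ∈ {x : Fin (n + 2) → ℝ | (∀ k, |x k - y k| ≤ ρ) ∧ b ≤ |x i|
        ∧ |(∑ k, P.g (x k)) - 1| ≤ τ}
    · obtain ⟨h1, h2, h3⟩ := hc
      rw [indicator_of_mem (by exact ⟨h1, h2, h3⟩)]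
      have h4 : w ∈ {w : Fin (n + 1) → ℝ | ∀ k, |w k - y' k| ≤ ρ} := by
        intro k
        have := h1 (i.succAbove k)
        simpa using this
      have h5 : s ∈ {s : ℝ | b ≤ |s| ∧ |P.g s - (1 - ∑ k, P.g (w k))| ≤ τ} := by
        refine ⟨by simpa using h2, ?_⟩
        rw [Fin.sum_univ_succAbove _ i] at h3
        simp only [Fin.insertNth_apply_same, Fin.insertNth_apply_succAbove] at h3
        rwa [show P.g s - (1 - ∑ k, P.g (w k)) = P.g s + ∑ k, P.g (w k) - 1 by ring]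
      rw [indicator_of_mem h4, indicator_of_mem h5, mul_one, ← hj']
      simp
    · rw [indicator_of_notMem hc]
      exact zero_le
  calc ∫⁻ w : Fin (n + 1) → ℝ, ∫⁻ s : ℝ, indicator {x : Fin (n + 2) → ℝ | (∀ k, |x k - y k| ≤ ρ)
        ∧ b ≤ |x i| ∧ |(∑ k, P.g (x k)) - 1| ≤ τ} (fun x => φ (x j)) (i.insertNth s w)
      ≤ ∫⁻ w : Fin (n + 1) → ℝ,
          indicator {w : Fin (n + 1) → ℝ | ∀ k, |w k - y' k| ≤ ρ} (fun w => φ (w j')) w
          * ENNReal.ofReal (2 * (τ / b)) := by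
        refine lintegral_mono fun w => ?_
        refine (lintegral_mono fun s => hpt w s).trans ?_
        have hms : MeasurableSet {s : ℝ | b ≤ |s| ∧ |P.g s - (1 - ∑ k, P.g (w k))| ≤ τ} := by
          have h0 : Continuous fun s : ℝ => |P.g s - (1 - ∑ k, P.g (w k))| := by fun_prop
          have h1 : MeasurableSet {s : ℝ | b ≤ |s|} :=
            measurableSet_le measurable_const continuous_abs.measurable
          have h2 : MeasurableSet {s : ℝ | |P.g s - (1 - ∑ k, P.g (w k))| ≤ τ} :=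
            measurableSet_le h0.measurable measurable_const
          exact h1.inter h2
        rw [lintegral_const_mul _ (measurable_const.indicator hms), lintegral_indicator hms,
          setLIntegral_one]
        exact mul_le_mul_right (P.volume_section_le hα hb _) _
    _ = (∫⁻ w : Fin (n + 1) → ℝ,
          indicator {w : Fin (n + 1) → ℝ | ∀ k, |w k - y' k| ≤ ρ} (fun w => φ (w j')) w)
          * ENNReal.ofReal (2 * (τ / b)) := by
        refine lintegral_mul_const _ ?_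
        refine (hφ.comp (measurable_pi_apply j')).indicator ?_
        have : {w : Fin (n + 1) → ℝ | ∀ k, |w k - y' k| ≤ ρ} = ⋂ k, {w | |w k - y' k| ≤ ρ} := by
          ext w; simp
        rw [this]
        refine MeasurableSet.iInter fun k => ?_
        exact measurableSet_le (by fun_prop) measurable_const
    _ ≤ (ENNReal.ofReal (2 * ρ) ^ n * ∫⁻ s in Icc (y' j' - ρ) (y' j' + ρ), φ s)
          * ENNReal.ofReal (2 * (τ / b)) := by
        exact mul_le_mul_left (lintegral_box_le j' y' hφ) _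
    _ = ENNReal.ofReal (2 * (τ / b)) * (ENNReal.ofReal (2 * ρ) ^ n
        * ∫⁻ s in Icc (y j - ρ) (y j + ρ), φ s) := by
        rw [hy', mul_comm]
        simp only [hj']

/-- **Slab estimate** in Euclidean space. -/
lemma slab (hα : 0 < α) {n : ℕ} (i j : Fin (n + 2)) (hij : j ≠ i) (y : Sp (n + 2))
    {ρ b τ : ℝ} (hb : 0 < b) {φ : ℝ → ℝ≥0∞} (hφ : Measurable φ) :
    ∫⁻ x in {x : Sp (n + 2) | x ∈ closedBall y ρ ∧ b ≤ |x i| ∧ |P.G x - 1| ≤ τ}, φ (x j)
      ≤ ENNReal.ofReal (2 * (τ / b)) * (ENNReal.ofReal (2 * ρ) ^ n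
        * ∫⁻ s in Icc (y j - ρ) (y j + ρ), φ s) := by
  classical
  refine le_trans ?_ (P.slab_pi hα i j hij (fun k => y k) hb hφ)
  have hgc : Continuous P.g := by
    rw [continuous_iff_continuousAt]
    exact fun t => (P.hasDerivAt_g' hα t).continuousAt
  have hGc : Continuous (fun x : Sp (n + 2) => P.G x) := by
    unfold G
    fun_prop
  have hS : MeasurableSet {x : Sp (n + 2) | x ∈ closedBall y ρ ∧ b ≤ |x i| ∧ |P.G x - 1| ≤ τ} := by
    have hmi : Measurable fun x : Sp (n + 2) => |x i| := by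
      have : Continuous fun x : Sp (n + 2) => |x i| := by fun_prop
      exact this.measurable
    have h0 : Continuous fun x : Sp (n + 2) => |P.G x - 1| := by fun_prop
    have h1 : MeasurableSet {x : Sp (n + 2) | b ≤ |x i|} := measurableSet_le measurable_const hmi
    have h2 : MeasurableSet {x : Sp (n + 2) | |P.G x - 1| ≤ τ} :=
      measurableSet_le h0.measurable measurable_const
    exact isClosed_closedBall.measurableSet.inter (h1.inter h2)
  rw [← lintegral_indicator hS]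
  have hmp := PiLp.volume_preserving_ofLp (Fin (n + 2))
  set F : (Fin (n + 2) → ℝ) → ℝ≥0∞ := indicator {x | (∀ k, |x k - y k| ≤ ρ) ∧ b ≤ |x i|
        ∧ |(∑ k, P.g (x k)) - 1| ≤ τ} (fun x => φ (x j)) with hF
  have h1 : ∫⁻ x : Sp (n + 2), F (WithLp.ofLp x) = ∫⁻ x, F x :=
    hmp.lintegral_comp_emb (MeasurableEquiv.toLp 2 (Fin (n + 2) → ℝ)).symm.measurableEmbedding F
  rw [← h1]
  refine lintegral_mono fun x => ?_
  by_cases hx : x ∈ {x : Sp (n + 2) | x ∈ closedBall y ρ ∧ b ≤ |x i| ∧ |P.G x - 1| ≤ τ}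
  · rw [indicator_of_mem hx, hF]
    have hx' : WithLp.ofLp x ∈ {x : Fin (n + 2) → ℝ | (∀ k, |x k - y k| ≤ ρ) ∧ b ≤ |x i|
        ∧ |(∑ k, P.g (x k)) - 1| ≤ τ} := by
      refine ⟨fun k => ?_, hx.2.1, hx.2.2⟩
      have h2 : dist x y ≤ ρ := hx.1
      rw [dist_eq_norm] at h2
      have h3 := PiLp.norm_apply_le (x - y) k
      exact le_trans (by simpa using h3) h2
    rw [indicator_of_mem hx']
  · rw [indicator_of_notMem hx]
    exact zero_le

end Profile

end MP_fd31a8_an
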