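import Pool.Agent.Lib.MP_fd31a8_an.Basic

/-! # The translation estimate -/

open MeasureTheory Set Filter
open scoped ENNReal NNReal Topology

namespace MP_fd31a8_an

variable {d : ℕ}

lemma abs_integral_fderiv_le {ψ : Sp d → ℝ} (h1 : ContDiff ℝ 1 ψ) (h2 : HasCompactSupport ψ)
    (h3 : ∀ x, |ψ x| ≤ 1) {A : Set (Sp d)} (hA : perimeter A ≠ ∞) (v : Sp d) :
    |∫ x in A, fderiv ℝ ψ x v| ≤ ‖v‖ * (perimeter A).toReal := by
  rcases eq_or_ne v 0 with rfl | hv
  · simp
  have hv' : 0 < ‖v‖ := norm_pos_iff.2 hv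
  have hmem : (fun x => ψ x • (‖v‖⁻¹ • v)) ∈ TestField d := by
    refine ⟨h1.smul contDiff_const, h2.smul_right, fun x => ?_⟩
    rw [norm_smul, norm_smul, norm_inv, norm_norm, inv_mul_cancel₀ hv'.ne', mul_one]
    exact h3 x
  have hd : ∀ x, fderiv ℝ ψ x v = ‖v‖ * divg (fun x => ψ x • (‖v‖⁻¹ • v)) x := by
    intro x
    rw [divg_smul (h1.differentiable one_ne_zero x) (differentiableAt_const _)]
    have : divg (fun _ : Sp d => ‖v‖⁻¹ • v) x = 0 := by simp [divg_eq]
    rw [this, mul_zero, zero_add, map_smul, smul_eq_mul, ← mul_assoc, mul_inv_cancel₀ hv'.ne',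
      one_mul]
  simp_rw [hd]
  rw [integral_const_mul, abs_mul, abs_of_pos hv']
  exact mul_le_mul_of_nonneg_left (abs_integral_le_perimeter hmem hA) hv'.le

lemma integral_sub_translate_le {ψ : Sp d → ℝ} (h1 : ContDiff ℝ 1 ψ) (h2 : HasCompactSupport ψ)
    (h3 : ∀ x, |ψ x| ≤ 1) {A : Set (Sp d)} (hAv : volume A ≠ ∞) (hA : perimeter A ≠ ∞) (v : Sp d) :
    (∫ x in A, ψ x) - ∫ x in A, ψ (x - v) ≤ ‖v‖ * (perimeter A).toReal := by
  have : IsFiniteMeasure (volume.restrict A) := ⟨by simpa using hAv.lt_top⟩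
  obtain ⟨C, hC⟩ := (h2.fderiv ℝ).exists_bound_of_continuous (h1.continuous_fderiv one_ne_zero)
  set F : ℝ → ℝ := fun t => ∫ x in A, ψ (x - t • v) with hF
  have hder : ∀ t : ℝ, HasDerivAt F (∫ x in A, fderiv ℝ ψ (x - t • v) (-v)) t := by
    intro t
    have hcont : ∀ s : ℝ, Continuous fun x : Sp d => ψ (x - s • v) := fun s =>
      h1.continuous.comp (continuous_id.sub continuous_const)
    have hcont' : Continuous fun x : Sp d => fderiv ℝ ψ (x - t • v) (-v) :=
      ((h1.continuous_fderiv one_ne_zero).comp (continuous_id.sub continuous_const)).clm_apply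
        continuous_const
    refine (hasDerivAt_integral_of_dominated_loc_of_deriv_le (μ := volume.restrict A)
      (F := fun s x => ψ (x - s • v)) (F' := fun s x => fderiv ℝ ψ (x - s • v) (-v))
      (bound := fun _ => C * ‖v‖) (s := univ) univ_mem ?_ ?_ ?_ ?_ ?_ ?_).2
    · exact Eventually.of_forall fun s => (hcont s).aestronglyMeasurable
    · refine Integrable.mono' (g := fun _ => (1 : ℝ)) (integrable_const _)
        (hcont t).aestronglyMeasurable (Eventually.of_forall fun x => ?_)
      simpa using h3 _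
    · exact hcont'.aestronglyMeasurable
    · refine Eventually.of_forall fun x s _ => ?_
      calc ‖fderiv ℝ ψ (x - s • v) (-v)‖ ≤ ‖fderiv ℝ ψ (x - s • v)‖ * ‖-v‖ :=
            ContinuousLinearMap.le_opNorm _ _
        _ ≤ C * ‖v‖ := by
            rw [norm_neg]
            exact mul_le_mul_of_nonneg_right (hC _) (norm_nonneg _)
    · exact integrable_const _
    · refine Eventually.of_forall fun x s _ => ?_
      have e1 : HasDerivAt (fun s : ℝ => x - s • v) (-v) s := by
        have := ((hasDerivAt_id s).smul_const v).const_sub x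
        simpa using this
      have e2 : HasFDerivAt ψ (fderiv ℝ ψ (x - s • v)) (x - s • v) :=
        (h1.differentiable one_ne_zero _).hasFDerivAt
      exact e2.comp_hasDerivAt s e1
  have hbd : ∀ t : ℝ, ‖∫ x in A, fderiv ℝ ψ (x - t • v) (-v)‖ ≤ ‖v‖ * (perimeter A).toReal := by
    intro t
    have := abs_integral_fderiv_le (ψ := fun x => ψ (x - t • v)) (A := A)
      (h1.comp (contDiff_id.sub contDiff_const))
      (h2.comp_homeomorph (Homeomorph.subRight (t • v))) (fun x => h3 _) hA (-v)
    rw [norm_neg] at this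
    have e : ∀ x, fderiv ℝ (fun x => ψ (x - t • v)) x = fderiv ℝ ψ (x - t • v) := by
      intro x
      rw [fderiv_comp_sub]
    simp_rw [e] at this
    exact this
  have key := (convex_univ (𝕜 := ℝ) (E := ℝ)).norm_image_sub_le_of_norm_hasDerivWithin_le
    (f := F) (f' := fun t => ∫ x in A, fderiv ℝ ψ (x - t • v) (-v)) (C := ‖v‖ * (perimeter A).toReal)
    (fun t _ => (hder t).hasDerivWithinAt) (fun t _ => hbd t) (mem_univ (1:ℝ)) (mem_univ (0:ℝ))
  simp only [zero_sub, norm_neg, norm_one, mul_one] at key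
  have e0 : F 0 = ∫ x in A, ψ x := by simp [hF]
  have e1 : F 1 = ∫ x in A, ψ (x - v) := by simp [hF]
  rw [← e0, ← e1]
  exact (le_abs_self _).trans key

lemma exists_cutoff {K U : Set (Sp d)} (hK : IsCompact K) (hU : IsOpen U) (hKU : K ⊆ U) :
    ∃ ψ : Sp d → ℝ, ContDiff ℝ 1 ψ ∧ HasCompactSupport ψ ∧ (∀ x, 0 ≤ ψ x) ∧ (∀ x, ψ x ≤ 1) ∧
      (∀ x ∈ K, ψ x = 1) ∧ ∀ x, x ∉ U → ψ x = 0 := by
  obtain ⟨R, hR⟩ := hK.isBounded.subset_ball (0 : Sp d)
  obtain ⟨f, hf1, hf2, hf3, hf4⟩ := exists_contMDiff_support_eq_eq_one_iff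
    (n := (⊤ : ℕ∞)) (modelWithCornersSelf ℝ (Sp d)) (s := U ∩ Metric.ball 0 R) (t := K)
    (hU.inter Metric.isOpen_ball) hK.isClosed (subset_inter hKU hR)
  refine ⟨f, ?_, ?_, ?_, ?_, ?_, ?_⟩
  · exact (contMDiff_iff_contDiff.1 hf1).of_le (by exact_mod_cast le_top)
  · refine HasCompactSupport.of_support_subset_isCompact (isCompact_closedBall (0 : Sp d) R) ?_
    rw [hf3]
    exact inter_subset_right.trans Metric.ball_subset_closedBall
  · intro x
    exact (hf2 (mem_range_self x)).1
  · intro x
    exact (hf2 (mem_range_self x)).2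
  · intro x hx
    exact (hf4 x).1 hx
  · intro x hx
    by_contra h
    have : x ∈ Function.support f := h
    rw [hf3] at this
    exact hx this.1

theorem volume_translate_diff_le {A : Set (Sp d)} (hA : MeasurableSet A) (hAv : volume A ≠ ∞)
    (v : Sp d) : volume {x | x ∈ A ∧ x + v ∉ A} ≤ ENNReal.ofReal ‖v‖ * perimeter A := by
  rcases eq_or_ne v 0 with rfl | hv
  · have : {x : Sp d | x ∈ A ∧ x + 0 ∉ A} = ∅ := by
      ext x
      simp
    rw [this]
    simp
  have hv' : 0 < ‖v‖ := norm_pos_iff.2 hv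
  rcases eq_or_ne (perimeter A) ∞ with hP | hP
  · rw [hP, ENNReal.mul_top (by simpa using hv')]
    exact le_top
  set B : Set (Sp d) := {x | x ∈ A ∧ x + v ∉ A} with hBdef
  have hBm : MeasurableSet B := by
    have : B = A ∩ ((fun x => x + v) ⁻¹' A)ᶜ := by
      ext x
      simp [hBdef]
    rw [this]
    exact hA.inter (hA.preimage (measurable_add_const v)).compl
  have hBA : B ⊆ A := fun x hx => hx.1
  have hBv : volume B ≠ ∞ := ne_top_of_le_ne_top hAv (measure_mono hBA)
  have hreal : (volume B).toReal ≤ ‖v‖ * (perimeter A).toReal := by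
    refine le_of_forall_pos_le_add fun ε hε => ?_
    obtain ⟨K, hKB, hKc, hK⟩ := hBm.exists_isCompact_lt_add hBv
      (ε := ENNReal.ofReal (ε / 2)) (by simpa using hε)
    obtain ⟨U, hKU, hUo, hU⟩ := K.exists_isOpen_lt_add (μ := volume) hKc.measure_lt_top.ne
      (ε := ENNReal.ofReal (ε / 2)) (by simpa using hε)
    obtain ⟨ψ, h1, h2, h3, h4, h5, h6⟩ := exists_cutoff hKc hUo hKU
    have habs : ∀ x, |ψ x| ≤ 1 := fun x => abs_le.2 ⟨by linarith [h3 x], h4 x⟩
    have key := integral_sub_translate_le h1 h2 habs hAv hP v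
    have hKv : volume K ≠ ∞ := hKc.measure_lt_top.ne
    have hUv : volume U ≠ ∞ := (hU.trans_le le_top).ne
    -- rewrite the integrals
    have e1 : ∫ x in A, ψ x = ∫ x, A.indicator (fun _ => (1:ℝ)) x * ψ x := by
      rw [← integral_indicator hA]
      refine integral_congr_ae (Eventually.of_forall fun x => ?_)
      by_cases hx : x ∈ A <;> simp [hx]
    have e2 : ∫ x in A, ψ (x - v) = ∫ x, A.indicator (fun _ => (1:ℝ)) (x + v) * ψ x := by
      rw [← integral_indicator hA]
      rw [← integral_add_right_eq_self (fun x => A.indicator (fun x => ψ (x - v)) x) v]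
      refine integral_congr_ae (Eventually.of_forall fun x => ?_)
      by_cases hx : x + v ∈ A <;> simp [hx]
    have hψi : Integrable ψ := h1.continuous.integrable_of_hasCompactSupport h2
    have hi1 : Integrable (fun x => A.indicator (fun _ => (1:ℝ)) x * ψ x) := by
      refine hψi.mono ?_ (Eventually.of_forall fun x => ?_)
      · exact ((measurable_const.indicator hA).mul h1.continuous.measurable).aestronglyMeasurable
      · by_cases hx : x ∈ A <;> simp [hx]
    have hi2 : Integrable (fun x => A.indicator (fun _ => (1:ℝ)) (x + v) * ψ x) := by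
      refine hψi.mono ?_ (Eventually.of_forall fun x => ?_)
      · exact (((measurable_const.indicator hA).comp (measurable_add_const v)).mul
          h1.continuous.measurable).aestronglyMeasurable
      · by_cases hx : x + v ∈ A <;> simp [hx]
    have hKm : MeasurableSet K := hKc.isClosed.measurableSet
    have hUm : MeasurableSet U := hUo.measurableSet
    have hlow : ∀ x, K.indicator (fun _ => (1:ℝ)) x - (U \ K).indicator (fun _ => (1:ℝ)) x ≤
        A.indicator (fun _ => (1:ℝ)) x * ψ x - A.indicator (fun _ => (1:ℝ)) (x + v) * ψ x := by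
      intro x
      by_cases hxK : x ∈ K
      · have hxB := hKB hxK
        have hxA : x ∈ A := hxB.1
        have hxA' : x + v ∉ A := hxB.2
        simp [hxK, hxA, hxA', h5 x hxK]
      · by_cases hxU : x ∈ U
        · have hb := h3 x
          have hb' := h4 x
          by_cases hxA : x ∈ A <;> by_cases hxA' : x + v ∈ A <;>
            simp [hxK, hxU, hxA, hxA'] <;> linarith
        · simp [hxK, hxU, h6 x hxU]
    have hint : (volume K).toReal - (volume (U \ K)).toReal ≤
        (∫ x in A, ψ x) - ∫ x in A, ψ (x - v) := by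
      rw [e1, e2, ← integral_sub hi1 hi2]
      have hUK : volume (U \ K) ≠ ∞ := ne_top_of_le_ne_top hUv (measure_mono sdiff_subset)
      have hiK : Integrable (K.indicator (fun _ => (1:ℝ))) :=
        (integrable_indicator_iff hKm).2 (integrableOn_const hKv)
      have hiU : Integrable ((U \ K).indicator (fun _ => (1:ℝ))) :=
        (integrable_indicator_iff (hUm.diff hKm)).2 (integrableOn_const hUK)
      have : (volume K).toReal - (volume (U \ K)).toReal =
          ∫ x, (K.indicator (fun _ => (1:ℝ)) x - (U \ K).indicator (fun _ => (1:ℝ)) x) := by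
        rw [integral_sub hiK hiU, integral_indicator_const _ hKm,
          integral_indicator_const _ (hUm.diff hKm)]
        simp [Measure.real]
      rw [this]
      exact integral_mono (hiK.sub hiU) (hi1.sub hi2) hlow
    have hUK' : (volume (U \ K)).toReal ≤ ε / 2 := by
      rw [measure_sdiff hKU hKm.nullMeasurableSet hKv, ENNReal.toReal_sub_of_le (measure_mono hKU) hUv]
      have := ENNReal.toReal_mono (b := volume K + ENNReal.ofReal (ε/2)) (by
        simp [hKv]) hU.le
      rw [ENNReal.toReal_add hKv (by simp), ENNReal.toReal_ofReal (by linarith)] at this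
      linarith
    have hBK : (volume B).toReal ≤ (volume K).toReal + ε / 2 := by
      have := ENNReal.toReal_mono (b := volume K + ENNReal.ofReal (ε/2)) (by
        simp [hKv]) hK.le
      rwa [ENNReal.toReal_add hKv (by simp), ENNReal.toReal_ofReal (by linarith)] at this
    linarith
  have h1 : volume B = ENNReal.ofReal (volume B).toReal := (ENNReal.ofReal_toReal hBv).symm
  rw [h1]
  refine (ENNReal.ofReal_le_ofReal hreal).trans ?_
  rw [ENNReal.ofReal_mul hv'.le, ENNReal.ofReal_toReal hP]

end MP_fd31a8_an
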