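import Mathlib
import Pool.Agent.Lib.MP_fd31a8_an.Cut
import Pool.Agent.Lib.MP_fd31a8_an.Profile

/-!
# The barrier argument: no contact where the boundary is a sphere of large curvature
-/

open MeasureTheory Set Filter Metric
open scoped ENNReal NNReal Topology

namespace MP_fd31a8_an

variable {d : ℕ}

/-! ### Divergence of a normalised field -/

lemma fderiv_norm_apply {w : Sp d → Sp d} {x : Sp d} (hw : DifferentiableAt ℝ w x)
    (h0 : w x ≠ 0) (v : Sp d) :
    fderiv ℝ (fun y => ‖w y‖) x v = ‖w x‖⁻¹ * inner ℝ (w x) (fderiv ℝ w x v) := by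
  have hn : DifferentiableAt ℝ (fun y => ‖w y‖) x := hw.norm ℝ h0
  have h1 : HasFDerivAt (fun y => ‖w y‖ ^ 2)
      ((2 * ‖w x‖) • fderiv ℝ (fun y => ‖w y‖) x) x := by
    have := hn.hasFDerivAt.pow 2
    simpa using this
  have h2 : HasFDerivAt (fun y => ‖w y‖ ^ 2)
      (2 • (innerSL ℝ (w x)).comp (fderiv ℝ w x)) x := hw.hasFDerivAt.norm_sq
  have h3 := h1.unique h2
  have h4 := congrArg (fun L : Sp d →L[ℝ] ℝ => L v) h3
  simp only [smul_apply, ContinuousLinearMap.comp_apply, innerSL_apply_apply, smul_eq_mul,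
    nsmul_eq_mul] at h4
  have hne : ‖w x‖ ≠ 0 := norm_ne_zero_iff.2 h0
  field_simp
  push_cast at h4
  linarith

lemma divg_normalize {w : Sp d → Sp d} {x : Sp d} (hw : DifferentiableAt ℝ w x)
    (h0 : w x ≠ 0) :
    divg (fun y => ‖w y‖⁻¹ • w y) x
      = ‖w x‖⁻¹ * divg w x - ‖w x‖⁻¹ ^ 3 * inner ℝ (w x) (fderiv ℝ w x (w x)) := by
  have hn : DifferentiableAt ℝ (fun y => ‖w y‖) x := hw.norm ℝ h0
  have hne : ‖w x‖ ≠ 0 := norm_ne_zero_iff.2 h0
  have hinv : HasFDerivAt (fun y => ‖w y‖⁻¹)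
      ((-(‖w x‖ ^ 2)⁻¹) • fderiv ℝ (fun y => ‖w y‖) x) x := by
    have := (hasDerivAt_inv hne).comp_hasFDerivAt x hn.hasFDerivAt
    exact this
  rw [divg_smul hinv.differentiableAt hw, hinv.fderiv]
  simp only [smul_apply, smul_eq_mul]
  rw [fderiv_norm_apply hw h0]
  field_simp
  ring

lemma divg_sub_const (z x : Sp d) : divg (fun y => y - z) x = d := by
  unfold divg
  have h : fderiv ℝ (fun y : Sp d => y - z) x = ContinuousLinearMap.id ℝ (Sp d) := by
    rw [fderiv_sub_const]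
    exact fderiv_fun_id
  rw [h]
  simp

lemma divg_radial {z x : Sp d} (h : x ≠ z) :
    divg (fun y => ‖y - z‖⁻¹ • (y - z)) x = (d - 1) / ‖x - z‖ := by
  have hw : DifferentiableAt ℝ (fun y : Sp d => y - z) x := differentiableAt_id.sub_const z
  have h0 : x - z ≠ 0 := sub_ne_zero.2 h
  have hne : ‖x - z‖ ≠ 0 := norm_ne_zero_iff.2 h0
  have h1 : fderiv ℝ (fun y : Sp d => y - z) x = ContinuousLinearMap.id ℝ (Sp d) := by
    rw [fderiv_sub_const]
    exact fderiv_fun_id
  rw [divg_normalize (w := fun y => y - z) hw h0, divg_sub_const, h1]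
  simp only [ContinuousLinearMap.id_apply]
  rw [real_inner_self_eq_norm_sq]
  field_simp

/-! ### The barrier lemma -/

/-- If `E` is a minimiser of `P(F) ≥ h |F|` in `Ω` with equality, and near `x₀` the domain `Ω` is
contained in a ball of radius `R₀` through `x₀` with `h R₀ < d - 1`, then `x₀` is not in the
measure theoretic boundary of `E`. -/
theorem not_mem_essBoundary_of_ball {Ω E : Set (Sp d)} {h : ℝ} (hEm : MeasurableSet E)
    (hEΩ : E ⊆ Ω) (hvol : volume E ≠ ⊤) (hper : perimeter E ≠ ⊤)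
    (heq : (perimeter E).toReal = h * (volume E).toReal)
    (hmin : ∀ F ⊆ Ω, MeasurableSet F → perimeter F ≠ ⊤ →
      h * (volume F).toReal ≤ (perimeter F).toReal)
    {x0 z : Sp d} {R0 r0 : ℝ} (hr0 : 0 < r0) (hz : dist x0 z = R0) (hR0 : 0 < R0)
    (hh : 0 ≤ h) (hcurv : h * R0 < d - 1)
    (hloc : ∀ x ∈ ball x0 r0, x ∈ Ω → dist x z < R0) : x0 ∉ essBoundary E := by
  classical
  -- choose κ > 1 with h κ R0 < d - 1
  obtain ⟨κ, hκ1, hκ⟩ : ∃ κ : ℝ, 1 < κ ∧ h * (κ * R0) < d - 1 := by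
    have hcont : Tendsto (fun κ : ℝ => h * (κ * R0)) (𝓝[>] 1) (𝓝 (h * (1 * R0))) :=
      ((continuous_const.mul (continuous_id.mul continuous_const)).tendsto 1).mono_left
        nhdsWithin_le_nhds
    rw [one_mul] at hcont
    have h1 := hcont.eventually_lt_const hcurv
    obtain ⟨κ, h2, h3⟩ := (h1.and self_mem_nhdsWithin).exists
    exact ⟨κ, h3, h2⟩
  set v : Sp d := x0 - z with hv
  have hvn : ‖v‖ = R0 := by rw [hv, ← dist_eq_norm, hz]
  set z' : Sp d := x0 - κ • v with hz'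
  set R1 : ℝ := κ * R0 with hR1
  have hR1pos : 0 < R1 := mul_pos (by linarith) hR0
  have hxz' : x0 - z' = κ • v := by rw [hz']; abel
  -- shrink the radius
  set r : ℝ := min r0 (R1 / 2) with hr
  have hrpos : 0 < r := lt_min hr0 (by linarith)
  set s : ℝ := R1 ^ 2 - (κ - 1) * (r / 2) ^ 2 with hs
  -- the main estimate
  have hest : ∀ x ∈ Ω, x ∈ ball x0 r → ‖x - z'‖ ^ 2 < R1 ^ 2 - (κ - 1) * ‖x - x0‖ ^ 2 := by
    intro x hxΩ hxr
    have h1 : dist x z < R0 := hloc x (ball_subset_ball (min_le_left _ _) hxr) hxΩ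
    have h2 : x - z = (x - x0) + v := by rw [hv]; abel
    have h3 : x - z' = (x - x0) + κ • v := by rw [hz']; abel
    have h4 : ‖x - z‖ ^ 2 = ‖x - x0‖ ^ 2 + 2 * inner ℝ (x - x0) v + R0 ^ 2 := by
      rw [h2, norm_add_sq_real, hvn]
    have h5 : ‖x - z'‖ ^ 2 = ‖x - x0‖ ^ 2 + 2 * (κ * inner ℝ (x - x0) v) + R1 ^ 2 := by
      rw [h3, norm_add_sq_real, inner_smul_right, norm_smul, hvn, hR1, Real.norm_of_nonneg (by linarith)]
    have h6 : ‖x - z‖ ^ 2 < R0 ^ 2 := by
      rw [← dist_eq_norm]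
      exact pow_lt_pow_left₀ h1 dist_nonneg two_ne_zero
    rw [h4] at h6
    rw [h5]
    nlinarith
  set U : Set (Sp d) := ball x0 r with hU
  set u : Sp d → ℝ := fun x => ‖x - z'‖ ^ 2 with hu
  set X : Sp d → Sp d := fun x => ‖x - z'‖⁻¹ • (x - z') with hX
  have hUne : ∀ x ∈ U, x - z' ≠ 0 := by
    intro x hx hcon
    have h1 : x = z' := sub_eq_zero.1 hcon
    have h2 : dist x x0 < r := hx
    rw [h1, dist_comm, dist_eq_norm, hxz', norm_smul, hvn, Real.norm_of_nonneg (by linarith)] at h2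
    have h3 : r ≤ R1 / 2 := min_le_right _ _
    rw [← hR1] at h2
    linarith
  have huC : ContDiff ℝ 1 u := by
    rw [hu]
    exact (contDiff_id.sub contDiff_const).norm_sq ℝ
  have hXC : ContDiffOn ℝ 1 X U := by
    intro x hx
    have hne := hUne x hx
    refine ContDiffAt.contDiffWithinAt ?_
    have h1 : ContDiffAt ℝ 1 (fun y : Sp d => y - z') x := contDiffAt_id.sub contDiffAt_const
    have h2 : ContDiffAt ℝ 1 (fun y : Sp d => ‖y - z'‖) x := h1.norm ℝ hne
    exact (h2.inv (norm_ne_zero_iff.2 hne)).smul h1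
  have hXnorm : ∀ x ∈ U, ‖X x‖ = 1 := by
    intro x hx
    rw [hX]
    simp only [norm_smul, norm_inv, norm_norm]
    exact inv_mul_cancel₀ (norm_ne_zero_iff.2 (hUne x hx))
  have hgrad : ∀ x ∈ U, ∃ m : ℝ, 0 ≤ m ∧ ∀ w, fderiv ℝ u x w = m * inner ℝ (X x) w := by
    intro x hx
    have hne : ‖x - z'‖ ≠ 0 := norm_ne_zero_iff.2 (hUne x hx)
    refine ⟨2 * ‖x - z'‖, by positivity, fun w => ?_⟩
    have h1 : HasFDerivAt (fun y : Sp d => y - z') (ContinuousLinearMap.id ℝ (Sp d)) x :=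
      (hasFDerivAt_id x).sub_const z'
    have h2 := h1.norm_sq
    have h3 : fderiv ℝ u x = 2 • (innerSL ℝ (x - z')).comp (ContinuousLinearMap.id ℝ (Sp d)) :=
      h2.fderiv
    rw [h3, hX]
    simp only [smul_apply, ContinuousLinearMap.comp_apply, ContinuousLinearMap.id_apply,
      innerSL_apply_apply, inner_smul_left, nsmul_eq_mul, conj_trivial]
    push_cast
    field_simp
  -- the bump
  let bmp : ContDiffBump x0 := ⟨r / 2, 3 / 4 * r, by linarith, by linarith⟩
  have hcutc : ∀ x ∈ Ω, x ∈ U → s < u x → bmp x = 1 := by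
    intro x hxΩ hxU hsx
    refine bmp.one_of_mem_closedBall ?_
    have h1 := hest x hxΩ hxU
    have h2 : (κ - 1) * ‖x - x0‖ ^ 2 < (κ - 1) * (r / 2) ^ 2 := by
      have : s < ‖x - z'‖ ^ 2 := hsx
      linarith
    have h3 : ‖x - x0‖ ^ 2 < (r / 2) ^ 2 := lt_of_mul_lt_mul_left h2 (by linarith)
    have h4 : ‖x - x0‖ < r / 2 := lt_of_pow_lt_pow_left₀ 2 (by linarith) h3
    rw [mem_closedBall, dist_eq_norm]
    exact h4.le
  have hsupp : tsupport bmp ⊆ U := by
    rw [bmp.tsupport_eq]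
    intro x hx
    have hx' : dist x x0 ≤ 3 / 4 * r := hx
    have : dist x x0 < r := by linarith
    exact this
  have hcutT := fun {T : Sp d → Sp d} (hT : T ∈ TestField d) =>
    cut_integral (W := Ω) (U := U) (u := u) (lam := bmp) (X := X) (s := s) hEm hvol hEΩ hper
      isOpen_ball huC.contDiffOn hXC bmp.contDiff bmp.hasCompactSupport
      (fun x => bmp.nonneg) (fun x => bmp.le_one) hsupp hXnorm hgrad hcutc hT
  have hcutP := cut_perimeter (W := Ω) (U := U) (u := u) (lam := bmp) (X := X) (s := s) hEm hvol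
    hEΩ hper isOpen_ball huC.contDiffOn hXC bmp.contDiff bmp.hasCompactSupport
    (fun x => bmp.nonneg) (fun x => bmp.le_one) hsupp hXnorm hgrad hcutc
  set N : Set (Sp d) := {y | y ∈ U ∧ s < u y} with hN
  have hNopen : IsOpen N := by
    have : N = U ∩ u ⁻¹' Ioi s := by ext y; simp [hN]
    rw [this]
    exact isOpen_ball.inter (isOpen_Ioi.preimage huC.continuous)
  have hNm : MeasurableSet N := hNopen.measurableSet
  -- lower bound of the divergence
  have hdivlow : ∀ x ∈ E ∩ N, (d - 1) / R1 ≤ divg X x := by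
    intro x hx
    have hxne := hUne x hx.2.1
    rw [hX, divg_radial (sub_ne_zero.1 hxne)]
    have h1 := hest x (hEΩ hx.1) hx.2.1
    have h2 : ‖x - z'‖ ^ 2 < R1 ^ 2 := by
      have : 0 ≤ (κ - 1) * ‖x - x0‖ ^ 2 := mul_nonneg (by linarith) (sq_nonneg _)
      linarith
    have h3 : ‖x - z'‖ < R1 := lt_of_pow_lt_pow_left₀ 2 hR1pos.le h2
    have h4 : 0 < ‖x - z'‖ := norm_pos_iff.2 hxne
    have h5 : (0 : ℝ) ≤ d - 1 := by nlinarith [mul_nonneg hh hR1pos.le]
    exact div_le_div_of_nonneg_left h5 h4 h3.le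
  have hEN : volume (E ∩ N) ≠ ⊤ := ne_top_of_le_ne_top hvol (measure_mono inter_subset_left)
  have hintge : (d - 1) / R1 * (volume (E ∩ N)).toReal ≤ ∫ x in E ∩ N, divg X x := by
    have hint : IntegrableOn (divg X) (E ∩ N) := by
      have hfinm : IsFiniteMeasure (volume.restrict (E ∩ N)) := isFiniteMeasure_restrict.2 hEN
      have h1 : AEStronglyMeasurable (divg X) (volume.restrict U) :=
        (continuousOn_divg isOpen_ball hXC).aestronglyMeasurable isOpen_ball.measurableSet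
      have h2 : (volume.restrict (E ∩ N) : Measure (Sp d)) ≤ volume.restrict U :=
        Measure.restrict_mono (fun y (hy : y ∈ E ∩ N) => hy.2.1) le_rfl
      have hK : IsCompact (closedBall x0 (3 / 4 * r)) := isCompact_closedBall _ _
      have hKU : closedBall x0 (3 / 4 * r) ⊆ U := by rw [← bmp.tsupport_eq]; exact hsupp
      obtain ⟨C, hC⟩ := hK.exists_bound_of_continuousOn
        ((continuousOn_divg isOpen_ball hXC).mono hKU)
      refine Integrable.of_bound (h1.mono_measure h2) C ?_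
      rw [ae_restrict_iff' (hEm.inter hNm)]
      refine Eventually.of_forall fun x hx => hC x ?_
      rw [← bmp.tsupport_eq]
      refine subset_tsupport _ ?_
      rw [Function.mem_support, hcutc x (hEΩ hx.1) hx.2.1 hx.2.2]
      exact one_ne_zero
    have h1 : ∫ _x in E ∩ N, ((d : ℝ) - 1) / R1 = (d - 1) / R1 * (volume (E ∩ N)).toReal := by
      rw [setIntegral_const, smul_eq_mul, mul_comm]
      rfl
    rw [← h1]
    exact setIntegral_mono_on (integrableOn_const hEN) hint (hEm.inter hNm) hdivlow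
  -- minimality
  have hkey : ∫ x in E ∩ N, divg X x ≤ h * (volume (E ∩ N)).toReal := by
    have hF : perimeter (E \ N) ≠ ⊤ := ne_top_of_le_ne_top ENNReal.ofReal_ne_top hcutP
    have h1 := hmin (E \ N) (sdiff_subset.trans hEΩ) (hEm.diff hNm) hF
    have h0 := hcutT testField_zero'
    have hz0 : ∫ x in E \ N, divg (fun _ => (0 : Sp d)) x = 0 := by
      have : ∀ x, divg (fun _ => (0 : Sp d)) x = 0 := by
        intro x; simp [divg]
      simp [this]
    rw [hz0, zero_add] at h0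
    have h2 : (perimeter (E \ N)).toReal ≤ (perimeter E).toReal - ∫ x in E ∩ N, divg X x := by
      have := ENNReal.toReal_mono ENNReal.ofReal_ne_top hcutP
      rwa [ENNReal.toReal_ofReal (by linarith)] at this
    have h3 : (volume (E \ N)).toReal + (volume (E ∩ N)).toReal = (volume E).toReal := by
      rw [← ENNReal.toReal_add (ne_top_of_le_ne_top hvol (measure_mono sdiff_subset)) hEN]
      congr 1
      rw [add_comm]
      exact measure_inter_add_sdiff E hNm
    have h4 : h * (volume (E \ N)).toReal + h * (volume (E ∩ N)).toReal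
        = h * (volume E).toReal := by rw [← mul_add, h3]
    linarith
  have hzero : (volume (E ∩ N)).toReal = 0 := by
    have h1 : ((d - 1) / R1 - h) * (volume (E ∩ N)).toReal ≤ 0 := by
      have := hintge.trans hkey
      linarith
    have h2 : 0 < (d - 1) / R1 - h := by
      rw [sub_pos, lt_div_iff₀ hR1pos]
      exact hκ
    have h3 : 0 ≤ (volume (E ∩ N)).toReal := ENNReal.toReal_nonneg
    nlinarith
  have hzero' : volume (E ∩ N) = 0 := by
    rcases (ENNReal.toReal_eq_zero_iff _).1 hzero with h1 | h1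
    · exact h1
    · exact absurd h1 hEN
  -- conclusion
  have hx0N : x0 ∈ N := by
    refine ⟨mem_ball_self hrpos, ?_⟩
    have h1 : u x0 = R1 ^ 2 := by
      rw [hu]
      simp only
      rw [hxz', norm_smul, hvn, Real.norm_of_nonneg (by linarith), hR1]
    rw [h1, hs]
    have : 0 < (κ - 1) * (r / 2) ^ 2 := mul_pos (by linarith) (by positivity)
    linarith
  obtain ⟨ρ, hρ, hρN⟩ := Metric.isOpen_iff.1 hNopen x0 hx0N
  intro hcon
  have h1 := (hcon ρ hρ).1
  have h2 : volume (E ∩ ball x0 ρ) ≤ volume (E ∩ N) := measure_mono (inter_subset_inter_right _ hρN)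
  rw [hzero'] at h2
  exact absurd h1 (not_lt.2 h2)

/-! ### Off the Cantor set the boundary of the profile domain is a round sphere -/

namespace Profile

variable {α : ℝ} (P : Profile α)

lemma g_local {t0 : ℝ} (h : t0 ∉ P.K) :
    ∀ᶠ t in 𝓝 t0, P.g t = P.g t0 + ((1 + P.A) * (t ^ 2 - t0 ^ 2) - 2 * P.A * P.c t0 * (t - t0)) := by
  have h1 : ∀ᶠ s in 𝓝 t0, P.c s = P.c t0 := by
    by_contra hcon
    exact h hcon
  obtain ⟨ε, hε, hball⟩ := Metric.eventually_nhds_iff_ball.1 h1
  refine Metric.eventually_nhds_iff_ball.2 ⟨ε, hε, fun t ht => ?_⟩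
  have hii : ∀ a b : ℝ, IntervalIntegrable P.c volume a b := fun a b => P.mono.intervalIntegrable
  have h2 : ∫ s in (0:ℝ)..t, P.c s = (∫ s in (0:ℝ)..t0, P.c s) + ∫ s in t0..t, P.c s :=
    (intervalIntegral.integral_add_adjacent_intervals (hii _ _) (hii _ _)).symm
  have h3 : ∫ s in t0..t, P.c s = ∫ _s in t0..t, P.c t0 := by
    refine intervalIntegral.integral_congr fun s hs => ?_
    refine hball s ?_
    have hconv : Convex ℝ (ball t0 ε) := convex_ball _ _
    have hseg : segment ℝ t0 t ⊆ ball t0 ε := hconv.segment_subset (mem_ball_self hε) ht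
    rw [segment_eq_uIcc] at hseg
    exact hseg hs
  rw [intervalIntegral.integral_const, smul_eq_mul] at h3
  unfold g
  rw [h2, h3]
  ring

/-- the centre of the sphere. -/
noncomputable def cen (x0 : Sp d) : Sp d := WithLp.toLp 2 fun i => P.A * P.c (x0 i) / (1 + P.A)

/-- the gradient field. -/
noncomputable def grad (x : Sp d) : Sp d := WithLp.toLp 2 fun i => P.g' (x i)

lemma sub_cen (x0 : Sp d) : x0 - P.cen x0 = (2 * (1 + P.A))⁻¹ • P.grad x0 := by
  have hA : 1 + P.A ≠ 0 := by have := P.A_pos; positivity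
  ext i
  simp only [cen, grad, g', PiLp.sub_apply, PiLp.smul_apply, smul_eq_mul]
  field_simp

lemma G_local {x0 : Sp d} (h : ∀ i, x0 i ∉ P.K) :
    ∀ᶠ x in 𝓝 x0, P.G x = P.G x0 + (1 + P.A) * (‖x - P.cen x0‖ ^ 2 - ‖x0 - P.cen x0‖ ^ 2) := by
  have hA : 1 + P.A ≠ 0 := by have := P.A_pos; positivity
  have h1 : ∀ᶠ x : Sp d in 𝓝 x0, ∀ i, P.g (x i) = P.g (x0 i)
      + ((1 + P.A) * ((x i) ^ 2 - (x0 i) ^ 2) - 2 * P.A * P.c (x0 i) * (x i - x0 i)) := by
    rw [eventually_all]
    intro i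
    have hc : ContinuousAt (fun x : Sp d => x i) x0 := by
      have : Continuous (fun x : Sp d => x i) := by fun_prop
      exact this.continuousAt
    exact hc.eventually (P.g_local (h i))
  filter_upwards [h1] with x hx
  rw [EuclideanSpace.norm_sq_eq, EuclideanSpace.norm_sq_eq, ← Finset.sum_sub_distrib,
    Finset.mul_sum]
  unfold G
  rw [← Finset.sum_add_distrib]
  refine Finset.sum_congr rfl fun i _ => ?_
  rw [hx i]
  simp only [cen, PiLp.sub_apply, Real.norm_eq_abs, sq_abs]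
  field_simp
  ring

/-- **No contact off the Cantor set.** -/
theorem not_contact {E : Set (Sp d)} {h : ℝ} (hEm : MeasurableSet E)
    (hEΩ : E ⊆ P.Omega d) (hvol : volume E ≠ ⊤) (hper : perimeter E ≠ ⊤)
    (heq : (perimeter E).toReal = h * (volume E).toReal)
    (hmin : ∀ F ⊆ P.Omega d, MeasurableSet F → perimeter F ≠ ⊤ →
      h * (volume F).toReal ≤ (perimeter F).toReal) (hh : 0 ≤ h)
    {x0 : Sp d} (hG : P.G x0 = 1) (hoff : ∀ i, x0 i ∉ P.K)
    (hcurv : h * ‖P.grad x0‖ < 2 * (1 + P.A) * (d - 1)) : x0 ∉ essBoundary E := by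
  have hA : 0 < 1 + P.A := by have := P.A_pos; positivity
  obtain ⟨r0, hr0, hball⟩ := Metric.eventually_nhds_iff_ball.1 (P.G_local hoff)
  have hloc : ∀ x ∈ ball x0 r0, x ∈ P.Omega d → dist x (P.cen x0) < ‖x0 - P.cen x0‖ := by
    intro x hx hxΩ
    have h1 := hball x hx
    have h2 : P.G x < 1 := hxΩ
    rw [h1, hG] at h2
    have h3 : (1 + P.A) * (‖x - P.cen x0‖ ^ 2 - ‖x0 - P.cen x0‖ ^ 2) < 0 := by linarith
    have h4 : ‖x - P.cen x0‖ ^ 2 < ‖x0 - P.cen x0‖ ^ 2 := by
      by_contra hcon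
      push Not at hcon
      have := mul_nonneg hA.le (sub_nonneg.2 hcon)
      linarith
    rw [dist_eq_norm]
    exact lt_of_pow_lt_pow_left₀ 2 (norm_nonneg _) h4
  rcases (norm_nonneg (x0 - P.cen x0)).eq_or_lt with h0 | h0
  · -- degenerate case
    intro hcon
    have h1 := (hcon r0 hr0).1
    have h2 : E ∩ ball x0 r0 = ∅ := by
      ext x
      simp only [mem_inter_iff, mem_empty_iff_false, iff_false]
      rintro ⟨hxE, hxb⟩
      have h3 := hloc x hxb (hEΩ hxE)
      rw [← h0] at h3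
      exact absurd h3 (not_lt.2 dist_nonneg)
    rw [h2] at h1
    simp at h1
  · refine not_mem_essBoundary_of_ball hEm hEΩ hvol hper heq hmin hr0 (dist_eq_norm _ _) h0 hh ?_
      hloc
    rw [P.sub_cen, norm_smul, norm_inv, Real.norm_of_nonneg (by positivity)]
    have h2 : h * ((2 * (1 + P.A))⁻¹ * ‖P.grad x0‖) = (h * ‖P.grad x0‖) / (2 * (1 + P.A)) := by
      field_simp
    rw [h2, div_lt_iff₀ (by positivity)]
    linarith

end Profile

end MP_fd31a8_an
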