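import Mathlib
import Pool.Agent.Lib.MP_fd31a8_an.LowerB
import Pool.Agent.Lib.MP_fd31a8_an.Upper
import Pool.Agent.Lib.MP_fd31a8_an.Trans

/-!
# Scaling of the perimeter; the smooth approximations of the gradient field
-/

open MeasureTheory Set Filter Metric
open scoped ENNReal NNReal Topology Pointwise

namespace MP_fd31a8_an

variable {d : ℕ}

lemma divg_comp_smul {T : Sp d → Sp d} {lam : ℝ} {x : Sp d}
    (hT : DifferentiableAt ℝ T (lam • x)) :
    divg (fun y => T (lam • y)) x = lam * divg T (lam • x) := by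
  have h1 : HasFDerivAt (fun y : Sp d => lam • y) (lam • ContinuousLinearMap.id ℝ (Sp d)) x :=
    (hasFDerivAt_id x).const_smul lam
  have h2 : HasFDerivAt (fun y : Sp d => T (lam • y))
      ((fderiv ℝ T (lam • x)).comp (lam • ContinuousLinearMap.id ℝ (Sp d))) x :=
    HasFDerivAt.comp x hT.hasFDerivAt h1
  unfold divg
  rw [h2.fderiv, Finset.mul_sum]
  refine Finset.sum_congr rfl fun i _ => ?_
  simp only [ContinuousLinearMap.comp_apply, smul_apply, ContinuousLinearMap.id_apply, map_smul,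
    PiLp.smul_apply, smul_eq_mul]

/-- Scaling: `P(λE) ≤ λ^{d-1} P(E)`. -/
lemma perimeter_smul_le {E : Set (Sp (d + 1))} (hper : perimeter E ≠ ⊤) {lam : ℝ} (hlam : 0 < lam) :
    perimeter (lam • E) ≤ ENNReal.ofReal (lam ^ d * (perimeter E).toReal) := by
  refine perimeter_le fun T hT => ?_
  have hT' : (fun y => T (lam • y)) ∈ TestField (d + 1) := by
    refine ⟨hT.1.comp (contDiff_const_smul lam), ?_, fun x => hT.2.2 _⟩
    exact hT.2.1.comp_smul hlam.ne'
  have h1 := integral_le_perimeter hT' hper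
  have h2 : ∀ y, divg (fun y => T (lam • y)) y = lam * divg T (lam • y) := fun y =>
    divg_comp_smul (hT.1.differentiable one_ne_zero _)
  simp_rw [h2] at h1
  rw [integral_const_mul] at h1
  have h3 := Measure.setIntegral_comp_smul_of_pos volume (divg T) E hlam
  rw [finrank_euclideanSpace_fin, smul_eq_mul] at h3
  rw [h3] at h1
  have h4 : (0 : ℝ) < lam ^ (d + 1) := by positivity
  have h5 : lam * ((lam ^ (d + 1))⁻¹ * ∫ x in lam • E, divg T x)
      = (lam ^ d)⁻¹ * ∫ x in lam • E, divg T x := by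
    rw [pow_succ]
    field_simp
  rw [h5] at h1
  rwa [inv_mul_le_iff₀ (by positivity)] at h1

namespace Profile

variable {α : ℝ} (P : Profile α)

/-- the smooth gradient field. -/
noncomputable def wL (e : ℝ) (x : Sp d) : Sp d :=
  WithLp.toLp 2 fun i => 2 * (1 + P.A) * x i - 2 * P.A * P.ce e (x i)

/-- its potential. -/
noncomputable def Ge (e : ℝ) (x : Sp d) : ℝ :=
  ∑ i, ((1 + P.A) * (x i) ^ 2 - 2 * P.A * ∫ s in (0:ℝ)..(x i), P.ce e s)

lemma contDiff_ce (hα : 0 < α) (e : ℝ) : ContDiff ℝ 1 (P.ce e) := by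
  rw [contDiff_one_iff_deriv]
  have : deriv (P.ce e) = P.ce' e := funext fun t => (P.hasDerivAt_ce hα e t).deriv
  rw [this]
  exact ⟨fun t => (P.hasDerivAt_ce hα e t).differentiableAt, P.cont_ce' hα e⟩

lemma contDiff_wL (hα : 0 < α) (e : ℝ) : ContDiff ℝ 1 (P.wL (d := d) e) := by
  rw [contDiff_euclidean]
  intro i
  unfold wL
  simp only
  have h1 : ContDiff ℝ 1 (fun x : Sp d => x i) := by fun_prop
  exact (contDiff_const.mul h1).sub (contDiff_const.mul ((P.contDiff_ce hα e).comp h1))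

/-- the diagonal entries of the derivative of `w`. -/
noncomputable def mm (e : ℝ) (x : Sp d) (i : Fin d) : ℝ :=
  2 * (1 + P.A) - 2 * P.A * P.ce' e (x i)

lemma fderiv_wL_apply (hα : 0 < α) (e : ℝ) (x v : Sp d) (i : Fin d) :
    (fderiv ℝ (P.wL e) x v) i = P.mm e x i * v i := by
  have h0 : HasFDerivAt (fun y : Sp d => y i) (EuclideanSpace.proj i : Sp d →L[ℝ] ℝ) x :=
    (EuclideanSpace.proj i : Sp d →L[ℝ] ℝ).hasFDerivAt
  have h1 : HasFDerivAt (fun y : Sp d => P.wL e y i)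
      ((EuclideanSpace.proj i : Sp d →L[ℝ] ℝ).comp (fderiv ℝ (P.wL e) x)) x :=
    (EuclideanSpace.proj i : Sp d →L[ℝ] ℝ).hasFDerivAt.comp x
      ((P.contDiff_wL hα e).differentiable one_ne_zero x).hasFDerivAt
  have h2 : HasFDerivAt (fun y : Sp d => P.wL e y i)
      ((2 * (1 + P.A)) • (EuclideanSpace.proj i : Sp d →L[ℝ] ℝ)
        - (2 * P.A) • (P.ce' e (x i) • (EuclideanSpace.proj i : Sp d →L[ℝ] ℝ))) x := by
    exact (h0.const_mul (2 * (1 + P.A))).sub
      (((P.hasDerivAt_ce hα e (x i)).comp_hasFDerivAt x h0).const_mul (2 * P.A))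
  have h3 := congrArg (fun L : Sp d →L[ℝ] ℝ => L v) (h1.unique h2)
  simp only [ContinuousLinearMap.comp_apply, sub_apply, smul_apply, smul_eq_mul] at h3
  have h4 : (EuclideanSpace.proj i : Sp d →L[ℝ] ℝ) (fderiv ℝ (P.wL e) x v)
      = (fderiv ℝ (P.wL e) x v) i := rfl
  have h5 : (EuclideanSpace.proj i : Sp d →L[ℝ] ℝ) v = v i := rfl
  rw [h4, h5] at h3
  rw [h3, mm]
  ring

lemma hasFDerivAt_Ge (hα : 0 < α) (e : ℝ) (x : Sp d) :
    HasFDerivAt (P.Ge e) (innerSL ℝ (P.wL e x)) x := by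
  have hc : Continuous (P.ce e) := (P.contDiff_ce hα e).continuous
  have h0 : ∀ i, HasFDerivAt (fun y : Sp d => y i) (EuclideanSpace.proj i : Sp d →L[ℝ] ℝ) x :=
    fun i => (EuclideanSpace.proj i : Sp d →L[ℝ] ℝ).hasFDerivAt
  have h1 : ∀ t : ℝ, HasDerivAt (fun t => (1 + P.A) * t ^ 2 - 2 * P.A * ∫ s in (0:ℝ)..t, P.ce e s)
      (2 * (1 + P.A) * t - 2 * P.A * P.ce e t) t := by
    intro t
    have h2 : HasDerivAt (fun t => ∫ s in (0:ℝ)..t, P.ce e s) (P.ce e t) t :=
      intervalIntegral.integral_hasDerivAt_right (hc.intervalIntegrable 0 t)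
        (hc.stronglyMeasurableAtFilter _ _) hc.continuousAt
    have h3 : HasDerivAt (fun t : ℝ => (1 + P.A) * t ^ 2) ((1 + P.A) * (2 * t)) t := by
      have := (hasDerivAt_pow 2 t).const_mul (1 + P.A)
      simpa using this
    refine (h3.sub (h2.const_mul (2 * P.A))).congr_deriv ?_
    ring
  have h2 : HasFDerivAt (P.Ge (d := d) e)
      (∑ i, (2 * (1 + P.A) * x i - 2 * P.A * P.ce e (x i)) •
        (EuclideanSpace.proj i : Sp d →L[ℝ] ℝ)) x := by
    have : P.Ge (d := d) e = fun y => ∑ i, (fun t => (1 + P.A) * t ^ 2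
        - 2 * P.A * ∫ s in (0:ℝ)..t, P.ce e s) (y i) := rfl
    rw [this]
    refine HasFDerivAt.fun_sum fun i _ => ?_
    have h3 := HasDerivAt.comp_hasFDerivAt (f := fun y : Sp d => y i) x (h1 (x i)) (h0 i)
    exact h3
  refine h2.congr_fderiv ?_
  ext v
  rw [sum_apply, innerSL_apply_apply, PiLp.inner_apply]
  refine Finset.sum_congr rfl fun i _ => ?_
  simp only [smul_apply, smul_eq_mul, wL, RCLike.inner_apply, conj_trivial]
  rw [mul_comm]
  rfl

lemma contDiff_Ge (hα : 0 < α) (e : ℝ) : ContDiff ℝ 1 (P.Ge (d := d) e) := by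
  rw [contDiff_one_iff_fderiv]
  have : fderiv ℝ (P.Ge (d := d) e) = fun x => innerSL ℝ (P.wL e x) :=
    funext fun x => (P.hasFDerivAt_Ge hα e x).fderiv
  rw [this]
  exact ⟨fun x => (P.hasFDerivAt_Ge hα e x).differentiableAt,
    (innerSL ℝ).continuous.comp (P.contDiff_wL hα e).continuous⟩

/-- the divergence of the normalised field is bounded below by the singular part only. -/
lemma divg_X_ge (hα : 0 < α) {e : ℝ} (he : 0 < e) {x : Sp d} (h0 : P.wL e x ≠ 0) :
    - ((2 * P.A) * ‖P.wL e x‖⁻¹ * ∑ i, P.ce' e (x i))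
      ≤ divg (fun y => ‖P.wL e y‖⁻¹ • P.wL e y) x := by
  have hA := P.A_pos
  have hw : DifferentiableAt ℝ (P.wL (d := d) e) x :=
    (P.contDiff_wL hα e).differentiable one_ne_zero x
  rw [divg_normalize hw h0]
  have hn : 0 < ‖P.wL e x‖ := norm_pos_iff.2 h0
  have h1 : divg (P.wL e) x = ∑ i, P.mm e x i := by
    unfold divg
    refine Finset.sum_congr rfl fun i _ => ?_
    rw [P.fderiv_wL_apply hα]
    simp
  have h2 : inner ℝ (P.wL e x) (fderiv ℝ (P.wL e) x (P.wL e x)) = ∑ i, P.mm e x i * (P.wL e x i) ^ 2 := by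
    rw [PiLp.inner_apply]
    refine Finset.sum_congr rfl fun i _ => ?_
    rw [P.fderiv_wL_apply hα]
    simp only [RCLike.inner_apply, conj_trivial]
    ring
  rw [h1, h2]
  have h3 : ∀ i, (P.wL e x i) ^ 2 ≤ ‖P.wL e x‖ ^ 2 := by
    intro i
    have := PiLp.norm_apply_le (P.wL e x) i
    rw [Real.norm_eq_abs] at this
    rw [← sq_abs]
    exact pow_le_pow_left₀ (abs_nonneg _) this 2
  have h4 : ∀ i, - (2 * P.A * P.ce' e (x i)) * ‖P.wL e x‖ ^ 2
      ≤ P.mm e x i * (‖P.wL e x‖ ^ 2 - (P.wL e x i) ^ 2) := by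
    intro i
    have h5 : 0 ≤ ‖P.wL e x‖ ^ 2 - (P.wL e x i) ^ 2 := sub_nonneg.2 (h3 i)
    have h6 := P.ce'_nonneg he (x i)
    have h7 : - (2 * P.A * P.ce' e (x i)) * (‖P.wL e x‖ ^ 2 - (P.wL e x i) ^ 2)
        ≤ P.mm e x i * (‖P.wL e x‖ ^ 2 - (P.wL e x i) ^ 2) := by
      refine mul_le_mul_of_nonneg_right ?_ h5
      unfold mm
      linarith
    have h8 : 0 ≤ 2 * P.A * P.ce' e (x i) * (P.wL e x i) ^ 2 := by positivity
    nlinarith
  have h5 : ‖P.wL e x‖⁻¹ * (∑ i, P.mm e x i) - ‖P.wL e x‖⁻¹ ^ 3 * ∑ i, P.mm e x i * (P.wL e x i) ^ 2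
      = ‖P.wL e x‖⁻¹ ^ 3 * ∑ i, P.mm e x i * (‖P.wL e x‖ ^ 2 - (P.wL e x i) ^ 2) := by
    have : ∑ i, P.mm e x i * (‖P.wL e x‖ ^ 2 - (P.wL e x i) ^ 2)
        = ‖P.wL e x‖ ^ 2 * (∑ i, P.mm e x i) - ∑ i, P.mm e x i * (P.wL e x i) ^ 2 := by
      rw [Finset.mul_sum, ← Finset.sum_sub_distrib]
      exact Finset.sum_congr rfl fun i _ => by ring
    rw [this]
    field_simp
  rw [h5]
  calc - ((2 * P.A) * ‖P.wL e x‖⁻¹ * ∑ i, P.ce' e (x i))
      = ‖P.wL e x‖⁻¹ ^ 3 * ∑ i, - (2 * P.A * P.ce' e (x i)) * ‖P.wL e x‖ ^ 2 := by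
        rw [← Finset.sum_mul, Finset.sum_neg_distrib, ← Finset.mul_sum]
        field_simp
    _ ≤ _ := mul_le_mul_of_nonneg_left (Finset.sum_le_sum fun i _ => h4 i) (by positivity)

/-! ### comparison of `w` and `grad`, `Ge` and `G` -/

lemma norm_wL_sub_grad_le (hα : 0 < α) {e : ℝ} (he : 0 < e) (x : Sp d) :
    ‖P.wL e x - P.grad x‖ ≤ d * (2 * P.A * (P.L * e ^ α)) := by
  have hA := P.A_pos
  have h1 : ‖P.wL e x - P.grad x‖ ≤ ∑ i, |(P.wL e x - P.grad x) i| := by
    rw [EuclideanSpace.norm_eq]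
    refine Real.sqrt_le_iff.2 ⟨Finset.sum_nonneg fun i _ => abs_nonneg _, ?_⟩
    calc ∑ i, ‖(P.wL e x - P.grad x) i‖ ^ 2 = ∑ i, |(P.wL e x - P.grad x) i| ^ 2 := by
          simp [Real.norm_eq_abs]
      _ ≤ ∑ i, |(P.wL e x - P.grad x) i| * ∑ j, |(P.wL e x - P.grad x) j| := by
          refine Finset.sum_le_sum fun i _ => ?_
          rw [sq]
          exact mul_le_mul_of_nonneg_left (Finset.single_le_sum
            (f := fun j => |(P.wL e x - P.grad x) j|) (fun j _ => abs_nonneg _)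
            (Finset.mem_univ i)) (abs_nonneg _)
      _ = (∑ i, |(P.wL e x - P.grad x) i|) ^ 2 := by rw [← Finset.sum_mul, sq]
  refine h1.trans ?_
  calc ∑ i, |(P.wL e x - P.grad x) i| ≤ ∑ _i : Fin d, 2 * P.A * (P.L * e ^ α) := by
        refine Finset.sum_le_sum fun i _ => ?_
        have h2 : (P.wL e x - P.grad x) i = - (2 * P.A * (P.ce e (x i) - P.c (x i))) := by
          simp only [wL, grad, g', PiLp.sub_apply]
          ring
        rw [h2, abs_neg, abs_mul, abs_of_nonneg (by positivity)]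
        exact mul_le_mul_of_nonneg_left (P.abs_ce_sub_le hα he _) (by positivity)
    _ = d * (2 * P.A * (P.L * e ^ α)) := by simp

lemma norm_grad_ge (x : Sp d) : 2 * ‖x‖ ≤ ‖P.grad x‖ := by
  rw [EuclideanSpace.norm_eq, EuclideanSpace.norm_eq]
  have h1 : (2 : ℝ) * √(∑ i, ‖x i‖ ^ 2) = √(∑ i, (2 * ‖x i‖) ^ 2) := by
    have : ∑ i, (2 * ‖x i‖) ^ 2 = 2 ^ 2 * ∑ i, ‖x i‖ ^ 2 := by
      rw [Finset.mul_sum]
      exact Finset.sum_congr rfl fun i _ => by ring
    rw [this, Real.sqrt_mul (by positivity), Real.sqrt_sq (by norm_num)]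
  rw [h1]
  refine Real.sqrt_le_sqrt (Finset.sum_le_sum fun i _ => ?_)
  refine pow_le_pow_left₀ (by positivity) ?_ 2
  have h2 : P.grad x i = P.g' (x i) := rfl
  rw [h2, Real.norm_eq_abs, Real.norm_eq_abs]
  rcases le_total 0 (x i) with h | h
  · rw [abs_of_nonneg h]
    exact (P.two_mul_le_g' h).trans (le_abs_self _)
  · have h' : 0 ≤ - x i := by linarith
    rw [abs_of_nonpos h]
    refine (P.two_mul_le_g' h').trans ?_
    rw [P.g'_odd]
    exact neg_le_abs _

lemma abs_Ge_sub_G_le (hα : 0 < α) {e : ℝ} (he : 0 < e) {x : Sp d} {R : ℝ} (hx : ‖x‖ ≤ R) :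
    |P.Ge e x - P.G x| ≤ d * (2 * P.A * (P.L * e ^ α * R)) := by
  have hA := P.A_pos
  have hc : Continuous (P.ce e) := (P.contDiff_ce hα e).continuous
  have h1 : P.Ge e x - P.G x
      = ∑ i, - (2 * P.A * ∫ s in (0:ℝ)..(x i), (P.ce e s - P.c s)) := by
    unfold Ge G g
    rw [← Finset.sum_sub_distrib]
    refine Finset.sum_congr rfl fun i _ => ?_
    rw [intervalIntegral.integral_sub (hc.intervalIntegrable _ _) (P.ii _ _)]
    ring
  rw [h1]
  calc |∑ i, - (2 * P.A * ∫ s in (0:ℝ)..(x i), (P.ce e s - P.c s))|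
      ≤ ∑ i, |- (2 * P.A * ∫ s in (0:ℝ)..(x i), (P.ce e s - P.c s))| :=
        Finset.abs_sum_le_sum_abs _ _
    _ ≤ ∑ _i : Fin d, 2 * P.A * (P.L * e ^ α * R) := by
        refine Finset.sum_le_sum fun i _ => ?_
        rw [abs_neg, abs_mul, abs_of_nonneg (by positivity)]
        refine mul_le_mul_of_nonneg_left ?_ (by positivity)
        have h2 : ‖∫ s in (0:ℝ)..(x i), (P.ce e s - P.c s)‖ ≤ (P.L * e ^ α) * |x i - 0| :=
          intervalIntegral.norm_integral_le_of_norm_le_const fun s _ => by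
            rw [Real.norm_eq_abs]; exact P.abs_ce_sub_le hα he s
        rw [Real.norm_eq_abs, sub_zero] at h2
        refine h2.trans ?_
        have h3 : |x i| ≤ R := by
          have := PiLp.norm_apply_le x i
          rw [Real.norm_eq_abs] at this
          exact this.trans hx
        have h4 : 0 ≤ P.L * e ^ α := mul_nonneg P.L_nonneg (Real.rpow_nonneg he.le _)
        exact mul_le_mul_of_nonneg_left h3 h4
    _ = d * (2 * P.A * (P.L * e ^ α * R)) := by simp

lemma sq_norm_le_G (hα : 0 < α) (x : Sp d) : ‖x‖ ^ 2 ≤ P.G x := by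
  rw [EuclideanSpace.norm_sq_eq]
  unfold G
  refine Finset.sum_le_sum fun i _ => ?_
  rw [Real.norm_eq_abs, sq_abs]
  exact P.sq_le_g hα _

lemma G_le_sq_norm (x : Sp d) : P.G x ≤ (1 + P.A) * ‖x‖ ^ 2 := by
  rw [EuclideanSpace.norm_sq_eq, Finset.mul_sum]
  unfold G
  refine Finset.sum_le_sum fun i _ => ?_
  rw [Real.norm_eq_abs, sq_abs]
  exact P.g_le _

lemma abs_G_sub_le (hα : 0 < α) {x y : Sp d} (hx : ‖x‖ ≤ 2) (hy : ‖y‖ ≤ 2) :
    |P.G x - P.G y| ≤ d * (4 * (1 + P.A) * ‖x - y‖) := by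
  have hA := P.A_pos
  unfold G
  rw [← Finset.sum_sub_distrib]
  calc |∑ i, (P.g (x i) - P.g (y i))| ≤ ∑ i, |P.g (x i) - P.g (y i)| :=
        Finset.abs_sum_le_sum_abs _ _
    _ ≤ ∑ _i : Fin d, 4 * (1 + P.A) * ‖x - y‖ := by
        refine Finset.sum_le_sum fun i _ => ?_
        have h1 : |x i| ≤ 2 := by
          have := PiLp.norm_apply_le x i
          rw [Real.norm_eq_abs] at this
          exact this.trans hx
        have h2 : |y i| ≤ 2 := by
          have := PiLp.norm_apply_le y i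
          rw [Real.norm_eq_abs] at this
          exact this.trans hy
        refine (P.abs_g_sub_le hα h1 h2).trans ?_
        refine mul_le_mul_of_nonneg_left ?_ (by positivity)
        have := PiLp.norm_apply_le (x - y) i
        rwa [Real.norm_eq_abs, PiLp.sub_apply] at this
    _ = d * (4 * (1 + P.A) * ‖x - y‖) := by simp

lemma continuous_GL (hα : 0 < α) : Continuous (fun x : Sp d => P.G x) := by
  have hgc : Continuous P.g := by
    rw [continuous_iff_continuousAt]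
    exact fun t => (P.hasDerivAt_g' hα t).continuousAt
  unfold G
  fun_prop

end Profile

end MP_fd31a8_an
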