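import Mathlib
import Pool.Agent.Lib.MP_fd31a8_an.LowerC

/-!
# The core inequality for the lower bound
-/

open MeasureTheory Set Filter Metric
open scoped ENNReal NNReal Topology Pointwise

namespace MP_fd31a8_an

namespace Profile

variable {α : ℝ} (P : Profile α)

lemma exists_gamma (hα : 0 < α) : ∃ γ : ℝ, 0 < γ ∧ γ ≤ 1 / 4 ∧ ∃ e1 : ℝ, 0 < e1 ∧
    ∀ t, |t| ≤ P.q + e1 → P.g t ≤ 1 - 2 * γ := by
  have hq : P.g P.q < 1 := P.gq_lt
  refine ⟨min (1 / 4) ((1 - P.g P.q) / 4), lt_min (by norm_num) (by linarith), min_le_left _ _, ?_⟩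
  set γ := min (1 / 4) ((1 - P.g P.q) / 4) with hγ
  have hγ1 : γ ≤ (1 - P.g P.q) / 4 := min_le_right _ _
  have h1 : P.g P.q < 1 - 2 * γ := by linarith
  have h2 : ∀ᶠ t in 𝓝 P.q, P.g t < 1 - 2 * γ :=
    (P.hasDerivAt_g' hα P.q).continuousAt.eventually_lt_const h1
  obtain ⟨ε, hε, hball⟩ := Metric.eventually_nhds_iff_ball.1 h2
  refine ⟨ε / 2, by linarith, fun t ht => ?_⟩
  rw [← P.g_abs]
  refine (P.g_mono hα (abs_nonneg t) ht).trans (le_of_lt (hball _ ?_))
  rw [mem_ball, Real.dist_eq, show P.q + ε / 2 - P.q = ε / 2 by ring, abs_of_pos (by linarith)]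
  linarith

/-- another large coordinate. -/
lemma exists_big {n : ℕ} {γ b : ℝ} (hγ : 0 < γ) (hb : 0 ≤ b)
    (hb2 : (1 + P.A) * b ^ 2 * (n + 2) = γ) (j : Fin (n + 2)) {x : Sp (n + 2)}
    (hxj : P.g (x j) ≤ 1 - 2 * γ) (hG : 1 - γ ≤ P.G x) : ∃ i, i ≠ j ∧ b ≤ |x i| := by
  by_contra hcon
  push Not at hcon
  have hA := P.A_pos
  have h1 : ∀ i ∈ Finset.univ.erase j, P.g (x i) ≤ (1 + P.A) * b ^ 2 := by
    intro i hi
    have h2 := hcon i (Finset.ne_of_mem_erase hi)
    refine (P.g_le _).trans (mul_le_mul_of_nonneg_left ?_ (by positivity))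
    rw [← sq_abs]
    exact pow_le_pow_left₀ (abs_nonneg _) h2.le 2
  have h3 : P.G x = P.g (x j) + ∑ i ∈ Finset.univ.erase j, P.g (x i) := by
    unfold G
    exact (Finset.add_sum_erase _ _ (Finset.mem_univ j)).symm
  have h4 := Finset.sum_le_sum h1
  rw [Finset.sum_const, Finset.card_erase_of_mem (Finset.mem_univ j), Finset.card_univ,
    Fintype.card_fin, nsmul_eq_mul] at h4
  have h5 : ((n + 2 - 1 : ℕ) : ℝ) = n + 1 := by
    rw [show n + 2 - 1 = n + 1 by omega]; push_cast; ring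
  rw [h5] at h4
  have h6 : ((n : ℝ) + 1) * ((1 + P.A) * b ^ 2) < γ := by
    rcases hb.eq_or_lt with h | h
    · rw [← h]; simpa using hγ
    · have : 0 < (1 + P.A) * b ^ 2 := by positivity
      nlinarith
  linarith

lemma exists_big' {n : ℕ} {γ b : ℝ} (hγ4 : γ ≤ 1 / 4)
    (hb2 : (1 + P.A) * b ^ 2 * (n + 2) = γ) {x : Sp (n + 2)}
    (hG : 1 - γ ≤ P.G x) : ∃ i, b ≤ |x i| := by
  by_contra hcon
  push Not at hcon
  have hA := P.A_pos
  have h1 : ∀ i ∈ Finset.univ, P.g (x i) ≤ (1 + P.A) * b ^ 2 := by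
    intro i _
    refine (P.g_le _).trans (mul_le_mul_of_nonneg_left ?_ (by positivity))
    rw [← sq_abs]
    exact pow_le_pow_left₀ (abs_nonneg _) (hcon i).le 2
  have h4 := Finset.sum_le_sum h1
  rw [Finset.sum_const, Finset.card_univ, Fintype.card_fin, nsmul_eq_mul] at h4
  have h5 : P.G x = ∑ i, P.g (x i) := rfl
  push_cast at h4
  nlinarith

/-- the slab sets. -/
def slabSet {n : ℕ} (b τ : ℝ) (y : Sp (n + 2)) (ρ : ℝ) (i : Fin (n + 2)) : Set (Sp (n + 2)) :=
  {x | x ∈ closedBall y ρ ∧ b ≤ |x i| ∧ |P.G x - 1| ≤ τ}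

lemma measurableSet_slabSet (hα : 0 < α) {n : ℕ} (b τ : ℝ) (y : Sp (n + 2)) (ρ : ℝ)
    (i : Fin (n + 2)) : MeasurableSet (P.slabSet b τ y ρ i) := by
  have hmi : Measurable fun x : Sp (n + 2) => |x i| := by
    have : Continuous fun x : Sp (n + 2) => |x i| := by fun_prop
    exact this.measurable
  have hGc := P.continuous_GL (d := n + 2) hα
  have h0 : Continuous fun x : Sp (n + 2) => |P.G x - 1| := by fun_prop
  have h1 : MeasurableSet {x : Sp (n + 2) | b ≤ |x i|} := measurableSet_le measurable_const hmi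
  have h2 : MeasurableSet {x : Sp (n + 2) | |P.G x - 1| ≤ τ} :=
    measurableSet_le h0.measurable measurable_const
  exact isClosed_closedBall.measurableSet.inter (h1.inter h2)

/-- Integral of `ce'` over the region near the contact set. -/
lemma lintegral_region_le (hα : 0 < α) {n m : ℕ} {R : Set (Sp (n + 2))} (hR : MeasurableSet R)
    {b τ e : ℝ} (hb : 0 < b) (he : 0 < e) (y : Fin m → Sp (n + 2)) (r : Fin m → ℝ)
    (hr : ∀ k, 0 ≤ r k) (j : Fin (n + 2))
    (hreg : ∀ x ∈ R, P.ce' e (x j) ≠ 0 → ∃ k, ∃ i, i ≠ j ∧ x ∈ P.slabSet b τ (y k) (2 * r k) i) :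
    ∫⁻ x in R, ENNReal.ofReal (P.ce' e (x j))
      ≤ ∑ k, (n + 2 : ℕ) • (ENNReal.ofReal (2 * (τ / b)) * (ENNReal.ofReal (2 * (2 * r k)) ^ n
        * ENNReal.ofReal (P.L * (2 * (2 * r k)) ^ α))) := by
  classical
  set f : Sp (n + 2) → ℝ≥0∞ := fun x => ENNReal.ofReal (P.ce' e (x j)) with hf
  have hfm : Measurable f := by
    have h1 : Continuous fun x : Sp (n + 2) => P.ce' e (x j) :=
      (P.cont_ce' hα e).comp (by fun_prop)
    exact ENNReal.measurable_ofReal.comp h1.measurable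
  have hpt : ∀ x ∈ R, f x ≤ ∑ k, ∑ i ∈ Finset.univ.erase j,
      indicator (P.slabSet b τ (y k) (2 * r k) i) f x := by
    intro x hx
    by_cases h0 : P.ce' e (x j) = 0
    · have : f x = 0 := by simp [hf, h0]
      rw [this]
      exact zero_le
    · obtain ⟨k, i, hij, hxi⟩ := hreg x hx h0
      calc f x = indicator (P.slabSet b τ (y k) (2 * r k) i) f x := by
            rw [indicator_of_mem hxi]
        _ ≤ ∑ i ∈ Finset.univ.erase j, indicator (P.slabSet b τ (y k) (2 * r k) i) f x :=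
            Finset.single_le_sum (f := fun i => indicator (P.slabSet b τ (y k) (2 * r k) i) f x)
              (fun _ _ => zero_le) (Finset.mem_erase.2 ⟨hij, Finset.mem_univ i⟩)
        _ ≤ _ := Finset.single_le_sum (f := fun k => ∑ i ∈ Finset.univ.erase j,
              indicator (P.slabSet b τ (y k) (2 * r k) i) f x)
              (fun _ _ => zero_le) (Finset.mem_univ k)
  calc ∫⁻ x in R, f x ≤ ∫⁻ x in R, ∑ k, ∑ i ∈ Finset.univ.erase j,
        indicator (P.slabSet b τ (y k) (2 * r k) i) f x := setLIntegral_mono' hR hpt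
    _ ≤ ∫⁻ x, ∑ k, ∑ i ∈ Finset.univ.erase j,
        indicator (P.slabSet b τ (y k) (2 * r k) i) f x := setLIntegral_le_lintegral _ _
    _ = ∑ k, ∑ i ∈ Finset.univ.erase j,
        ∫⁻ x, indicator (P.slabSet b τ (y k) (2 * r k) i) f x := by
        rw [lintegral_finsetSum]
        · refine Finset.sum_congr rfl fun k _ => ?_
          rw [lintegral_finsetSum]
          intro i _
          exact hfm.indicator (P.measurableSet_slabSet hα _ _ _ _ _)
        · intro k _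
          refine Finset.measurable_fun_sum _ fun i _ => ?_
          exact hfm.indicator (P.measurableSet_slabSet hα _ _ _ _ _)
    _ ≤ ∑ k, ∑ i ∈ Finset.univ.erase j, (ENNReal.ofReal (2 * (τ / b))
          * (ENNReal.ofReal (2 * (2 * r k)) ^ n * ENNReal.ofReal (P.L * (2 * (2 * r k)) ^ α))) := by
        refine Finset.sum_le_sum fun k _ => Finset.sum_le_sum fun i hi => ?_
        rw [lintegral_indicator (P.measurableSet_slabSet hα _ _ _ _ _)]
        have h1 := P.slab hα i j (Finset.ne_of_mem_erase hi).symm (y k) (ρ := 2 * r k) (τ := τ) hb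
          (φ := fun t => ENNReal.ofReal (P.ce' e t))
          (ENNReal.measurable_ofReal.comp (P.cont_ce' hα e).measurable)
        refine h1.trans ?_
        refine mul_le_mul_right (mul_le_mul_right ?_ _) _
        have h2 := P.lintegral_ce'_le hα (e := e) (a := (y k) j - 2 * r k)
          (b := (y k) j + 2 * r k) he (by linarith [hr k])
        rwa [show (y k) j + 2 * r k - ((y k) j - 2 * r k) = 2 * (2 * r k) by ring] at h2
    _ ≤ _ := by
        refine Finset.sum_le_sum fun k _ => ?_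
        rw [Finset.sum_const, Finset.card_erase_of_mem (Finset.mem_univ j), Finset.card_univ,
          Fintype.card_fin]
        exact nsmul_le_nsmul_left zero_le (by omega)

/-- Volume of the region near the contact set. -/
lemma volume_region_le (hα : 0 < α) {n m : ℕ} {R : Set (Sp (n + 2))}
    {b τ : ℝ} (hb : 0 < b) (y : Fin m → Sp (n + 2)) (r : Fin m → ℝ)
    (hreg : ∀ x ∈ R, ∃ k, ∃ i, x ∈ P.slabSet b τ (y k) (2 * r k) i) :
    volume R ≤ ∑ k, (n + 2 : ℕ) • (ENNReal.ofReal (2 * (τ / b))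
      * (ENNReal.ofReal (2 * (2 * r k)) ^ n * ENNReal.ofReal (2 * (2 * r k)))) := by
  classical
  have hsub : R ⊆ ⋃ k, ⋃ i, P.slabSet b τ (y k) (2 * r k) i := by
    intro x hx
    obtain ⟨k, i, hxi⟩ := hreg x hx
    exact mem_iUnion.2 ⟨k, mem_iUnion.2 ⟨i, hxi⟩⟩
  calc volume R ≤ volume (⋃ k, ⋃ i, P.slabSet b τ (y k) (2 * r k) i) := measure_mono hsub
    _ ≤ ∑ k, volume (⋃ i, P.slabSet b τ (y k) (2 * r k) i) := measure_iUnion_fintype_le _ _
    _ ≤ ∑ k, ∑ i, volume (P.slabSet b τ (y k) (2 * r k) i) :=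
        Finset.sum_le_sum fun k _ => measure_iUnion_fintype_le _ _
    _ ≤ ∑ k, ∑ _i : Fin (n + 2), (ENNReal.ofReal (2 * (τ / b))
      * (ENNReal.ofReal (2 * (2 * r k)) ^ n * ENNReal.ofReal (2 * (2 * r k)))) := by
        refine Finset.sum_le_sum fun k _ => Finset.sum_le_sum fun i _ => ?_
        obtain ⟨j, hj⟩ := exists_ne i
        have h1 := P.slab hα i j hj (y k) (ρ := 2 * r k) (τ := τ) hb
          (φ := fun _ => (1 : ℝ≥0∞)) measurable_const
        rw [setLIntegral_one, setLIntegral_one, Real.volume_Icc,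
          show (y k) j + 2 * r k - ((y k) j - 2 * r k) = 2 * (2 * r k) by ring] at h1
        exact h1
    _ = _ := by
        refine Finset.sum_congr rfl fun k _ => ?_
        rw [Finset.sum_const, Finset.card_univ, Fintype.card_fin]

/-- **Core inequality.** -/
theorem core (hα : 0 < α) (hα1 : α ≤ 1) (n : ℕ) {h : ℝ} (hh : 0 ≤ h) :
    ∃ C : ℝ, 0 ≤ C ∧ ∀ E : Set (Sp (n + 2)), MeasurableSet E → E ⊆ P.Omega (n + 2) →
      volume E ≠ ⊤ → perimeter E ≠ ⊤ → (perimeter E).toReal = h * (volume E).toReal →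
      (∀ F ⊆ P.Omega (n + 2), MeasurableSet F → perimeter F ≠ ⊤ →
        h * (volume F).toReal ≤ (perimeter F).toReal) →
      ∀ (m : ℕ) (y : Fin m → Sp (n + 2)) (r : Fin m → ℝ) (τ0 : ℝ), (∀ k, 0 < r k) →
        (∀ k, r k ≤ 1) → 0 < τ0 →
        (∀ x ∈ E, 1 - τ0 < P.G x → ∃ k, x ∈ ball (y k) (r k)) →
        h * (volume E).toReal ≤ C * ∑ k, (r k) ^ ((n : ℝ) + α) := by
  classical
  obtain ⟨γ, hγ, hγ4, e1, he1, hγe⟩ := P.exists_gamma hα
  have hA := P.A_pos
  have hL := P.L_nonneg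
  set D : ℝ := ((n + 2 : ℕ) : ℝ) with hD
  have hDpos : 0 < D := by positivity
  set b : ℝ := √(γ / ((1 + P.A) * D)) with hbdef
  have hb : 0 < b := Real.sqrt_pos.2 (by positivity)
  have hb2 : (1 + P.A) * b ^ 2 * (n + 2) = γ := by
    rw [hbdef, Real.sq_sqrt (by positivity), hD]
    push_cast
    field_simp
  set μ : ℝ := √(1 / (2 * (1 + P.A))) with hμdef
  have hμ : 0 < μ := Real.sqrt_pos.2 (by positivity)
  have hμ2 : (1 + P.A) * μ ^ 2 = 1 / 2 := by
    rw [hμdef, Real.sq_sqrt (by positivity)]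
    field_simp
  set C1 : ℝ := D * (4 * (1 + P.A)) + 2 with hC1
  have hC1pos : 0 < C1 := by positivity
  set C2 : ℝ := 2 * P.A * μ⁻¹ * (D * (D * (2 * (C1 / b) * 4 ^ (n + 1) * P.L))) with hC2
  set C3 : ℝ := D * (2 * (C1 / b) * 4 ^ (n + 1)) with hC3
  have hC2' : 0 ≤ C2 := by positivity
  have hC3' : 0 ≤ C3 := by positivity
  refine ⟨C2 + h * C3, by positivity, ?_⟩
  intro E hEm hEΩ hvol hper heq hmin m y r τ0 hr hr1 hτ0 hcov
  -- choose `t`
  obtain ⟨t, ht0, ht8, htr, htγ, htτ⟩ : ∃ t : ℝ, 0 < t ∧ t ≤ 1 / 8 ∧ (∀ k, t ≤ r k) ∧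
      C1 * t ≤ γ ∧ C1 * t ≤ τ0 := by
    have h1 : ∀ᶠ t : ℝ in 𝓝[>] 0, t ≤ 1 / 8 :=
      mem_nhdsWithin_of_mem_nhds (Iic_mem_nhds (by norm_num))
    have h2 : ∀ᶠ t : ℝ in 𝓝[>] 0, ∀ k, t ≤ r k := by
      rw [eventually_all]
      exact fun k => mem_nhdsWithin_of_mem_nhds (Iic_mem_nhds (hr k))
    have h3 : Tendsto (fun t : ℝ => C1 * t) (𝓝[>] 0) (𝓝 0) := by
      have : Tendsto (fun t : ℝ => C1 * t) (𝓝 0) (𝓝 (C1 * 0)) :=
        (continuous_const.mul continuous_id).tendsto 0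
      rw [mul_zero] at this
      exact this.mono_left nhdsWithin_le_nhds
    have h4 := h3.eventually_le_const hγ
    have h5 := h3.eventually_le_const hτ0
    obtain ⟨t, ⟨⟨⟨⟨a1, a2⟩, a3⟩, a4⟩, a5⟩⟩ :=
      ((((h1.and h2).and h4).and h5).and self_mem_nhdsWithin).exists
    exact ⟨t, a5, a1, a2, a3, a4⟩
  -- choose `e`
  obtain ⟨e, he, hee1, het, heμ⟩ : ∃ e : ℝ, 0 < e ∧ e ≤ e1 ∧
      D * (2 * P.A * (P.L * e ^ α * 2)) ≤ t / 2 ∧ D * (2 * P.A * (P.L * e ^ α)) ≤ μ := by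
    have h1 : ∀ᶠ e : ℝ in 𝓝[>] 0, e ≤ e1 := mem_nhdsWithin_of_mem_nhds (Iic_mem_nhds he1)
    have h0 : Tendsto (fun e : ℝ => e ^ α) (𝓝[>] 0) (𝓝 0) := by
      have : Tendsto (fun e : ℝ => e ^ α) (𝓝 0) (𝓝 (0 ^ α)) :=
        (Real.continuousAt_rpow_const 0 α (Or.inr hα.le)).tendsto
      rw [Real.zero_rpow hα.ne'] at this
      exact this.mono_left nhdsWithin_le_nhds
    have h2 : Tendsto (fun e : ℝ => D * (2 * P.A * (P.L * e ^ α * 2))) (𝓝[>] 0) (𝓝 0) := by
      have := (((h0.const_mul P.L).mul_const 2).const_mul (2 * P.A)).const_mul D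
      simpa using this
    have h3 : Tendsto (fun e : ℝ => D * (2 * P.A * (P.L * e ^ α))) (𝓝[>] 0) (𝓝 0) := by
      have := ((h0.const_mul P.L).const_mul (2 * P.A)).const_mul D
      simpa using this
    have h4 := h2.eventually_le_const (by linarith : (0 : ℝ) < t / 2)
    have h5 := h3.eventually_le_const hμ
    obtain ⟨e, ⟨⟨⟨a1, a2⟩, a3⟩, a4⟩⟩ := (((h1.and h4).and h5).and self_mem_nhdsWithin).exists
    exact ⟨e, a4, a1, a2, a3⟩
  set lam : ℝ := 1 + t with hlam
  have hlam0 : 0 < lam := by linarith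
  set τ : ℝ := C1 * t with hτ
  set E' : Set (Sp (n + 2)) := lam • E with hE'
  have hE'm : MeasurableSet E' := hEm.const_smul_of_ne_zero hlam0.ne'
  have hE'vol : volume E' = ENNReal.ofReal (lam ^ (n + 2)) * volume E := by
    rw [hE', Measure.addHaar_smul_of_nonneg _ hlam0.le, finrank_euclideanSpace_fin]
  have hE'fin : volume E' ≠ ⊤ := by
    rw [hE'vol]
    exact ENNReal.mul_ne_top ENNReal.ofReal_ne_top hvol
  have hE'perle : perimeter E' ≤ ENNReal.ofReal (lam ^ (n + 1) * (perimeter E).toReal) :=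
    perimeter_smul_le (d := n + 1) hper hlam0
  have hE'per : perimeter E' ≠ ⊤ := ne_top_of_le_ne_top ENNReal.ofReal_ne_top hE'perle
  have hE'perR : (perimeter E').toReal ≤ lam ^ (n + 1) * (perimeter E).toReal := by
    have := ENNReal.toReal_mono ENNReal.ofReal_ne_top hE'perle
    rwa [ENNReal.toReal_ofReal (by positivity)] at this
  -- facts on points of `E'`
  have hEball : ∀ z ∈ E, ‖z‖ < 1 := by
    intro z hz
    have h1 : P.G z < 1 := hEΩ hz
    have h2 := P.sq_norm_le_G hα z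
    have h3 : ‖z‖ ^ 2 < 1 ^ 2 := by rw [one_pow]; linarith
    exact lt_of_pow_lt_pow_left₀ 2 zero_le_one h3
  have hE'pt : ∀ x ∈ E', ∃ z ∈ E, ‖x - z‖ ≤ t ∧ ‖x‖ < 2 ∧ ‖z‖ < 1 := by
    intro x hx
    obtain ⟨z, hz, rfl⟩ := hx
    have h1 := hEball z hz
    refine ⟨z, hz, ?_, ?_, h1⟩
    · have : lam • z - z = t • z := by rw [hlam, add_smul, one_smul]; abel
      simp only [this, norm_smul, Real.norm_of_nonneg ht0.le]
      nlinarith
    · simp only [norm_smul, Real.norm_of_nonneg hlam0.le]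
      nlinarith [norm_nonneg z]
  have hGe : ∀ x : Sp (n + 2), ‖x‖ ≤ 2 → |P.Ge e x - P.G x| ≤ t / 2 := fun x hx =>
    (P.abs_Ge_sub_G_le hα he hx).trans (by rw [← hD]; exact het)
  -- the open set, the field
  set U : Set (Sp (n + 2)) := {x | ‖x‖ < 3 ∧ 1 / 2 < P.G x} with hU
  have hGc := P.continuous_GL (d := n + 2) hα
  have hUo : IsOpen U := by
    have h1 : IsOpen {x : Sp (n + 2) | ‖x‖ < 3} := isOpen_lt continuous_norm continuous_const
    have h2 : IsOpen {x : Sp (n + 2) | 1 / 2 < P.G x} := isOpen_lt continuous_const hGc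
    exact h1.inter h2
  have hwlow : ∀ x ∈ U, μ ≤ ‖P.wL e x‖ := by
    intro x hx
    have h1 := P.G_le_sq_norm x
    have h2 : μ ^ 2 ≤ ‖x‖ ^ 2 := by
      have h3 : (1 + P.A) * μ ^ 2 ≤ (1 + P.A) * ‖x‖ ^ 2 := by rw [hμ2]; linarith [hx.2]
      exact le_of_mul_le_mul_left h3 (by positivity)
    have h3 : μ ≤ ‖x‖ := le_of_sq_le_sq h2 (norm_nonneg _)
    have h4 := P.norm_grad_ge x
    have h5 := P.norm_wL_sub_grad_le hα he x
    rw [← hD] at h5
    have h6 : ‖P.grad x‖ ≤ ‖P.wL e x‖ + ‖P.wL e x - P.grad x‖ := by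
      have := norm_sub_le (P.wL e x) (P.wL e x - P.grad x)
      rwa [sub_sub_cancel] at this
    linarith
  have hwne : ∀ x ∈ U, P.wL e x ≠ 0 := fun x hx => norm_pos_iff.1 (hμ.trans_le (hwlow x hx))
  set X : Sp (n + 2) → Sp (n + 2) := fun x => ‖P.wL e x‖⁻¹ • P.wL e x with hX
  have hwC := P.contDiff_wL (d := n + 2) hα e
  have hXC : ContDiffOn ℝ 1 X U := by
    intro x hx
    refine ContDiffAt.contDiffWithinAt ?_
    have h2 : ContDiffAt ℝ 1 (fun y => ‖P.wL e y‖) x := hwC.contDiffAt.norm ℝ (hwne x hx)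
    exact (h2.inv (norm_ne_zero_iff.2 (hwne x hx))).smul hwC.contDiffAt
  have hXnorm : ∀ x ∈ U, ‖X x‖ = 1 := by
    intro x hx
    simp only [hX, norm_smul, norm_inv, norm_norm]
    exact inv_mul_cancel₀ (norm_ne_zero_iff.2 (hwne x hx))
  have hgrad : ∀ x ∈ U, ∃ k : ℝ, 0 ≤ k ∧ ∀ v, fderiv ℝ (P.Ge e) x v = k * inner ℝ (X x) v := by
    intro x hx
    refine ⟨‖P.wL e x‖, norm_nonneg _, fun v => ?_⟩
    rw [(P.hasFDerivAt_Ge hα e x).fderiv]
    simp only [hX, innerSL_apply_apply, inner_smul_left, conj_trivial]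
    rw [← mul_assoc, mul_inv_cancel₀ (norm_ne_zero_iff.2 (hwne x hx)), one_mul]
  -- the cut-off
  obtain ⟨ψ, hψC, hψc, hψ0, hψ1, hψK, hψU⟩ : ∃ ψ : Sp (n + 2) → ℝ, ContDiff ℝ 1 ψ ∧
      HasCompactSupport ψ ∧ (∀ x, 0 ≤ ψ x) ∧ (∀ x, ψ x ≤ 1) ∧
      (∀ x, ‖x‖ ≤ 2 → 3 / 4 ≤ P.G x → ψ x = 1) ∧ tsupport ψ ⊆ U := by
    have hK : IsCompact {x : Sp (n + 2) | ‖x‖ ≤ 2 ∧ 3 / 4 ≤ P.G x} := by
      have h1 : {x : Sp (n + 2) | ‖x‖ ≤ 2 ∧ 3 / 4 ≤ P.G x}
          = closedBall 0 2 ∩ {x | 3 / 4 ≤ P.G x} := by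
        ext x; simp
      rw [h1]
      exact (isCompact_closedBall _ _).inter_right (isClosed_le continuous_const hGc)
    have hKU : {x : Sp (n + 2) | ‖x‖ ≤ 2 ∧ 3 / 4 ≤ P.G x} ⊆ U := by
      rintro x ⟨h1, h2⟩
      exact ⟨by linarith, by linarith⟩
    obtain ⟨V, hVo, hKV, hVU, -⟩ := exists_open_between_and_isCompact_closure hK hUo hKU
    obtain ⟨ψ, h1, h2, h3, h4, h5, h6⟩ := exists_cutoff hK hVo hKV
    refine ⟨ψ, h1, h2, h3, h4, fun x a b => h5 x ⟨a, b⟩, ?_⟩
    refine (closure_mono fun x hx => ?_).trans hVU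
    by_contra hcon
    exact hx (h6 x hcon)
  have hcut : ∀ x ∈ ball (0 : Sp (n + 2)) 2, x ∈ U → 1 - t < P.Ge e x → ψ x = 1 := by
    intro x hx hxU hxt
    have hx2 : ‖x‖ ≤ 2 := by simpa using (mem_ball.1 hx).le
    have h1 := abs_le.1 (hGe x hx2)
    exact hψK x hx2 (by linarith)
  have hE'W : E' ⊆ ball (0 : Sp (n + 2)) 2 := by
    intro x hx
    obtain ⟨z, -, -, h1, -⟩ := hE'pt x hx
    simpa using h1
  have hcutP := cut_perimeter (W := ball (0 : Sp (n + 2)) 2) (U := U) (u := P.Ge e) (lam := ψ)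
    (X := X) (s := 1 - t) hE'm hE'fin hE'W hE'per hUo (P.contDiff_Ge hα e).contDiffOn hXC hψC hψc
    hψ0 hψ1 hψU hXnorm hgrad hcut
  have hcutI := cut_integral (W := ball (0 : Sp (n + 2)) 2) (U := U) (u := P.Ge e) (lam := ψ)
    (X := X) (s := 1 - t) hE'm hE'fin hE'W hE'per hUo (P.contDiff_Ge hα e).contDiffOn hXC hψC hψc
    hψ0 hψ1 hψU hXnorm hgrad hcut testField_zero'
  set N : Set (Sp (n + 2)) := {x | x ∈ U ∧ 1 - t < P.Ge e x} with hN
  have hNo : IsOpen N := by
    have h2 : IsOpen {x : Sp (n + 2) | 1 - t < P.Ge e x} :=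
      isOpen_lt continuous_const (P.contDiff_Ge hα e).continuous
    exact hUo.inter h2
  set R : Set (Sp (n + 2)) := E' ∩ N with hR
  have hRm : MeasurableSet R := hE'm.inter hNo.measurableSet
  have hRfin : volume R ≠ ⊤ := ne_top_of_le_ne_top hE'fin (measure_mono inter_subset_left)
  set F : Set (Sp (n + 2)) := E' \ N with hF
  have hFm : MeasurableSet F := hE'm.diff hNo.measurableSet
  have hFΩ : F ⊆ P.Omega (n + 2) := by
    rintro x ⟨hx, hxN⟩
    show P.G x < 1
    by_contra hcon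
    push Not at hcon
    obtain ⟨z, -, -, h1, -⟩ := hE'pt x hx
    have h2 : x ∈ U := ⟨by linarith, by linarith⟩
    have h3 : P.Ge e x ≤ 1 - t := by
      by_contra h4
      exact hxN ⟨h2, not_le.1 h4⟩
    have h4 := abs_le.1 (hGe x h1.le)
    linarith
  have hFper : perimeter F ≠ ⊤ := ne_top_of_le_ne_top ENNReal.ofReal_ne_top hcutP
  have hz0 : ∫ x in F, divg (fun _ => (0 : Sp (n + 2))) x = 0 := by
    have : ∀ x : Sp (n + 2), divg (fun _ => (0 : Sp (n + 2))) x = 0 := by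
      intro x; simp [divg]
    simp [this]
  rw [hz0, zero_add] at hcutI
  have hFperR : (perimeter F).toReal ≤ (perimeter E').toReal - ∫ x in R, divg X x := by
    have := ENNReal.toReal_mono ENNReal.ofReal_ne_top hcutP
    rwa [ENNReal.toReal_ofReal (by linarith)] at this
  -- geometry of the region
  have hRpt : ∀ x ∈ R, |P.G x - 1| ≤ τ ∧ ∃ k, x ∈ closedBall (y k) (2 * r k) := by
    rintro x ⟨hxE, hxU, hxt⟩
    obtain ⟨z, hz, hxz, hx2, hz1⟩ := hE'pt x hxE
    have h1 := abs_le.1 (hGe x hx2.le)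
    have h2 := P.abs_G_sub_le hα (x := x) (y := z) hx2.le (by linarith)
    have h3 : |P.G x - P.G z| ≤ D * (4 * (1 + P.A)) * t := by
      refine h2.trans ?_
      rw [← hD]
      have h33 : D * (4 * (1 + P.A)) * t = D * (4 * (1 + P.A) * t) := by ring
      rw [h33]
      exact mul_le_mul_of_nonneg_left (mul_le_mul_of_nonneg_left hxz (by positivity)) hDpos.le
    have h4 := abs_le.1 h3
    have h5 : P.G z < 1 := hEΩ hz
    have h6 : τ = D * (4 * (1 + P.A)) * t + 2 * t := by rw [hτ, hC1]; ring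
    refine ⟨abs_le.2 ⟨?_, ?_⟩, ?_⟩
    · have : 0 ≤ D * (4 * (1 + P.A)) * t := by positivity
      linarith
    · linarith
    · obtain ⟨k, hk⟩ := hcov z hz (by linarith)
      refine ⟨k, ?_⟩
      rw [mem_closedBall]
      have h7 : dist x z ≤ t := by rw [dist_eq_norm]; exact hxz
      have h8 : dist z (y k) < r k := hk
      have h9 := dist_triangle x z (y k)
      linarith [htr k]
  have hregV : ∀ x ∈ R, ∃ k, ∃ i, x ∈ P.slabSet b τ (y k) (2 * r k) i := by
    intro x hx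
    obtain ⟨h1, k, hk⟩ := hRpt x hx
    obtain ⟨i, hi⟩ := P.exists_big' hγ4 hb2 (x := x) (by linarith [(abs_le.1 h1).1])
    exact ⟨k, i, hk, hi, h1⟩
  have hregC : ∀ j, ∀ x ∈ R, P.ce' e (x j) ≠ 0 →
      ∃ k, ∃ i, i ≠ j ∧ x ∈ P.slabSet b τ (y k) (2 * r k) i := by
    intro j x hx hne
    obtain ⟨h1, k, hk⟩ := hRpt x hx
    have h2 : |x j| ≤ P.q + e1 := by
      by_contra hcon
      push Not at hcon
      exact hne (P.ce'_eq_zero he (by linarith))
    obtain ⟨i, hij, hi⟩ := P.exists_big hγ hb.le hb2 j (hγe _ h2) (by linarith [(abs_le.1 h1).1])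
    exact ⟨k, i, hij, hk, hi, h1⟩
  have hτ0' : 0 ≤ τ := by positivity
  -- real form of the estimates
  set S : ℝ := ∑ k, (r k) ^ ((n : ℝ) + α) with hS
  have hvolR : (volume R).toReal ≤ C3 * t * S := by
    have h1 := volume_region_le P hα hb y r hregV
    have h2 : ∀ k, (n + 2 : ℕ) • (ENNReal.ofReal (2 * (τ / b))
        * (ENNReal.ofReal (2 * (2 * r k)) ^ n * ENNReal.ofReal (2 * (2 * r k))))
        ≤ ENNReal.ofReal (C3 * t * (r k) ^ ((n : ℝ) + α)) := by
      intro k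
      have hrk := hr k
      rw [← ENNReal.ofReal_pow (by positivity), ← ENNReal.ofReal_mul (by positivity),
        ← ENNReal.ofReal_mul (by positivity), ← ENNReal.ofReal_nsmul]
      refine ENNReal.ofReal_le_ofReal ?_
      rw [nsmul_eq_mul, ← hD]
      have h3 : (r k) ^ (n + 1) ≤ (r k) ^ ((n : ℝ) + α) := by
        rw [← Real.rpow_natCast]
        refine Real.rpow_le_rpow_of_exponent_ge hrk (hr1 k) ?_
        push_cast
        linarith
      have h4 : D * (2 * (τ / b) * ((2 * (2 * r k)) ^ n * (2 * (2 * r k))))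
          = C3 * t * (r k) ^ (n + 1) := by
        rw [hC3, hτ, ← pow_succ, show 2 * (2 * r k) = 4 * r k by ring, mul_pow]
        ring
      rw [h4]
      exact mul_le_mul_of_nonneg_left h3 (by positivity)
    have h3 : volume R ≤ ENNReal.ofReal (C3 * t * S) := by
      refine h1.trans ((Finset.sum_le_sum fun k _ => h2 k).trans ?_)
      rw [← ENNReal.ofReal_sum_of_nonneg (fun k _ => by have := hr k; positivity), hS,
        Finset.mul_sum]
    have h4 := ENNReal.toReal_mono ENNReal.ofReal_ne_top h3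
    rwa [ENNReal.toReal_ofReal (by
      refine mul_nonneg (by positivity) (Finset.sum_nonneg fun k _ => ?_)
      have := hr k; positivity)] at h4
  have hintC : ∀ j, ∫ x in R, P.ce' e (x j) ≤ D * (2 * (C1 / b) * 4 ^ (n + 1) * P.L) * t * S := by
    intro j
    have h1 := P.lintegral_region_le hα hRm hb he y r (fun k => (hr k).le) j (hregC j)
    have h2 : ∀ k, (n + 2 : ℕ) • (ENNReal.ofReal (2 * (τ / b)) * (ENNReal.ofReal (2 * (2 * r k)) ^ n
        * ENNReal.ofReal (P.L * (2 * (2 * r k)) ^ α)))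
        ≤ ENNReal.ofReal (D * (2 * (C1 / b) * 4 ^ (n + 1) * P.L) * t * (r k) ^ ((n : ℝ) + α)) := by
      intro k
      have hrk := hr k
      rw [← ENNReal.ofReal_pow (by positivity), ← ENNReal.ofReal_mul (by positivity),
        ← ENNReal.ofReal_mul (by positivity), ← ENNReal.ofReal_nsmul]
      refine ENNReal.ofReal_le_ofReal ?_
      rw [nsmul_eq_mul, ← hD]
      have h3 : (4 : ℝ) ^ α ≤ 4 := by
        calc (4 : ℝ) ^ α ≤ 4 ^ (1 : ℝ) := Real.rpow_le_rpow_of_exponent_le (by norm_num) hα1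
          _ = 4 := Real.rpow_one 4
      have h4 : D * (2 * (τ / b) * ((2 * (2 * r k)) ^ n * (P.L * (2 * (2 * r k)) ^ α)))
          = D * (2 * (C1 / b) * (4 ^ n * 4 ^ α) * P.L) * t * (r k) ^ ((n : ℝ) + α) := by
        rw [hτ, show 2 * (2 * r k) = 4 * r k by ring, mul_pow,
          Real.mul_rpow (by norm_num) hrk.le, Real.rpow_add hrk, Real.rpow_natCast]
        ring
      rw [h4]
      have h5 : (4 : ℝ) ^ n * 4 ^ α ≤ 4 ^ (n + 1) := by
        rw [pow_succ]
        exact mul_le_mul_of_nonneg_left h3 (by positivity)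
      gcongr
    have h3 : ∫⁻ x in R, ENNReal.ofReal (P.ce' e (x j))
        ≤ ENNReal.ofReal (D * (2 * (C1 / b) * 4 ^ (n + 1) * P.L) * t * S) := by
      refine h1.trans ((Finset.sum_le_sum fun k _ => h2 k).trans ?_)
      rw [← ENNReal.ofReal_sum_of_nonneg (fun k _ => by have := hr k; positivity), hS,
        Finset.mul_sum]
    have hm : Continuous fun x : Sp (n + 2) => P.ce' e (x j) :=
      (P.cont_ce' hα e).comp (by fun_prop)
    rw [integral_eq_lintegral_of_nonneg_ae (Eventually.of_forall fun x => P.ce'_nonneg he _)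
      hm.aestronglyMeasurable]
    have h4 := ENNReal.toReal_mono ENNReal.ofReal_ne_top h3
    rwa [ENNReal.toReal_ofReal (by
      refine mul_nonneg (by positivity) (Finset.sum_nonneg fun k _ => ?_)
      have := hr k; positivity)] at h4
  -- integrals over `R`
  have hRK : R ⊆ {x : Sp (n + 2) | ‖x‖ ≤ 2 ∧ 3 / 4 ≤ P.G x} := by
    rintro x ⟨hxE, hxU, hxt⟩
    obtain ⟨z, -, -, hx2, -⟩ := hE'pt x hxE
    have h1 := abs_le.1 (hGe x hx2.le)
    exact ⟨hx2.le, by linarith⟩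
  have hKc : IsCompact {x : Sp (n + 2) | ‖x‖ ≤ 2 ∧ 3 / 4 ≤ P.G x} := by
    have h1 : {x : Sp (n + 2) | ‖x‖ ≤ 2 ∧ 3 / 4 ≤ P.G x}
        = closedBall 0 2 ∩ {x | 3 / 4 ≤ P.G x} := by
      ext x; simp
    rw [h1]
    exact (isCompact_closedBall _ _).inter_right (isClosed_le continuous_const hGc)
  have hKU : {x : Sp (n + 2) | ‖x‖ ≤ 2 ∧ 3 / 4 ≤ P.G x} ⊆ U := by
    rintro x ⟨h1, h2⟩
    exact ⟨by linarith, by linarith⟩
  have hintX : IntegrableOn (divg X) R :=
    (((continuousOn_divg hUo hXC).mono hKU).integrableOn_compact hKc).mono_set hRK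
  have hceint : ∀ j, IntegrableOn (fun x : Sp (n + 2) => P.ce' e (x j)) R := by
    intro j
    have hm : Continuous fun x : Sp (n + 2) => P.ce' e (x j) :=
      (P.cont_ce' hα e).comp (by fun_prop)
    exact (hm.continuousOn.integrableOn_compact hKc).mono_set hRK
  have hX2 : - ∫ x in R, divg X x ≤ C2 * t * S := by
    have h1 : ∀ x ∈ R, - divg X x ≤ (2 * P.A) * μ⁻¹ * ∑ i, P.ce' e (x i) := by
      intro x hx
      have hxU : x ∈ U := hx.2.1
      have h2 := P.divg_X_ge hα he (hwne x hxU)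
      have h3 : ‖P.wL e x‖⁻¹ ≤ μ⁻¹ := inv_anti₀ hμ (hwlow x hxU)
      have h4 : 0 ≤ ∑ i, P.ce' e (x i) := Finset.sum_nonneg fun i _ => P.ce'_nonneg he _
      have h5 : (2 * P.A) * ‖P.wL e x‖⁻¹ * ∑ i, P.ce' e (x i)
          ≤ (2 * P.A) * μ⁻¹ * ∑ i, P.ce' e (x i) := by gcongr
      linarith
    have h2 : ∫ x in R, - divg X x ≤ ∫ x in R, (2 * P.A) * μ⁻¹ * ∑ i, P.ce' e (x i) := by
      refine setIntegral_mono_on hintX.neg ?_ hRm h1
      exact (integrable_finsetSum _ fun i _ => hceint i).const_mul _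
    rw [integral_neg, integral_const_mul, integral_finsetSum _ fun i _ => hceint i] at h2
    refine h2.trans ?_
    have h3 : ∑ i : Fin (n + 2), ∫ x in R, P.ce' e (x i)
        ≤ D * (D * (2 * (C1 / b) * 4 ^ (n + 1) * P.L) * t * S) := by
      refine (Finset.sum_le_sum fun i _ => hintC i).trans (le_of_eq ?_)
      rw [Finset.sum_const, Finset.card_univ, Fintype.card_fin, nsmul_eq_mul, ← hD]
    calc 2 * P.A * μ⁻¹ * ∑ i : Fin (n + 2), ∫ x in R, P.ce' e (x i)
        ≤ 2 * P.A * μ⁻¹ * (D * (D * (2 * (C1 / b) * 4 ^ (n + 1) * P.L) * t * S)) :=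
          mul_le_mul_of_nonneg_left h3 (by positivity)
      _ = C2 * t * S := by rw [hC2]; ring
  -- conclusion
  have hmF := hmin F hFΩ hFm hFper
  have hvolF : (volume F).toReal = lam ^ (n + 2) * (volume E).toReal - (volume R).toReal := by
    have h1 : volume R + volume F = volume E' := measure_inter_add_sdiff E' hNo.measurableSet
    have h2 : (volume R).toReal + (volume F).toReal = (volume E').toReal := by
      rw [← h1, ENNReal.toReal_add hRfin
        (ne_top_of_le_ne_top hE'fin (measure_mono sdiff_subset))]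
    have h3 : (volume E').toReal = lam ^ (n + 2) * (volume E).toReal := by
      rw [hE'vol, ENNReal.toReal_mul, ENNReal.toReal_ofReal (by positivity)]
    linarith
  set v : ℝ := (volume E).toReal with hv
  have hv0 : 0 ≤ v := ENNReal.toReal_nonneg
  have hS0 : 0 ≤ S := Finset.sum_nonneg fun k _ => by have := hr k; positivity
  have hfin : h * (lam ^ (n + 2) * v) ≤ lam ^ (n + 1) * (h * v) + (C2 + h * C3) * t * S := by
    have h1 : h * (lam ^ (n + 2) * v - (volume R).toReal) ≤ (perimeter F).toReal := by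
      rw [← hvolF]; exact hmF
    have h2 : h * (volume R).toReal ≤ h * (C3 * t * S) := mul_le_mul_of_nonneg_left hvolR hh
    rw [heq] at hE'perR
    nlinarith
  have h5 : h * v * t ≤ (C2 + h * C3) * S * t := by
    have h6 : h * (lam ^ (n + 2) * v) - lam ^ (n + 1) * (h * v) = lam ^ (n + 1) * (h * v * t) := by
      rw [hlam]; ring
    have h7 : 1 ≤ lam ^ (n + 1) := one_le_pow₀ (by linarith)
    have h8 : h * v * t ≤ lam ^ (n + 1) * (h * v * t) := by
      have : 0 ≤ h * v * t := by positivity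
      nlinarith
    nlinarith
  exact le_of_mul_le_mul_right h5 ht0

end Profile

end MP_fd31a8_an
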