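import Mathlib
import Pool.Agent.Lib.MP_fd31a8_an.LowerD
import Pool.Agent.Lib.MP_fd31a8_an.Domain
import Pool.Agent.Lib.MP_fd31a8_an.Fub

/-!
# The lower bound for the dimension of the contact set
-/

open MeasureTheory Set Filter Metric
open scoped ENNReal NNReal Topology Pointwise

namespace MP_fd31a8_an

variable {d : ℕ}

/-- the set of points around which `E` is null -/
def nullPts (E : Set (Sp d)) : Set (Sp d) := {z | ∃ ρ > 0, volume (E ∩ ball z ρ) = 0}

lemma isOpen_nullPts (E : Set (Sp d)) : IsOpen (nullPts E) := by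
  rw [Metric.isOpen_iff]
  rintro z ⟨ρ, hρ, h⟩
  refine ⟨ρ / 2, by linarith, fun w hw => ⟨ρ / 2, by linarith, ?_⟩⟩
  refine measure_mono_null (inter_subset_inter_right _ ?_) h
  intro x hx
  rw [mem_ball] at *
  have := dist_triangle x w z
  linarith

lemma volume_inter_nullPts (E : Set (Sp d)) : volume (E ∩ nullPts E) = 0 := by
  refine measure_null_of_locally_null _ fun x hx => ?_
  obtain ⟨ρ, hρ, h⟩ := hx.2
  refine ⟨(E ∩ nullPts E) ∩ ball x ρ, inter_mem_nhdsWithin _ (ball_mem_nhds x hρ), ?_⟩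
  exact measure_mono_null (inter_subset_inter_left _ inter_subset_left) h

/-- a perimeter-free set of positive volume inside the unit ball does not exist -/
lemma perimeter_pos {E : Set (Sp (d + 1))} (hEm : MeasurableSet E)
    (hE1 : E ⊆ ball 0 1) (hv0 : volume E ≠ 0) : perimeter E ≠ 0 := by
  intro hP
  have hβ : volume (ball (0 : Sp (d + 1)) 1) ≠ ⊤ := measure_ball_lt_top.ne
  have hβ0 : volume (ball (0 : Sp (d + 1)) 1) ≠ 0 := (measure_ball_pos _ _ one_pos).ne'
  have hle : volume E ≤ volume (ball (0 : Sp (d + 1)) 1) := measure_mono hE1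
  have hEv : volume E ≠ ⊤ := ne_top_of_le_ne_top hβ hle
  have h1 := volume_lower_bound hEm hEv hv0 (c := 1 / 6) (by norm_num) (by rw [hP]; exact zero_le)
  have h2 : volume (closedBall (0 : Sp (d + 1)) (1 / (2 * (1 / 6))))
      = ENNReal.ofReal (3 ^ (d + 1)) * volume (ball (0 : Sp (d + 1)) 1) := by
    rw [Measure.addHaar_closedBall _ _ (by norm_num), finrank_euclideanSpace_fin]
    norm_num
  rw [h2] at h1
  have h3 : ENNReal.ofReal (3 ^ (d + 1)) * volume (ball (0 : Sp (d + 1)) 1)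
      ≤ 2 * volume (ball (0 : Sp (d + 1)) 1) := h1.trans (by gcongr)
  have h4 : ENNReal.ofReal (3 ^ (d + 1)) ≤ 2 := by
    by_contra hcon
    push Not at hcon
    exact absurd h3 (not_le.2 (ENNReal.mul_lt_mul_left hβ0 hβ hcon))
  have h5 : (2 : ℝ≥0∞) = ENNReal.ofReal 2 := by simp
  rw [h5, ENNReal.ofReal_le_ofReal_iff (by norm_num)] at h4
  have h6 : (3 : ℝ) ≤ 3 ^ (d + 1) := by
    calc (3 : ℝ) = 3 ^ 1 := by norm_num
      _ ≤ 3 ^ (d + 1) := pow_le_pow_right₀ (by norm_num) (by omega)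
  linarith

lemma sum_half (m : ℕ) : ∑ k ∈ Finset.range m, (1 / 2 : ℝ) ^ (k + 1) = 1 - (1 / 2) ^ m := by
  induction m with
  | zero => simp
  | succ m ih => rw [Finset.sum_range_succ, ih, pow_succ]; ring

namespace Profile

variable {α : ℝ} (P : Profile α)

theorem hausdorff_contact_ne_zero (h0 : 0 < α) (h1 : α ≤ 1) (n : ℕ)
    {E : Set (Sp (n + 2))} (hEm : MeasurableSet E)
    (hEΩ : E ⊆ P.Omega (n + 2)) (hv0 : 0 < volume E) (hv : volume E ≠ ⊤) (hp : perimeter E ≠ ⊤)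
    {h : ℝ} (hh : 0 ≤ h) (heq : (perimeter E).toReal = h * (volume E).toReal)
    (hmin : ∀ F ⊆ P.Omega (n + 2), MeasurableSet F → perimeter F ≠ ⊤ →
      h * (volume F).toReal ≤ (perimeter F).toReal) :
    μH[(n : ℝ) + α] (essBoundary E ∩ frontier (P.Omega (n + 2))) ≠ 0 := by
  classical
  intro hzero
  set s : ℝ := (n : ℝ) + α with hs
  have hs0 : 0 < s := by positivity
  obtain ⟨C, hC, hcore⟩ := P.core h0 h1 n hh
  -- positivity of `h v`
  have hvpos : 0 < (volume E).toReal := ENNReal.toReal_pos hv0.ne' hv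
  have hppos : 0 < (perimeter E).toReal :=
    ENNReal.toReal_pos (perimeter_pos hEm (hEΩ.trans P.Omega_subset_ball) hv0.ne') hp
  have hhv : 0 < h * (volume E).toReal := by rw [← heq]; exact hppos
  obtain ⟨ε, hε, hεC⟩ : ∃ ε : ℝ, 0 < ε ∧ C * (2 * ε) < h * (volume E).toReal := by
    have h3 : Tendsto (fun ε : ℝ => C * (2 * ε)) (𝓝[>] 0) (𝓝 0) := by
      have : Tendsto (fun ε : ℝ => C * (2 * ε)) (𝓝 0) (𝓝 (C * (2 * 0))) :=
        (continuous_const.mul (continuous_const.mul continuous_id)).tendsto 0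
      rw [mul_zero, mul_zero] at this
      exact this.mono_left nhdsWithin_le_nhds
    obtain ⟨ε, a, b⟩ := ((h3.eventually_lt_const hhv).and self_mem_nhdsWithin).exists
    exact ⟨ε, b, a⟩
  set Z := essBoundary E ∩ frontier (P.Omega (n + 2)) with hZ
  -- the cover
  obtain ⟨T, hZT, hTd, hTsum⟩ : ∃ T : ℕ → Set (Sp (n + 2)), Z ⊆ ⋃ j, T j ∧
      (∀ j, ediam (T j) ≤ ENNReal.ofReal (1 / 2)) ∧
      ∑' j, ⨆ _ : (T j).Nonempty, ediam (T j) ^ s < ENNReal.ofReal ε := by
    rw [Measure.hausdorffMeasure_apply] at hzero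
    have h2 := (iSup₂_eq_bot.1 hzero) (ENNReal.ofReal (1 / 2)) (by simp)
    have h3 : (⨅ (t : ℕ → Set (Sp (n + 2))) (_ : Z ⊆ ⋃ n, t n)
        (_ : ∀ n, ediam (t n) ≤ ENNReal.ofReal (1 / 2)),
        ∑' n, ⨆ _ : (t n).Nonempty, ediam (t n) ^ s) < ENNReal.ofReal ε := by
      rw [h2]
      exact ENNReal.ofReal_pos.2 hε
    simp only [iInf_lt_iff] at h3
    obtain ⟨T, a, b, c⟩ := h3
    exact ⟨T, a, b, c⟩
  set δ : ℕ → ℝ := fun j => (ediam (T j)).toReal with hδ
  have hδ0 : ∀ j, 0 ≤ δ j := fun j => ENNReal.toReal_nonneg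
  have hdtop : ∀ j, ediam (T j) ≠ ⊤ := fun j =>
    ne_top_of_le_ne_top ENNReal.ofReal_ne_top (hTd j)
  have hδ12 : ∀ j, δ j ≤ 1 / 2 := by
    intro j
    have := ENNReal.toReal_mono ENNReal.ofReal_ne_top (hTd j)
    rwa [ENNReal.toReal_ofReal (by norm_num)] at this
  have hterm : ∀ j, ENNReal.ofReal (δ j ^ s) ≤ ⨆ _ : (T j).Nonempty, ediam (T j) ^ s := by
    intro j
    rcases (T j).eq_empty_or_nonempty with he | hne
    · have : δ j = 0 := by simp [hδ, he]
      rw [this, Real.zero_rpow hs0.ne', ENNReal.ofReal_zero]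
      exact zero_le
    · refine le_iSup_of_le hne (le_of_eq ?_)
      rw [← ENNReal.ofReal_rpow_of_nonneg (hδ0 j) hs0.le, hδ, ENNReal.ofReal_toReal (hdtop j)]
  have hfinsum : ∀ F : Finset ℕ, ∑ j ∈ F, δ j ^ s ≤ ε := by
    intro F
    have h2 : ∑ j ∈ F, ENNReal.ofReal (δ j ^ s) ≤ ENNReal.ofReal ε :=
      ((Finset.sum_le_sum fun j _ => hterm j).trans (ENNReal.sum_le_tsum F)).trans hTsum.le
    rw [← ENNReal.ofReal_sum_of_nonneg (fun j _ => Real.rpow_nonneg (hδ0 j) _)] at h2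
    exact (ENNReal.ofReal_le_ofReal_iff hε.le).1 h2
  -- radii
  have hrad : ∀ j, ∃ ρ : ℝ, δ j < ρ ∧ ρ ≤ 1 ∧ ρ ^ s ≤ δ j ^ s + ε * (1 / 2) ^ (j + 1) := by
    intro j
    have h2 : Tendsto (fun ρ : ℝ => ρ ^ s) (𝓝[>] (δ j)) (𝓝 (δ j ^ s)) :=
      (Real.continuousAt_rpow_const _ _ (Or.inr hs0.le)).tendsto.mono_left nhdsWithin_le_nhds
    have h3 : δ j ^ s < δ j ^ s + ε * (1 / 2) ^ (j + 1) := by
      have : 0 < ε * (1 / 2 : ℝ) ^ (j + 1) := by positivity
      linarith
    have h4 : ∀ᶠ ρ : ℝ in 𝓝[>] (δ j), ρ ≤ 1 :=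
      mem_nhdsWithin_of_mem_nhds (Iic_mem_nhds (by linarith [hδ12 j]))
    obtain ⟨ρ, ⟨a, b⟩, c⟩ := (((h2.eventually_le_const h3).and h4).and self_mem_nhdsWithin).exists
    exact ⟨ρ, c, b, a⟩
  choose ρ hρ1 hρ2 hρ3 using hrad
  have hρ0 : ∀ j, 0 < ρ j := fun j => (hδ0 j).trans_lt (hρ1 j)
  have hctr : ∀ j, ∃ c : Sp (n + 2), T j ⊆ ball c (ρ j) := by
    intro j
    rcases (T j).eq_empty_or_nonempty with he | ⟨c, hc⟩
    · exact ⟨0, by rw [he]; exact empty_subset _⟩
    · refine ⟨c, fun x hx => ?_⟩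
      rw [mem_ball]
      refine lt_of_le_of_lt ?_ (hρ1 j)
      have h2 : edist x c ≤ ediam (T j) := edist_le_ediam_of_mem hx hc
      rw [dist_edist]
      exact ENNReal.toReal_mono (hdtop j) h2
  choose ctr hctr using hctr
  -- the open cover of the boundary
  set V := nullPts E with hV
  have hVo : IsOpen V := isOpen_nullPts E
  have hfrontier : frontier (P.Omega (n + 2)) ⊆ V ∪ ⋃ j, ball (ctr j) (ρ j) := by
    intro z hz
    by_cases hzV : z ∈ V
    · exact Or.inl hzV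
    · right
      have hzZ : z ∈ Z := by
        refine ⟨fun r hr => ⟨?_, ?_⟩, hz⟩
        · rw [pos_iff_ne_zero]
          intro h2
          exact hzV ⟨r, hr, h2⟩
        · have hzΩ : z ∉ P.Omega (n + 2) := by
            rw [P.frontier_Omega h0] at hz
            have : P.G z = 1 := hz
            show ¬ (P.G z < 1)
            rw [this]
            exact lt_irrefl 1
          exact (P.volume_ball_diff_pos h0 hzΩ hr).trans_le
            (measure_mono (sdiff_subset_sdiff_right hEΩ))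
      obtain ⟨j, hj⟩ := mem_iUnion.1 (hZT hzZ)
      exact mem_iUnion.2 ⟨j, hctr j hj⟩
  have hcpt : IsCompact (frontier (P.Omega (n + 2)) \ V) :=
    (Metric.isCompact_of_isClosed_isBounded isClosed_frontier
      (P.isBounded_Omega.closure.subset frontier_subset_closure)).diff hVo
  obtain ⟨J, hJ⟩ := hcpt.elim_finite_subcover (fun j => ball (ctr j) (ρ j))
    (fun j => isOpen_ball) (by
      rintro z ⟨hz, hzV⟩
      exact (hfrontier hz).resolve_left hzV)
  obtain ⟨m, hm⟩ : ∃ m : ℕ, ∀ j ∈ J, j < m := by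
    refine ⟨J.sup id + 1, fun j hj => ?_⟩
    have : j ≤ J.sup id := Finset.le_sup (f := id) hj
    omega
  set O : Set (Sp (n + 2)) := V ∪ ⋃ k : Fin m, ball (ctr k) (ρ k) with hO
  have hOo : IsOpen O := hVo.union (isOpen_iUnion fun _ => isOpen_ball)
  have hfO : frontier (P.Omega (n + 2)) ⊆ O := by
    intro z hz
    by_cases hzV : z ∈ V
    · exact Or.inl hzV
    · right
      obtain ⟨j, hj⟩ := mem_iUnion.1 (hJ ⟨hz, hzV⟩)
      obtain ⟨hjJ, hjb⟩ := mem_iUnion.1 hj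
      exact mem_iUnion.2 ⟨⟨j, hm j hjJ⟩, hjb⟩
  have hGc : Continuous (P.G : Sp (n + 2) → ℝ) := P.continuous_G h0
  -- the margin
  obtain ⟨τ0, hτ0, hτ⟩ : ∃ τ0 : ℝ, 0 < τ0 ∧ ∀ x ∈ P.Omega (n + 2), 1 - τ0 < P.G x → x ∈ O := by
    have hK : IsCompact (closure (P.Omega (n + 2)) \ O) :=
      (Metric.isCompact_of_isClosed_isBounded isClosed_closure P.isBounded_Omega.closure).diff hOo
    rcases (closure (P.Omega (n + 2)) \ O).eq_empty_or_nonempty with he | hne
    · refine ⟨1, one_pos, fun x hx _ => ?_⟩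
      by_contra hcon
      have : x ∈ closure (P.Omega (n + 2)) \ O := ⟨subset_closure hx, hcon⟩
      rw [he] at this
      exact this
    · obtain ⟨x0, hx0, hmax⟩ := hK.exists_isMaxOn hne hGc.continuousOn
      have hx01 : P.G x0 < 1 := by
        by_contra hcon
        have hx0f : x0 ∈ frontier (P.Omega (n + 2)) := by
          refine ⟨hx0.1, fun hcon2 => hcon ?_⟩
          have h5 : x0 ∈ P.Omega (n + 2) := interior_subset hcon2
          exact h5
        exact hx0.2 (hfO hx0f)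
      refine ⟨1 - P.G x0, by linarith, fun x hx hGx => ?_⟩
      by_contra hcon
      have h2 : P.G x ≤ P.G x0 := hmax ⟨subset_closure hx, hcon⟩
      linarith
  -- remove the null part
  set E1 := E \ V with hE1
  have hE1m : MeasurableSet E1 := hEm.diff hVo.measurableSet
  have hE1ae : E1 =ᵐ[volume] E := by
    have h5 : E1 = E \ (E ∩ V) := by
      ext x
      simp only [hE1, Set.mem_sdiff, mem_inter_iff, not_and]
      tauto
    rw [h5]
    exact sdiff_null_ae_eq_self (volume_inter_nullPts E)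
  have hvolE1 : volume E1 = volume E := measure_congr hE1ae
  have hperE1 : perimeter E1 = perimeter E := perimeter_congr hE1ae
  have hfinal := hcore E1 hE1m (sdiff_subset.trans hEΩ) (by rw [hvolE1]; exact hv)
    (by rw [hperE1]; exact hp) (by rw [hperE1, hvolE1]; exact heq) hmin m
    (fun k => ctr k) (fun k => ρ k) τ0 (fun k => hρ0 k) (fun k => hρ2 k) hτ0
    (fun x hx hGx => by
      rcases hτ x (hEΩ hx.1) hGx with h2 | h2
      · exact absurd h2 hx.2
      · exact mem_iUnion.1 h2)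
  rw [hvolE1] at hfinal
  have hsum : ∑ k : Fin m, ρ k ^ s ≤ 2 * ε := by
    have h2 : ∑ k : Fin m, ρ k ^ s ≤ ∑ k : Fin m, (δ k ^ s + ε * (1 / 2) ^ ((k : ℕ) + 1)) :=
      Finset.sum_le_sum fun k _ => hρ3 k
    rw [Finset.sum_add_distrib] at h2
    have h3 : ∑ k : Fin m, δ k ^ s ≤ ε := by
      have := hfinsum (Finset.range m)
      rwa [Finset.sum_range] at this
    have h4 : ∑ k : Fin m, ε * (1 / 2 : ℝ) ^ ((k : ℕ) + 1) ≤ ε := by
      rw [← Finset.mul_sum]
      have h5 : ∑ k : Fin m, (1 / 2 : ℝ) ^ ((k : ℕ) + 1) = 1 - (1 / 2) ^ m := by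
        rw [← Finset.sum_range (fun k => (1 / 2 : ℝ) ^ (k + 1))]
        exact sum_half m
      rw [h5]
      have : 0 ≤ (1 / 2 : ℝ) ^ m := by positivity
      nlinarith
    linarith
  have hlast : h * (volume E).toReal ≤ C * (2 * ε) :=
    hfinal.trans (mul_le_mul_of_nonneg_left hsum hC)
  linarith

/-- **Lower bound for the dimension of the contact set.** -/
theorem dimH_contact_ge (h0 : 0 < α) (h1 : α ≤ 1) (hd : 2 ≤ d) {E : Set (Sp d)}
    (hEm : MeasurableSet E) (hEΩ : E ⊆ P.Omega d) (hv0 : 0 < volume E) (hv : volume E ≠ ⊤)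
    (hp : perimeter E ≠ ⊤) {h : ℝ} (hh : 0 ≤ h)
    (heq : (perimeter E).toReal = h * (volume E).toReal)
    (hmin : ∀ F ⊆ P.Omega d, MeasurableSet F → perimeter F ≠ ⊤ →
      h * (volume F).toReal ≤ (perimeter F).toReal) :
    ENNReal.ofReal ((d : ℝ) - 2 + α) ≤ dimH (essBoundary E ∩ frontier (P.Omega d)) := by
  obtain ⟨n, rfl⟩ : ∃ n, d = n + 2 := ⟨d - 2, by omega⟩
  have h2 := P.hausdorff_contact_ne_zero h0 h1 n hEm hEΩ hv0 hv hp hh heq hmin
  have h3 : ((n + 2 : ℕ) : ℝ) - 2 + α = (n : ℝ) + α := by push_cast; ring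
  rw [h3]
  have h4 : (((n : ℝ) + α).toNNReal : ℝ) = (n : ℝ) + α := Real.coe_toNNReal _ (by positivity)
  refine le_dimH_of_hausdorffMeasure_ne_zero (d := ((n : ℝ) + α).toNNReal) ?_
  rw [h4]
  exact h2

end Profile

end MP_fd31a8_an
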