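import Pool.Agent.Lib.MP_fd31a8_an.UpperMain
import Pool.Agent.Lib.MP_fd31a8_an.LowerE

/-! # Assembly -/

open MeasureTheory Set Filter
open scoped ENNReal NNReal Topology

namespace MP_fd31a8_an

/-- both bounds, for every Cheeger set of the domain -/
theorem Profile.dimH_contact_eq {α : ℝ} (P : Profile α) (h0 : 0 < α) (h1 : α < 1) {d : ℕ}
    (hd : 2 ≤ d) (hA : P.A = 8 * d)
    (hk : ∀ t, 0 ≤ t → t ≤ 1 → t - P.c t ≤ 1 / (8 * d ^ 2))
    {β : ℝ} {N : ℕ} (hβ0 : 0 < β) (hβ1 : β < 1) (hβ : β ^ α = 1/2)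
    (hT : ∀ n : ℕ, ∃ F : Finset ℝ, F.card ≤ N * 2 ^ n ∧ P.K ⊆ ⋃ a ∈ F, Set.Icc a (a + β ^ n))
    {E : Set (Sp d)} (hE : IsCheegerSet (P.Omega d) E) :
    dimH (essBoundary E ∩ frontier (P.Omega d)) = ENNReal.ofReal ((d:ℝ) - 2 + α) := by
  refine le_antisymm (P.dimH_contact_le h0 hd hA hk hβ0 hβ1 hβ hT hE) ?_
  obtain ⟨E', hE'E, hE'm, hE'ae⟩ := hE.1.exists_measurable_subset_ae_eq
  have hE' : IsCheegerSet (P.Omega d) E' :=
    hE.congr hE'm.nullMeasurableSet (hE'E.trans hE.2.1) hE'ae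
  rw [← essBoundary_congr hE'ae]
  have hle := P.cheegerConst_le hd hA hk
  have hfin : cheegerConst (P.Omega d) ≠ ∞ := ne_top_of_le_ne_top ENNReal.ofReal_ne_top hle
  obtain ⟨hv, hp, heq, hmin⟩ := cheeger_real P.isBounded_Omega hfin hE'
  exact P.dimH_contact_ge h0 h1.le hd hE'm hE'.2.1 hE'.2.2.1 hv hp ENNReal.toReal_nonneg heq hmin

theorem main (d : ℕ) (hd : 2 ≤ d) (α : ℝ) (h0 : 0 < α) (h1 : α < 1) :
    ∃ Ω : Set (Sp d), IsOpen Ω ∧ Bornology.IsBounded Ω ∧ HasC1HolderBoundary α.toNNReal Ω ∧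
      (∃ E, IsCheegerSet Ω E ∧ frontier E = essBoundary E ∧
        dimH (frontier E ∩ frontier Ω) = ENNReal.ofReal ((d:ℝ) - 2 + α)) ∧
      ∀ A, IsCheegerSet Ω A →
        dimH (essBoundary A ∩ frontier Ω) = ENNReal.ofReal ((d:ℝ) - 2 + α) := by
  obtain ⟨P, hA, -, hk, β, N, hβ0, hβ1, hβ, hT⟩ := exists_profile α h0 h1 d (by omega)
  have hle := P.cheegerConst_le hd hA hk
  have hfin : cheegerConst (P.Omega d) ≠ ∞ := ne_top_of_le_ne_top ENNReal.ofReal_ne_top hle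
  obtain ⟨E', hE'm, hE'⟩ := exists_cheegerSet P.isBounded_Omega
    (P.isOpen_Omega h0).measurableSet hfin
  obtain ⟨E, hEm, hEE', hEfr, hEsub⟩ := exists_repr hE'm
  have hEΩ : E ⊆ P.Omega d := by
    intro x hx
    rcases hEsub x hx with h | ⟨r, hr, h⟩
    · exact hE'.2.1 h
    · by_contra hcon
      have h2 := P.volume_ball_diff_pos h0 hcon hr
      have h3 : volume (Metric.ball x r \ P.Omega d) ≤ volume (Metric.ball x r \ E') :=
        measure_mono (sdiff_subset_sdiff_right hE'.2.1)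
      rw [h] at h3
      exact absurd h2 (not_lt.2 h3)
  have hE : IsCheegerSet (P.Omega d) E := hE'.congr hEm.nullMeasurableSet hEΩ hEE'
  refine ⟨P.Omega d, P.isOpen_Omega h0, P.isBounded_Omega, P.hasC1HolderBoundary h0 h1,
    ⟨E, hE, hEfr, ?_⟩, fun A hA' => P.dimH_contact_eq h0 h1 hd hA hk hβ0 hβ1 hβ hT hA'⟩
  rw [hEfr]
  exact P.dimH_contact_eq h0 h1 hd hA hk hβ0 hβ1 hβ hT hE

end MP_fd31a8_an
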