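import Mathlib

/-! # The Hölder staircase (Cantor function with ratio `β`, `β ^ α = 1/2`) -/

open Set Filter
open scoped Topology

namespace MP_fd31a8_an

/-- the key inequality -/
lemma rpow_add_rpow_le {α β : ℝ} (h0 : 0 < α) (h1 : α < 1) (hβ0 : 0 < β) (hβ1 : β < 1 / 2)
    (hβ : β ^ α = 1 / 2) {x y : ℝ} (hx0 : 0 ≤ x) (hx1 : x ≤ β) (hy0 : 0 ≤ y) (hy1 : y ≤ β) :
    x ^ α + y ^ α ≤ (x + y + (1 - 2 * β)) ^ α := by
  have hcc := (Real.concaveOn_rpow h0.le h1.le).2
  have hc : (1/2 : ℝ) • x ^ α + (1/2 : ℝ) • y ^ α ≤ ((1/2 : ℝ) • x + (1/2 : ℝ) • y) ^ α :=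
    hcc (mem_Ici.2 hx0) (mem_Ici.2 hy0) (by norm_num) (by norm_num) (by norm_num)
  simp only [smul_eq_mul] at hc
  set z := 1 / 2 * x + 1 / 2 * y with hz
  have hz0 : 0 ≤ z := by positivity
  have hz1 : z ≤ β := by linarith
  have h2 : x ^ α + y ^ α ≤ 2 * z ^ α := by linarith
  have h3 : 2 * z ^ α = (z / β) ^ α := by
    rw [Real.div_rpow hz0 hβ0.le, hβ]
    ring
  have h4 : z / β ≤ x + y + (1 - 2 * β) := by
    rw [div_le_iff₀ hβ0]
    have : x + y = 2 * z := by rw [hz]; ring
    rw [this]
    nlinarith [mul_nonneg (sub_nonneg.2 hz1) (sub_nonneg.2 hβ1.le)]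
  calc x ^ α + y ^ α ≤ 2 * z ^ α := h2
    _ = (z / β) ^ α := h3
    _ ≤ _ := Real.rpow_le_rpow (by positivity) h4 h0.le

/-- the class of profile functions -/
structure Nice (α : ℝ) (f : ℝ → ℝ) : Prop where
  mono : Monotone f
  zero : ∀ t, t ≤ 0 → f t = 0
  one : ∀ t, 1 ≤ t → f t = 1
  hol : ∀ s t, s ≤ t → f t - f s ≤ (t - s) ^ α

/-- the renormalization operator -/
noncomputable def TT (β : ℝ) (f : ℝ → ℝ) (t : ℝ) : ℝ := f (t / β) / 2 + f ((t - 1 + β) / β) / 2

lemma nice_nonneg {α : ℝ} {f : ℝ → ℝ} (hf : Nice α f) (t : ℝ) : 0 ≤ f t := by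
  rcases le_total t 0 with h | h
  · exact (hf.zero t h).ge
  · rw [← hf.zero 0 le_rfl]
    exact hf.mono h

lemma nice_le_one {α : ℝ} {f : ℝ → ℝ} (hf : Nice α f) (t : ℝ) : f t ≤ 1 := by
  rcases le_total 1 t with h | h
  · exact (hf.one t h).le
  · rw [← hf.one 1 le_rfl]
    exact hf.mono h

lemma half_incr {α β : ℝ} (hβ0 : 0 < β) (hβ : β ^ α = 1 / 2) {f : ℝ → ℝ}
    (hf : Nice α f) {s t : ℝ} {z : ℝ} (hz0 : 0 ≤ z)
    (hz : f (t / β) - f (s / β) ≤ (z / β) ^ α) :
    (f (t / β) - f (s / β)) / 2 ≤ (min z β) ^ α := by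
  rcases le_total z β with h | h
  · rw [min_eq_left h]
    rw [Real.div_rpow hz0 hβ0.le, hβ] at hz
    linarith
  · rw [min_eq_right h, hβ]
    have h1 := nice_le_one hf (t / β)
    have h2 := nice_nonneg hf (s / β)
    linarith

lemma nice_TT {α β : ℝ} (h0 : 0 < α) (h1 : α < 1) (hβ0 : 0 < β) (hβ1 : β < 1 / 2)
    (hβ : β ^ α = 1 / 2) {f : ℝ → ℝ} (hf : Nice α f) : Nice α (TT β f) := by
  refine ⟨?_, ?_, ?_, ?_⟩
  · intro s t hst
    unfold TT
    have e1 : f (s / β) ≤ f (t / β) := hf.mono (by gcongr)
    have e2 : f ((s - 1 + β) / β) ≤ f ((t - 1 + β) / β) := hf.mono (by gcongr)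
    linarith
  · intro t ht
    unfold TT
    rw [hf.zero (t / β) (div_nonpos_of_nonpos_of_nonneg ht hβ0.le),
      hf.zero ((t - 1 + β) / β) (div_nonpos_of_nonpos_of_nonneg (by linarith) hβ0.le)]
    norm_num
  · intro t ht
    unfold TT
    rw [hf.one (t / β) (by rw [le_div_iff₀ hβ0]; linarith),
      hf.one ((t - 1 + β) / β) (by rw [le_div_iff₀ hβ0]; linarith)]
    norm_num
  · intro s t hst
    unfold TT
    -- the two increments
    set x : ℝ := max 0 (min t β - s) with hx
    set y : ℝ := max 0 (t - max s (1 - β)) with hy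
    have hx0 : 0 ≤ x := le_max_left _ _
    have hy0 : 0 ≤ y := le_max_left _ _
    have hxt : x ≤ t - s := by
      rw [hx]
      exact max_le (by linarith) (by linarith [min_le_left t β])
    have hyt : y ≤ t - s := by
      rw [hy]
      exact max_le (by linarith) (by linarith [le_max_left s (1 - β)])
    have e1 : f (t / β) - f (s / β) ≤ (x / β) ^ α := by
      rcases le_total β s with h | h
      · rw [hf.one (t / β) (by rw [le_div_iff₀ hβ0]; linarith),
          hf.one (s / β) (by rw [le_div_iff₀ hβ0]; linarith), sub_self]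
        positivity
      · have e3 : f (t / β) = f (min t β / β) := by
          rcases le_total t β with h' | h'
          · rw [min_eq_left h']
          · rw [min_eq_right h', div_self hβ0.ne', hf.one 1 le_rfl, hf.one]
            rw [le_div_iff₀ hβ0]; linarith
        rw [e3]
        refine (hf.hol (s / β) (min t β / β) ?_).trans ?_
        · gcongr
          exact le_min hst h
        · rw [← sub_div]
          refine Real.rpow_le_rpow ?_ ?_ h0.le
          · exact div_nonneg (sub_nonneg.2 (le_min hst h)) hβ0.le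
          · gcongr
            exact le_max_right _ _
    have e2 : f ((t - 1 + β) / β) - f ((s - 1 + β) / β) ≤ (y / β) ^ α := by
      rcases le_total t (1 - β) with h | h
      · rw [hf.zero ((t - 1 + β) / β) (div_nonpos_of_nonpos_of_nonneg (by linarith) hβ0.le),
          hf.zero ((s - 1 + β) / β) (div_nonpos_of_nonpos_of_nonneg (by linarith) hβ0.le), sub_self]
        positivity
      · have e3 : f ((s - 1 + β) / β) = f ((max s (1 - β) - 1 + β) / β) := by
          rcases le_total s (1 - β) with h' | h'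
          · rw [max_eq_right h', hf.zero _ (div_nonpos_of_nonpos_of_nonneg (by linarith) hβ0.le),
              hf.zero _ (by simp)]
          · rw [max_eq_left h']
        rw [e3]
        refine (hf.hol ((max s (1 - β) - 1 + β) / β) ((t - 1 + β) / β) ?_).trans ?_
        · gcongr
          exact max_le hst h
        · rw [← sub_div]
          refine Real.rpow_le_rpow ?_ ?_ h0.le
          · exact div_nonneg (by linarith [max_le hst h]) hβ0.le
          · gcongr
            exact le_trans (by linarith) (le_max_right _ _)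
    have f1 := half_incr hβ0 hβ hf hx0 e1
    have e2' : f ((t - 1 + β) / β) - f ((s - 1 + β) / β) ≤ (y / β) ^ α := e2
    have f2 : (f ((t - 1 + β) / β) - f ((s - 1 + β) / β)) / 2 ≤ (min y β) ^ α :=
      half_incr hβ0 hβ hf (s := s - 1 + β) (t := t - 1 + β) hy0 e2'
    have key : (min x β) ^ α + (min y β) ^ α ≤ (t - s) ^ α := by
      rcases hx0.eq_or_lt with h | h
      · rw [← h, min_eq_left hβ0.le, Real.zero_rpow h0.ne', zero_add]
        exact Real.rpow_le_rpow (le_min hy0 hβ0.le) ((min_le_left _ _).trans hyt) h0.le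
      rcases hy0.eq_or_lt with h' | h'
      · rw [← h', min_eq_left hβ0.le, Real.zero_rpow h0.ne', add_zero]
        exact Real.rpow_le_rpow (le_min hx0 hβ0.le) ((min_le_left _ _).trans hxt) h0.le
      have h2 := rpow_add_rpow_le h0 h1 hβ0 hβ1 hβ (le_min hx0 hβ0.le) (min_le_right x β)
        (le_min hy0 hβ0.le) (min_le_right y β)
      refine h2.trans (Real.rpow_le_rpow ?_ ?_ h0.le)
      · have := le_min hx0 hβ0.le
        have := le_min hy0 hβ0.le
        linarith
      · have hx' : 0 < min t β - s := by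
          by_contra hc
          rw [hx, max_eq_left (not_lt.1 hc)] at h
          exact lt_irrefl _ h
        have hy' : 0 < t - max s (1 - β) := by
          by_contra hc
          rw [hy, max_eq_left (not_lt.1 hc)] at h'
          exact lt_irrefl _ h'
        have hsβ : s < β := by linarith [min_le_right t β]
        have htβ : 1 - β < t := by linarith [le_max_right s (1 - β)]
        have hxe : x = β - s := by
          rw [hx, max_eq_right hx'.le, min_eq_right (by linarith)]
        have hye : y = t - (1 - β) := by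
          rw [hy, max_eq_right hy'.le, max_eq_right (by linarith)]
        have := min_le_left x β
        have := min_le_left y β
        linarith
    linarith

lemma nice_clamp {α : ℝ} (h0 : 0 < α) (h1 : α < 1) : Nice α (fun t => max 0 (min t 1)) := by
  refine ⟨?_, ?_, ?_, ?_⟩
  · intro s t hst
    exact max_le_max le_rfl (min_le_min hst le_rfl)
  · intro t ht
    rw [min_eq_left (by linarith), max_eq_left ht]
  · intro t ht
    rw [min_eq_right ht, max_eq_right zero_le_one]
  · intro s t hst
    have h2 : max 0 (min t 1) - max 0 (min s 1) ≤ min (t - s) 1 := by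
      refine le_min ?_ ?_
      · rcases le_total t 1 with a | a <;> rcases le_total s 1 with b | b <;>
          rcases le_total 0 s with c | c <;> rcases le_total 0 t with e | e <;>
          simp only [min_eq_left a, min_eq_right a, min_eq_left b, min_eq_right b, max_eq_left c,
            max_eq_right c, max_eq_left e, max_eq_right e, max_eq_right (zero_le_one (α := ℝ))] <;>
          linarith
      · have a : max 0 (min t 1) ≤ 1 := max_le zero_le_one (min_le_right _ _)
        have b : 0 ≤ max 0 (min s 1) := le_max_left _ _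
        linarith
    refine h2.trans ?_
    rcases le_total (t - s) 1 with h | h
    · rw [min_eq_left h]
      have hts : 0 ≤ t - s := by linarith
      rcases hts.eq_or_lt with h' | h'
      · rw [← h', Real.zero_rpow h0.ne']
      · calc t - s = (t - s) ^ (1:ℝ) := (Real.rpow_one _).symm
          _ ≤ (t - s) ^ α := Real.rpow_le_rpow_of_exponent_ge h' h h1.le
    · rw [min_eq_right h]
      exact Real.one_le_rpow h h0.le

lemma TT_diff {α β : ℝ} (hβ0 : 0 < β) (hβ1 : β < 1 / 2) {f g : ℝ → ℝ} (hf : Nice α f)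
    (hg : Nice α g) {δ : ℝ} (h : ∀ t, |f t - g t| ≤ δ) (t : ℝ) :
    |TT β f t - TT β g t| ≤ δ / 2 := by
  unfold TT
  rcases le_total β t with h1 | h1
  · rw [hf.one (t / β) (by rw [le_div_iff₀ hβ0]; linarith),
      hg.one (t / β) (by rw [le_div_iff₀ hβ0]; linarith)]
    have h2 := h ((t - 1 + β) / β)
    have h3 : 1 / 2 + f ((t - 1 + β) / β) / 2 - (1 / 2 + g ((t - 1 + β) / β) / 2) =
      (f ((t - 1 + β) / β) - g ((t - 1 + β) / β)) / 2 := by ring
    rw [h3, abs_div, abs_two]
    linarith
  · rw [hf.zero ((t - 1 + β) / β) (div_nonpos_of_nonpos_of_nonneg (by linarith) hβ0.le),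
      hg.zero ((t - 1 + β) / β) (div_nonpos_of_nonpos_of_nonneg (by linarith) hβ0.le)]
    have h2 := h (t / β)
    have h3 : f (t / β) / 2 + 0 / 2 - (g (t / β) / 2 + 0 / 2) = (f (t / β) - g (t / β)) / 2 := by
      ring
    rw [h3, abs_div, abs_two]
    linarith

theorem exists_staircase (α : ℝ) (h0 : 0 < α) (h1 : α < 1) : ∃ (κ : ℝ → ℝ) (β : ℝ), 0 < β ∧
    β < 1/2 ∧ β ^ α = 1/2 ∧ Monotone κ ∧ (∀ t ≤ 0, κ t = 0) ∧ (∀ t ≥ 1, κ t = 1) ∧
    (∀ s t, |κ s - κ t| ≤ |s - t| ^ α) ∧
    ∀ n : ℕ, ∃ F : Finset ℝ, F.card ≤ 2 ^ n ∧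
      {t | ¬ ∀ᶠ s in 𝓝 t, κ s = κ t} ⊆ ⋃ a ∈ F, Set.Icc a (a + β ^ n) := by
  set β : ℝ := (1/2 : ℝ) ^ (1/α) with hβdef
  have hβ0 : 0 < β := by positivity
  have hβ : β ^ α = 1/2 := by
    rw [hβdef, ← Real.rpow_mul (by norm_num), one_div_mul_cancel h0.ne', Real.rpow_one]
  have hβ1 : β < 1 / 2 := by
    have : (1:ℝ) < 1 / α := by
      rw [lt_div_iff₀ h0]
      linarith
    calc β = (1/2 : ℝ) ^ (1/α) := rfl
      _ < (1/2 : ℝ) ^ (1:ℝ) := Real.rpow_lt_rpow_of_exponent_gt (by norm_num) (by norm_num) this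
      _ = 1/2 := Real.rpow_one _
  set u : ℕ → ℝ → ℝ := fun n => (TT β)^[n] (fun t => max 0 (min t 1)) with hu
  have hun : ∀ n, Nice α (u n) := by
    intro n
    induction n with
    | zero => exact nice_clamp h0 h1
    | succ n ih =>
      have : u (n + 1) = TT β (u n) := by
        simp only [hu, Function.iterate_succ_apply']
      rw [this]
      exact nice_TT h0 h1 hβ0 hβ1 hβ ih
  have hsucc : ∀ n, u (n + 1) = TT β (u n) := by
    intro n
    simp only [hu, Function.iterate_succ_apply']
  have hdiff : ∀ n t, |u (n + 1) t - u n t| ≤ (1 / 2 : ℝ) ^ n := by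
    intro n
    induction n with
    | zero =>
      intro t
      have a1 := nice_nonneg (hun 1) t
      have a2 := nice_le_one (hun 1) t
      have a3 := nice_nonneg (hun 0) t
      have a4 := nice_le_one (hun 0) t
      simp only [zero_add, pow_zero]
      rw [abs_le]
      constructor <;> linarith
    | succ n ih =>
      intro t
      rw [hsucc (n + 1), hsucc n]
      have := TT_diff hβ0 hβ1 (hsucc n ▸ hun (n + 1)) (hun n) (fun t => (hsucc n) ▸ ih t) t
      rw [pow_succ]
      linarith
  have hconv : ∀ t, ∃ l, Tendsto (fun n => u n t) atTop (𝓝 l) := by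
    intro t
    refine cauchySeq_tendsto_of_complete (cauchySeq_of_le_geometric (1/2) 1 (by norm_num) ?_)
    intro n
    rw [dist_comm, Real.dist_eq, one_mul]
    exact hdiff n t
  choose κ hκ using hconv
  have hmono : Monotone κ := fun s t hst =>
    le_of_tendsto_of_tendsto' (hκ s) (hκ t) fun n => (hun n).mono hst
  have hzero : ∀ t, t ≤ 0 → κ t = 0 := fun t ht =>
    tendsto_nhds_unique (hκ t) (by
      have : (fun n => u n t) = fun _ => (0:ℝ) := funext fun n => (hun n).zero t ht
      rw [this]
      exact tendsto_const_nhds)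
  have hone : ∀ t, 1 ≤ t → κ t = 1 := fun t ht =>
    tendsto_nhds_unique (hκ t) (by
      have : (fun n => u n t) = fun _ => (1:ℝ) := funext fun n => (hun n).one t ht
      rw [this]
      exact tendsto_const_nhds)
  have hhol : ∀ s t, s ≤ t → κ t - κ s ≤ (t - s) ^ α := fun s t hst =>
    le_of_tendsto' ((hκ t).sub (hκ s)) fun n => (hun n).hol s t hst
  have hfix : ∀ t, κ t = κ (t / β) / 2 + κ ((t - 1 + β) / β) / 2 := by
    intro t
    have a1 : Tendsto (fun n => u (n + 1) t) atTop (𝓝 (κ t)) := (hκ t).comp (tendsto_add_atTop_nat 1)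
    have a2 : Tendsto (fun n => u (n + 1) t) atTop
        (𝓝 (κ (t / β) / 2 + κ ((t - 1 + β) / β) / 2)) := by
      have : (fun n => u (n + 1) t) = fun n => u n (t / β) / 2 + u n ((t - 1 + β) / β) / 2 := by
        funext n
        rw [hsucc n]
        rfl
      rw [this]
      exact ((hκ _).div_const 2).add ((hκ _).div_const 2)
    exact tendsto_nhds_unique a1 a2
  refine ⟨κ, β, hβ0, hβ1, hβ, hmono, hzero, hone, ?_, ?_⟩
  · intro s t
    rcases le_total s t with h | h
    · rw [abs_sub_comm, abs_of_nonneg (sub_nonneg.2 (hmono h)), abs_sub_comm s t,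
        abs_of_nonneg (sub_nonneg.2 h)]
      exact hhol s t h
    · rw [abs_of_nonneg (sub_nonneg.2 (hmono h)), abs_of_nonneg (sub_nonneg.2 h)]
      exact hhol t s h
  · intro n
    induction n with
    | zero =>
      refine ⟨{0}, by simp, ?_⟩
      intro t ht
      simp only [Finset.mem_singleton, iUnion_iUnion_eq_left, pow_zero, zero_add, mem_Icc]
      by_contra hcon
      apply ht
      rw [not_and_or, not_le, not_le] at hcon
      rcases hcon with h | h
      · filter_upwards [Iio_mem_nhds h] with s hs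
        rw [hzero s (le_of_lt hs), hzero t h.le]
      · filter_upwards [Ioi_mem_nhds h] with s hs
        rw [hone s (le_of_lt hs), hone t h.le]
    | succ n ih =>
      obtain ⟨F, hF1, hF2⟩ := ih
      classical
      refine ⟨F.image (fun a => β * a) ∪ F.image (fun a => β * a + (1 - β)), ?_, ?_⟩
      · calc _ ≤ (F.image (fun a => β * a)).card + (F.image (fun a => β * a + (1 - β))).card :=
              Finset.card_union_le _ _
          _ ≤ F.card + F.card := add_le_add Finset.card_image_le Finset.card_image_le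
          _ ≤ 2 ^ n + 2 ^ n := add_le_add hF1 hF1
          _ = 2 ^ (n + 1) := by ring
      · intro t ht
        have hor : (t / β) ∈ {t | ¬ ∀ᶠ s in 𝓝 t, κ s = κ t} ∨
            ((t - 1 + β) / β) ∈ {t | ¬ ∀ᶠ s in 𝓝 t, κ s = κ t} := by
          by_contra hcon
          rw [not_or] at hcon
          simp only [mem_ofPred_eq, not_not] at hcon
          apply ht
          have c1 : Tendsto (fun s : ℝ => s / β) (𝓝 t) (𝓝 (t / β)) :=
            (continuous_id.div_const β).tendsto t
          have c2 : Tendsto (fun s : ℝ => (s - 1 + β) / β) (𝓝 t) (𝓝 ((t - 1 + β) / β)) :=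
            (((continuous_id.sub continuous_const).add continuous_const).div_const β).tendsto t
          filter_upwards [c1.eventually hcon.1, c2.eventually hcon.2] with s hs1 hs2
          rw [hfix s, hfix t, hs1, hs2]
        rcases hor with h | h
        · obtain ⟨a, ha, hta⟩ := mem_iUnion₂.1 (hF2 h)
          refine mem_iUnion₂.2 ⟨β * a, Finset.mem_union_left _ (Finset.mem_image_of_mem _ ha), ?_⟩
          rw [mem_Icc, le_div_iff₀ hβ0, div_le_iff₀ hβ0] at hta
          rw [mem_Icc, pow_succ]
          constructor <;> nlinarith [hta.1, hta.2]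
        · obtain ⟨a, ha, hta⟩ := mem_iUnion₂.1 (hF2 h)
          refine mem_iUnion₂.2 ⟨β * a + (1 - β), Finset.mem_union_right _
            (Finset.mem_image_of_mem _ ha), ?_⟩
          rw [mem_Icc, le_div_iff₀ hβ0, div_le_iff₀ hβ0] at hta
          rw [mem_Icc, pow_succ]
          constructor <;> nlinarith [hta.1, hta.2]

end MP_fd31a8_an
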