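import Pool.Agent.Lib.MP_fd31a8_an.Profile
import Pool.Agent.Lib.MP_fd31a8_an.Stair

/-! # Existence of profiles -/

open MeasureTheory Set Filter
open scoped ENNReal NNReal Topology

namespace MP_fd31a8_an

section stair

variable (κ : ℝ → ℝ) (δ : ℝ) (M : ℕ)

/-- sum of translated staircases -/
noncomputable def csum (t : ℝ) : ℝ :=
  δ * ∑ m ∈ Finset.range M, (κ (t / δ - (m + 1)) - κ (-t / δ - (m + 1)))

variable {κ δ M}

lemma csum_odd (t : ℝ) : csum κ δ M (-t) = - csum κ δ M t := by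
  unfold csum
  rw [← mul_neg, ← Finset.sum_neg_distrib]
  congr 1
  refine Finset.sum_congr rfl fun m _ => ?_
  rw [neg_neg]
  ring

lemma csum_mono (hδ : 0 < δ) (hκ : Monotone κ) : Monotone (csum κ δ M) := by
  intro s t hst
  unfold csum
  refine mul_le_mul_of_nonneg_left (Finset.sum_le_sum fun m _ => ?_) hδ.le
  have h1 : κ (s / δ - (m + 1)) ≤ κ (t / δ - (m + 1)) := hκ (by gcongr)
  have h2 : κ (-t / δ - (m + 1)) ≤ κ (-s / δ - (m + 1)) := hκ (by gcongr)
  linarith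

lemma csum_of_nonneg (hδ : 0 < δ) (hz : ∀ t ≤ 0, κ t = 0) {t : ℝ} (ht : 0 ≤ t) :
    csum κ δ M t = δ * ∑ m ∈ Finset.range M, κ (t / δ - (m + 1)) := by
  unfold csum
  congr 1
  refine Finset.sum_congr rfl fun m _ => ?_
  rw [hz (-t / δ - (m + 1)), sub_zero]
  have : -t / δ ≤ 0 := div_nonpos_of_nonpos_of_nonneg (by linarith) hδ.le
  have : (0:ℝ) ≤ m := Nat.cast_nonneg m
  linarith

lemma sum_upper (hz : ∀ t ≤ 0, κ t = 0) (h1 : ∀ t, κ t ≤ 1) {x : ℝ} (hx : 0 ≤ x) (M : ℕ) :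
    ∑ m ∈ Finset.range M, κ (x - (m + 1)) ≤ x := by
  have h2 : ∀ m ∈ Finset.range M, κ (x - (m + 1)) ≤ if (m + 1 : ℝ) ≤ x then (1:ℝ) else 0 := by
    intro m _
    split_ifs with h
    · exact h1 _
    · exact (hz _ (by linarith)).le
  refine (Finset.sum_le_sum h2).trans ?_
  rw [Finset.sum_ite, Finset.sum_const_zero, add_zero, Finset.sum_const, nsmul_eq_mul, mul_one]
  have h3 : (Finset.range M).filter (fun m : ℕ => (m + 1 : ℝ) ≤ x) ⊆ Finset.range ⌊x⌋₊ := by
    intro m hm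
    rw [Finset.mem_filter] at hm
    rw [Finset.mem_range]
    have : m + 1 ≤ ⌊x⌋₊ := Nat.le_floor (by exact_mod_cast hm.2)
    omega
  have h4 := Finset.card_le_card h3
  rw [Finset.card_range] at h4
  calc ((((Finset.range M).filter (fun m : ℕ => (m + 1 : ℝ) ≤ x)).card : ℕ) : ℝ) ≤ (⌊x⌋₊ : ℝ) := by
        exact_mod_cast h4
    _ ≤ x := Nat.floor_le hx

lemma sum_lower (hone : ∀ t ≥ 1, κ t = 1) (h0 : ∀ t, 0 ≤ κ t) {x : ℝ} {M : ℕ}
    (hx : x ≤ M + 1) : x - 2 ≤ ∑ m ∈ Finset.range M, κ (x - (m + 1)) := by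
  have h2 : ∀ m ∈ Finset.range M, (if (m + 2 : ℝ) ≤ x then (1:ℝ) else 0) ≤ κ (x - (m + 1)) := by
    intro m _
    split_ifs with h
    · exact (hone _ (by linarith)).ge
    · exact h0 _
  refine le_trans ?_ (Finset.sum_le_sum h2)
  rw [Finset.sum_ite, Finset.sum_const_zero, add_zero, Finset.sum_const, nsmul_eq_mul, mul_one]
  rcases lt_or_ge x 2 with hx2 | hx2
  · exact (by linarith : x - 2 ≤ 0).trans (Nat.cast_nonneg _)
  have h3 : Finset.range (⌊x⌋₊ - 1) ⊆ (Finset.range M).filter (fun m : ℕ => (m + 2 : ℝ) ≤ x) := by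
    intro m hm
    rw [Finset.mem_range] at hm
    have hm2 : m + 2 ≤ ⌊x⌋₊ := by omega
    have hm3 : ((m + 2 : ℕ) : ℝ) ≤ x := (Nat.le_floor_iff (by linarith)).1 hm2
    rw [Finset.mem_filter, Finset.mem_range]
    refine ⟨?_, by exact_mod_cast hm3⟩
    have : ((m + 2 : ℕ) : ℝ) ≤ M + 1 := hm3.trans hx
    have : m + 2 ≤ M + 1 := by exact_mod_cast this
    omega
  have h4 := Finset.card_le_card h3
  rw [Finset.card_range] at h4
  have h5 : 1 ≤ ⌊x⌋₊ := Nat.le_floor (by norm_num; linarith)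
  calc x - 2 ≤ (⌊x⌋₊ : ℝ) - 1 := by linarith [Nat.lt_floor_add_one x]
    _ = ((⌊x⌋₊ - 1 : ℕ) : ℝ) := by rw [Nat.cast_sub h5, Nat.cast_one]
    _ ≤ _ := by exact_mod_cast h4

lemma csum_le_self (hδ : 0 < δ) (hz : ∀ t ≤ 0, κ t = 0) (h1 : ∀ t, κ t ≤ 1) {t : ℝ} (ht : 0 ≤ t) :
    csum κ δ M t ≤ t := by
  rw [csum_of_nonneg hδ hz ht]
  have := sum_upper hz h1 (x := t / δ) (by positivity) M
  calc _ ≤ δ * (t / δ) := mul_le_mul_of_nonneg_left this hδ.le
    _ = t := by field_simp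

lemma csum_ge (hδ : 0 < δ) (hz : ∀ t ≤ 0, κ t = 0) (hone : ∀ t ≥ 1, κ t = 1) (h0 : ∀ t, 0 ≤ κ t)
    {t : ℝ} (ht : 0 ≤ t) (ht' : t ≤ (M + 1) * δ) : t - 2 * δ ≤ csum κ δ M t := by
  rw [csum_of_nonneg hδ hz ht]
  have := sum_lower hone h0 (x := t / δ) (M := M) (by rwa [div_le_iff₀ hδ])
  calc t - 2 * δ = δ * (t / δ - 2) := by field_simp
    _ ≤ _ := mul_le_mul_of_nonneg_left this hδ.le

lemma csum_const (hδ : 0 < δ) (hz : ∀ t ≤ 0, κ t = 0) (hone : ∀ t ≥ 1, κ t = 1)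
    {t : ℝ} (ht' : (M + 1) * δ ≤ t) : csum κ δ M t = δ * M := by
  have ht : 0 ≤ t := le_trans (by positivity) ht'
  rw [csum_of_nonneg hδ hz ht]
  congr 1
  have : ∀ m ∈ Finset.range M, κ (t / δ - (m + 1)) = 1 := by
    intro m hm
    apply hone
    have h1 : (M:ℝ) + 1 ≤ t / δ := by rwa [le_div_iff₀ hδ]
    have h2 : (m:ℝ) + 1 ≤ M := by exact_mod_cast (Finset.mem_range.1 hm)
    linarith
  rw [Finset.sum_congr rfl this]
  simp

lemma csum_holder {α : ℝ} (hδ : 0 < δ) (hh : ∀ s t, |κ s - κ t| ≤ |s - t| ^ α) (s t : ℝ) :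
    |csum κ δ M s - csum κ δ M t| ≤ (2 * M * δ * (1 / δ) ^ α) * |s - t| ^ α := by
  unfold csum
  rw [← mul_sub, abs_mul, abs_of_pos hδ, ← Finset.sum_sub_distrib]
  have h1 : ∀ m ∈ Finset.range M, |(κ (s / δ - (m + 1)) - κ (-s / δ - (m + 1))) -
      (κ (t / δ - (m + 1)) - κ (-t / δ - (m + 1)))| ≤ 2 * ((1 / δ) ^ α * |s - t| ^ α) := by
    intro m _
    have e0 : (1 / δ) ^ α * |s - t| ^ α = (|s - t| / δ) ^ α := by
      rw [← Real.mul_rpow (by positivity) (abs_nonneg _)]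
      congr 1
      ring
    have e1 : |κ (s / δ - (m + 1)) - κ (t / δ - (m + 1))| ≤ (|s - t| / δ) ^ α := by
      refine (hh _ _).trans (le_of_eq ?_)
      congr 1
      rw [show s / δ - (m + 1) - (t / δ - (m + 1)) = (s - t) / δ by ring, abs_div, abs_of_pos hδ]
    have e2 : |κ (-s / δ - (m + 1)) - κ (-t / δ - (m + 1))| ≤ (|s - t| / δ) ^ α := by
      refine (hh _ _).trans (le_of_eq ?_)
      congr 1
      rw [show -s / δ - (m + 1) - (-t / δ - (m + 1)) = -((s - t) / δ) by ring, abs_neg, abs_div,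
        abs_of_pos hδ]
    rw [e0]
    calc _ = |(κ (s / δ - (m + 1)) - κ (t / δ - (m + 1))) -
          (κ (-s / δ - (m + 1)) - κ (-t / δ - (m + 1)))| := by congr 1; ring
      _ ≤ |κ (s / δ - (m + 1)) - κ (t / δ - (m + 1))| +
          |κ (-s / δ - (m + 1)) - κ (-t / δ - (m + 1))| := abs_sub _ _
      _ ≤ _ := by linarith
  calc _ ≤ δ * ∑ _m ∈ Finset.range M, 2 * ((1 / δ) ^ α * |s - t| ^ α) := by
        refine mul_le_mul_of_nonneg_left ?_ hδ.le
        exact (Finset.abs_sum_le_sum_abs _ _).trans (Finset.sum_le_sum h1)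
    _ = _ := by
        rw [Finset.sum_const, Finset.card_range, nsmul_eq_mul]
        ring

lemma csum_cover {β : ℝ} (hδ : 0 < δ) (hδ1 : δ ≤ 1) (hβ : 0 < β)
    (hc : ∀ n : ℕ, ∃ F : Finset ℝ, F.card ≤ 2 ^ n ∧
      {t | ¬ ∀ᶠ s in 𝓝 t, κ s = κ t} ⊆ ⋃ a ∈ F, Set.Icc a (a + β ^ n)) (n : ℕ) :
    ∃ F : Finset ℝ, F.card ≤ (2 * M) * 2 ^ n ∧
      {t | ¬ ∀ᶠ s in 𝓝 t, csum κ δ M s = csum κ δ M t} ⊆ ⋃ a ∈ F, Set.Icc a (a + β ^ n) := by
  classical
  obtain ⟨F, hF1, hF2⟩ := hc n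
  have hβn : 0 < β ^ n := by positivity
  refine ⟨(Finset.range M).biUnion fun m => F.image (fun a => δ * (a + (m + 1))) ∪
    F.image (fun a => - (δ * (a + (m + 1)) + δ * β ^ n)), ?_, ?_⟩
  · calc _ ≤ ∑ m ∈ Finset.range M, (F.image (fun a => δ * (a + (m + 1))) ∪
          F.image (fun a => - (δ * (a + (m + 1)) + δ * β ^ n))).card := Finset.card_biUnion_le
      _ ≤ ∑ _m ∈ Finset.range M, (2 * 2 ^ n) := by
          refine Finset.sum_le_sum fun m _ => ?_
          refine (Finset.card_union_le _ _).trans ?_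
          have a1 := Finset.card_image_le (s := F) (f := fun a => δ * (a + ((m:ℝ) + 1)))
          have a2 := Finset.card_image_le (s := F)
            (f := fun a => - (δ * (a + ((m:ℝ) + 1)) + δ * β ^ n))
          omega
      _ = _ := by
          rw [Finset.sum_const, Finset.card_range, smul_eq_mul]
          ring
  · intro t ht
    have hex : ∃ m ∈ Finset.range M, (t / δ - (m + 1)) ∈ {t | ¬ ∀ᶠ s in 𝓝 t, κ s = κ t} ∨
        (-t / δ - (m + 1)) ∈ {t | ¬ ∀ᶠ s in 𝓝 t, κ s = κ t} := by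
      by_contra hcon
      simp only [not_exists, not_and, not_or] at hcon
      apply ht
      have key : ∀ m ∈ Finset.range M, ∀ᶠ s in 𝓝 t,
          κ (s / δ - (m + 1)) = κ (t / δ - (m + 1)) ∧
          κ (-s / δ - (m + 1)) = κ (-t / δ - (m + 1)) := by
        intro m hm
        have h3 := hcon m hm
        simp only [mem_ofPred_eq, not_not] at h3
        have c1 : Tendsto (fun s : ℝ => s / δ - ((m:ℝ) + 1)) (𝓝 t) (𝓝 (t / δ - (m + 1))) :=
          ((continuous_id.div_const δ).sub continuous_const).tendsto t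
        have c2 : Tendsto (fun s : ℝ => -s / δ - ((m:ℝ) + 1)) (𝓝 t) (𝓝 (-t / δ - (m + 1))) :=
          ((continuous_neg.div_const δ).sub continuous_const).tendsto t
        exact (c1.eventually h3.1).and (c2.eventually h3.2)
      have := (Finset.eventually_all (Finset.range M)).2 key
      filter_upwards [this] with s hs
      unfold csum
      congr 1
      refine Finset.sum_congr rfl fun m hm => ?_
      rw [(hs m hm).1, (hs m hm).2]
    obtain ⟨m, hm, hor⟩ := hex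
    rcases hor with h | h
    · obtain ⟨a, ha, hta⟩ := mem_iUnion₂.1 (hF2 h)
      refine mem_iUnion₂.2 ⟨δ * (a + (m + 1)), ?_, ?_⟩
      · rw [Finset.mem_biUnion]
        exact ⟨m, hm, Finset.mem_union_left _ (Finset.mem_image_of_mem _ ha)⟩
      · rw [mem_Icc] at hta ⊢
        have e1 : a + (m + 1) ≤ t / δ := by linarith [hta.1]
        have e2 : t / δ ≤ a + (m + 1) + β ^ n := by linarith [hta.2]
        rw [le_div_iff₀ hδ] at e1
        rw [div_le_iff₀ hδ] at e2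
        constructor
        · linarith
        · nlinarith
    · obtain ⟨a, ha, hta⟩ := mem_iUnion₂.1 (hF2 h)
      refine mem_iUnion₂.2 ⟨- (δ * (a + (m + 1)) + δ * β ^ n), ?_, ?_⟩
      · rw [Finset.mem_biUnion]
        exact ⟨m, hm, Finset.mem_union_right _ (Finset.mem_image_of_mem _ ha)⟩
      · rw [mem_Icc] at hta ⊢
        have e1 : a + (m + 1) ≤ -t / δ := by linarith [hta.1]
        have e2 : -t / δ ≤ a + (m + 1) + β ^ n := by linarith [hta.2]
        rw [le_div_iff₀ hδ] at e1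
        rw [div_le_iff₀ hδ] at e2
        constructor
        · linarith
        · nlinarith

end stair

theorem exists_profile (α : ℝ) (h0 : 0 < α) (h1 : α < 1) (d : ℕ) (hd : 1 ≤ d) :
    ∃ P : Profile α, P.A = 8 * d ∧ P.q = 1 - 1 / (16 * d ^ 2) ∧
      (∀ t, 0 ≤ t → t ≤ 1 → t - P.c t ≤ 1 / (8 * d ^ 2)) ∧
      ∃ (β : ℝ) (N : ℕ), 0 < β ∧ β < 1 ∧ β ^ α = 1/2 ∧ ∀ n : ℕ, ∃ F : Finset ℝ,
        F.card ≤ N * 2 ^ n ∧ P.K ⊆ ⋃ a ∈ F, Set.Icc a (a + β ^ n) := by
  obtain ⟨κ, β, hβ0, hβ1, hβ, hmono, hzero, hone, hhol, hcov⟩ := exists_staircase α h0 h1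
  have hd1 : (1:ℝ) ≤ d := by exact_mod_cast hd
  set k0 : ℝ := 1 / (16 * d ^ 2) with hk0
  have hk0pos : 0 < k0 := by positivity
  have hk0le : k0 ≤ 1 / 16 := by
    rw [hk0]
    apply one_div_le_one_div_of_le (by norm_num)
    nlinarith
  obtain ⟨M, hM⟩ := exists_nat_gt (32 * d / k0)
  set δ : ℝ := (1 - k0) / (M + 1) with hδ
  have hM1 : (0:ℝ) < M + 1 := by positivity
  have hδ0 : 0 < δ := div_pos (by linarith) hM1
  have hδle : δ ≤ k0 / (32 * d) := by
    rw [hδ, div_le_div_iff₀ hM1 (by positivity)]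
    have h2 : 32 * d < M * k0 := by rwa [div_lt_iff₀ hk0pos] at hM
    nlinarith
  have hδk : δ ≤ k0 / 32 := by
    refine hδle.trans ?_
    apply div_le_div_of_nonneg_left hk0pos.le (by norm_num)
    linarith
  have hq : (M + 1) * δ = 1 - k0 := by
    rw [hδ]
    field_simp
  have hκ0 : ∀ t, 0 ≤ κ t := fun t => by
    rcases le_total t 0 with h | h
    · exact (hzero t h).ge
    · rw [← hzero 0 le_rfl]
      exact hmono h
  have hκ1 : ∀ t, κ t ≤ 1 := fun t => by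
    rcases le_total 1 t with h | h
    · exact (hone t h).le
    · rw [← hone 1 le_rfl]
      exact hmono h
  have hcm : Monotone (csum κ δ M) := csum_mono hδ0 hmono
  have hA0 : (0:ℝ) < 8 * d := by positivity
  have hgq : (1 + 8 * (d:ℝ)) * (1 - k0) ^ 2 - 2 * (8 * d) * (∫ s in (0:ℝ)..(1 - k0), csum κ δ M s)
      < 1 := by
    have hi : (1 - k0) ^ 2 / 2 - 2 * δ * (1 - k0) ≤ ∫ s in (0:ℝ)..(1 - k0), csum κ δ M s := by
      have e1 : ∫ s in (0:ℝ)..(1 - k0), (s - 2 * δ) = (1 - k0) ^ 2 / 2 - 2 * δ * (1 - k0) := by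
        have i1 : IntervalIntegrable (fun s : ℝ => s) volume 0 (1 - k0) :=
          continuous_id.intervalIntegrable _ _
        rw [intervalIntegral.integral_sub i1 intervalIntegrable_const,
          integral_id, intervalIntegral.integral_const, smul_eq_mul]
        ring
      rw [← e1]
      refine intervalIntegral.integral_mono_on (by linarith)
        ((continuous_id.sub continuous_const).intervalIntegrable _ _) hcm.intervalIntegrable ?_
      intro x hx
      exact csum_ge hδ0 hzero hone hκ0 hx.1 (by rw [hq]; exact hx.2)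
    have e2 : δ * (32 * d) ≤ k0 := by
      rwa [le_div_iff₀ (by positivity)] at hδle
    nlinarith [mul_pos hA0 hδ0, mul_nonneg hA0.le (sub_nonneg.2 hi)]
  have hcc : ∀ t, 1 - k0 ≤ t → csum κ δ M t = csum κ δ M (1 - k0) := fun t ht => by
    rw [csum_const hδ0 hzero hone (by rw [hq]; exact ht),
      csum_const hδ0 hzero hone (le_of_eq hq)]
  let P : Profile α := ⟨csum κ δ M, 8 * d, 2 * M * δ * (1 / δ) ^ α, 1 - k0, hA0, by positivity,
    by linarith, csum_odd, hcm, fun s t => csum_holder hδ0 hhol s t,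
    fun t ht => csum_le_self hδ0 hzero hκ1 ht, hcc, hgq⟩
  refine ⟨P, rfl, rfl, ?_, β, 2 * M, hβ0, by linarith, hβ, ?_⟩
  · intro t ht0 ht1
    change t - csum κ δ M t ≤ 1 / (8 * d ^ 2)
    have h8 : (1:ℝ) / (8 * d ^ 2) = 2 * k0 := by
      rw [hk0]
      field_simp
      norm_num
    rw [h8]
    rcases le_total t (1 - k0) with h | h
    · have := csum_ge hδ0 hzero hone hκ0 ht0 (by rw [hq]; exact h)
      linarith
    · rw [csum_const hδ0 hzero hone (by rw [hq]; exact h)]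
      have : δ * M = 1 - k0 - δ := by linarith
      rw [this]
      linarith
  · intro n
    have hδ1 : δ ≤ 1 := by linarith
    exact csum_cover hδ0 hδ1 hβ0 hcov n

end MP_fd31a8_an
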