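import Pool.Agent.Lib.MP_fd31a8_an.Basic

/-! # The good representative: topological boundary = measure theoretic boundary -/

open MeasureTheory Set Filter
open scoped ENNReal NNReal Topology

namespace MP_fd31a8_an

variable {d : ℕ}

lemma essBoundary_congr {A B : Set (Sp d)} (h : A =ᵐ[volume] B) :
    essBoundary A = essBoundary B := by
  have h1 : ∀ (x : Sp d) (r : ℝ), volume (A ∩ Metric.ball x r) = volume (B ∩ Metric.ball x r) :=
    fun x r => measure_congr (h.inter (ae_eq_refl _))
  have h2 : ∀ (x : Sp d) (r : ℝ), volume (Metric.ball x r \ A) = volume (Metric.ball x r \ B) :=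
    fun x r => measure_congr ((ae_eq_refl _).diff h)
  unfold essBoundary
  simp only [h1, h2]

theorem exists_repr {E : Set (Sp d)} (hE : MeasurableSet E) :
    ∃ F : Set (Sp d), MeasurableSet F ∧ F =ᵐ[volume] E ∧ frontier F = essBoundary F ∧
      ∀ x ∈ F, x ∈ E ∨ ∃ r > 0, volume (Metric.ball x r \ E) = 0 := by
  set E1 : Set (Sp d) := {x | ∃ r > 0, volume (Metric.ball x r \ E) = 0} with hE1
  set E0 : Set (Sp d) := {x | ∃ r > 0, volume (E ∩ Metric.ball x r) = 0} with hE0
  have hE1o : IsOpen E1 := by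
    rw [Metric.isOpen_iff]
    rintro x ⟨r, hr, hx⟩
    refine ⟨r / 2, by positivity, fun y hy => ⟨r / 2, by positivity, ?_⟩⟩
    refine measure_mono_null (sdiff_subset_sdiff_left ?_) hx
    refine Metric.ball_subset_ball' ?_
    rw [Metric.mem_ball] at hy
    linarith
  have hE0o : IsOpen E0 := by
    rw [Metric.isOpen_iff]
    rintro x ⟨r, hr, hx⟩
    refine ⟨r / 2, by positivity, fun y hy => ⟨r / 2, by positivity, ?_⟩⟩
    refine measure_mono_null (inter_subset_inter_right _ ?_) hx
    refine Metric.ball_subset_ball' ?_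
    rw [Metric.mem_ball] at hy
    linarith
  have hn1 : volume (E1 \ E) = 0 := by
    refine measure_null_of_locally_null _ ?_
    rintro x ⟨⟨r, hr, hx⟩, -⟩
    refine ⟨(E1 \ E) ∩ Metric.ball x r, inter_mem self_mem_nhdsWithin
      (mem_nhdsWithin_of_mem_nhds (Metric.ball_mem_nhds x hr)), ?_⟩
    refine measure_mono_null ?_ hx
    rintro y ⟨⟨-, hy1⟩, hy2⟩
    exact ⟨hy2, hy1⟩
  have hn0 : volume (E ∩ E0) = 0 := by
    refine measure_null_of_locally_null _ ?_
    rintro x ⟨-, ⟨r, hr, hx⟩⟩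
    refine ⟨(E ∩ E0) ∩ Metric.ball x r, inter_mem self_mem_nhdsWithin
      (mem_nhdsWithin_of_mem_nhds (Metric.ball_mem_nhds x hr)), ?_⟩
    refine measure_mono_null ?_ hx
    rintro y ⟨⟨hy1, -⟩, hy2⟩
    exact ⟨hy1, hy2⟩
  have hdisj : Disjoint E1 E0 := by
    rw [Set.disjoint_left]
    rintro x ⟨r, hr, hx⟩ ⟨s, hs, hx'⟩
    have hmin : 0 < min r s := lt_min hr hs
    have h1 : volume (Metric.ball x (min r s)) = 0 := by
      refine measure_mono_null (t := (Metric.ball x r \ E) ∪ (E ∩ Metric.ball x s)) ?_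
        (measure_union_null hx hx')
      intro y hy
      by_cases hyE : y ∈ E
      · exact Or.inr ⟨hyE, Metric.ball_subset_ball (min_le_right _ _) hy⟩
      · exact Or.inl ⟨Metric.ball_subset_ball (min_le_left _ _) hy, hyE⟩
    exact (Metric.measure_ball_pos volume x hmin).ne' h1
  set F : Set (Sp d) := (E ∪ E1) \ E0 with hF
  have hFm : MeasurableSet F := (hE.union hE1o.measurableSet).diff hE0o.measurableSet
  have hFE : volume (F \ E) = 0 := by
    refine measure_mono_null ?_ hn1
    rintro x ⟨⟨hx1 | hx1, -⟩, hx2⟩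
    · exact absurd hx1 hx2
    · exact ⟨hx1, hx2⟩
  have hEF : volume (E \ F) = 0 := by
    refine measure_mono_null ?_ hn0
    rintro x ⟨hx1, hx2⟩
    refine ⟨hx1, ?_⟩
    by_contra h
    exact hx2 ⟨Or.inl hx1, h⟩
  have hae : F =ᵐ[volume] E := by
    rw [ae_eq_set]
    exact ⟨hFE, hEF⟩
  have hint : interior F = E1 := by
    refine Subset.antisymm (fun x hx => ?_) ?_
    · obtain ⟨r, hr, hball⟩ := Metric.isOpen_iff.1 isOpen_interior x hx
      refine ⟨r, hr, measure_mono_null ?_ hFE⟩
      rintro y ⟨hy1, hy2⟩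
      exact ⟨interior_subset (hball hy1), hy2⟩
    · refine interior_maximal ?_ hE1o
      intro x hx
      exact ⟨Or.inr hx, fun h => Set.disjoint_left.1 hdisj hx h⟩
  have hcl : closure F = E0ᶜ := by
    rw [closure_eq_compl_interior_compl]
    congr 1
    refine Subset.antisymm (fun x hx => ?_) ?_
    · obtain ⟨r, hr, hball⟩ := Metric.isOpen_iff.1 isOpen_interior x hx
      refine ⟨r, hr, measure_mono_null ?_ hEF⟩
      rintro y ⟨hy1, hy2⟩
      exact ⟨hy1, interior_subset (hball hy2)⟩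
    · refine interior_maximal ?_ hE0o
      intro x hx h
      exact h.2 hx
  refine ⟨F, hFm, hae, ?_, ?_⟩
  · rw [essBoundary_congr hae, frontier, hint, hcl]
    ext x
    simp only [essBoundary, hE0, hE1, Set.mem_sdiff, mem_compl_iff, mem_ofPred_eq, not_exists, not_and]
    constructor
    · rintro ⟨ha, hb⟩ r hr
      exact ⟨pos_iff_ne_zero.2 (ha r hr), pos_iff_ne_zero.2 (hb r hr)⟩
    · intro h
      exact ⟨fun r hr => (h r hr).1.ne', fun r hr => (h r hr).2.ne'⟩
  · rintro x ⟨hx | hx, -⟩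
    · exact Or.inl hx
    · exact Or.inr hx

end MP_fd31a8_an
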