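import Pool.Agent.Lib.MP_fd31a8_an.Exist
import Pool.Agent.Lib.MP_fd31a8_an.Upper
import Pool.Agent.Lib.MP_fd31a8_an.ProfileEx
import Pool.Agent.Lib.MP_fd31a8_an.Cube
import Pool.Agent.Lib.MP_fd31a8_an.DimK
import Pool.Agent.Lib.MP_fd31a8_an.Repr

/-! # The upper bound for the contact set -/

open MeasureTheory Set Filter
open scoped ENNReal NNReal Topology

namespace MP_fd31a8_an

variable {d : ℕ}

/-- a Cheeger set may be replaced by a measurable one -/
lemma IsCheegerSet.congr {Ω A B : Set (Sp d)} (hA : IsCheegerSet Ω A) (hB : NullMeasurableSet B)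
    (hBΩ : B ⊆ Ω) (h : B =ᵐ[volume] A) : IsCheegerSet Ω B := by
  obtain ⟨-, -, h3, h4⟩ := hA
  refine ⟨hB, hBΩ, ?_, ?_⟩
  · rwa [measure_congr h]
  · rw [measure_congr h, perimeter_congr h, h4]

/-- the real-number form of minimality -/
lemma cheeger_real {Ω E : Set (Sp d)} (hΩ : Bornology.IsBounded Ω) (hfin : cheegerConst Ω ≠ ∞)
    (hE : IsCheegerSet Ω E) :
    volume E ≠ ∞ ∧ perimeter E ≠ ∞ ∧
      (perimeter E).toReal = (cheegerConst Ω).toReal * (volume E).toReal ∧
      ∀ F ⊆ Ω, MeasurableSet F → perimeter F ≠ ∞ →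
        (cheegerConst Ω).toReal * (volume F).toReal ≤ (perimeter F).toReal := by
  obtain ⟨h1, h2, h3, h4⟩ := hE
  have hΩv : volume Ω ≠ ∞ := hΩ.measure_lt_top.ne
  have hEv : volume E ≠ ∞ := ne_top_of_le_ne_top hΩv (measure_mono h2)
  have h5 : perimeter E = cheegerConst Ω * volume E := by
    rw [← h4, ENNReal.div_mul_cancel h3.ne' hEv]
  refine ⟨hEv, ?_, ?_, ?_⟩
  · rw [h5]
    exact ENNReal.mul_ne_top hfin hEv
  · rw [h5, ENNReal.toReal_mul]
  · intro F hF hFm hFp
    have hFv : volume F ≠ ∞ := ne_top_of_le_ne_top hΩv (measure_mono hF)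
    rw [← ENNReal.toReal_mul]
    refine ENNReal.toReal_mono hFp ?_
    rcases eq_or_ne (volume F) 0 with h0 | h0
    · rw [h0, mul_zero]
      exact zero_le
    · have h6 : cheegerConst Ω ≤ perimeter F / volume F :=
        iInf₂_le F ⟨hFm.nullMeasurableSet, hF, pos_iff_ne_zero.2 h0⟩
      calc cheegerConst Ω * volume F ≤ perimeter F / volume F * volume F := by gcongr
        _ = perimeter F := ENNReal.div_mul_cancel h0 hFv

namespace Profile

variable {α : ℝ} (P : Profile α)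

/-- bound for the gradient on the boundary -/
lemma norm_grad_le (hd : 2 ≤ d) (hA : P.A = 8 * d)
    (hk : ∀ t, 0 ≤ t → t ≤ 1 → t - P.c t ≤ 1 / (8 * d ^ 2)) {x : Sp d} (hx : P.G x = 1) :
    ‖P.grad x‖ ≤ 4 := by
  have hd2 : (2:ℝ) ≤ d := by exact_mod_cast hd
  have hsq : 0 < Real.sqrt d := Real.sqrt_pos.2 (by linarith)
  have hss : Real.sqrt d * Real.sqrt d = d := Real.mul_self_sqrt (by linarith)
  have hxn := P.norm_le_one_of_G_le hx.le
  have hcoord : ∀ i, |P.g' (x i)| ≤ 2 * |x i| + 2 / d := by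
    intro i
    have hxi : |x i| ≤ 1 := (PiLp.norm_apply_le x i).trans hxn
    have h1 : |P.g' (x i)| = P.g' |x i| := by
      rcases le_total 0 (x i) with h | h
      · rw [abs_of_nonneg h, abs_of_nonneg]
        exact le_trans (by positivity) (P.two_mul_le_gD' h)
      · have h2 : P.g' (x i) = - P.g' (- x i) := by rw [P.g'_neg, neg_neg]
        rw [abs_of_nonpos h, h2, abs_neg, abs_of_nonneg]
        exact le_trans (by linarith) (P.two_mul_le_gD' (by linarith))
    rw [h1]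
    unfold g'
    have h3 := hk |x i| (abs_nonneg _) hxi
    have h4 : 2 * (8 * (d:ℝ)) * (1 / (8 * d ^ 2)) = 2 / d := by field_simp
    rw [hA]
    nlinarith [mul_le_mul_of_nonneg_left h3 (by positivity : (0:ℝ) ≤ 2 * (8 * d))]
  have h5 : P.grad x = WithLp.toLp 2 (fun i => P.g' (x i)) := rfl
  have h6 : ‖P.grad x‖ ^ 2 ≤ 16 := by
    rw [EuclideanSpace.norm_sq_eq]
    calc ∑ i, ‖P.grad x i‖ ^ 2 ≤ ∑ i, (8 * |x i| ^ 2 + 8 / d ^ 2) := by
          refine Finset.sum_le_sum fun i _ => ?_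
          have h7 : ‖P.grad x i‖ = |P.g' (x i)| := rfl
          rw [h7]
          have h8 := hcoord i
          have h9 : |P.g' (x i)| ^ 2 ≤ (2 * |x i| + 2 / d) ^ 2 := by
            gcongr
          refine h9.trans ?_
          have h10 : 8 / (d:ℝ) ^ 2 = 8 * (1 / d) ^ 2 := by
            rw [div_pow, one_pow]
            ring
          have h11 : 2 / (d:ℝ) = 2 * (1 / d) := by ring
          rw [h10, h11]
          nlinarith [sq_nonneg (|x i| - 1 / (d:ℝ))]
      _ = 8 * ∑ i, ‖x i‖ ^ 2 + d * (8 / d ^ 2) := by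
          rw [Finset.sum_add_distrib, ← Finset.mul_sum, Finset.sum_const, Finset.card_univ,
            Fintype.card_fin, nsmul_eq_mul]
          rfl
      _ ≤ 8 * 1 + 4 := by
          rw [← EuclideanSpace.norm_sq_eq]
          have h12 : (d:ℝ) * (8 / d ^ 2) = 8 / d := by field_simp
          have h13 : 8 / (d:ℝ) ≤ 4 := by
            rw [div_le_iff₀ (by linarith)]
            linarith
          rw [h12]
          have h14 : ‖x‖ ^ 2 ≤ 1 := pow_le_one₀ (norm_nonneg x) hxn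
          linarith
      _ ≤ 16 := by norm_num
  nlinarith [norm_nonneg (P.grad x)]

/-- **Upper bound for every Cheeger set of `Ω`.** -/
theorem dimH_contact_le (h0 : 0 < α) (hd : 2 ≤ d) (hA : P.A = 8 * d)
    (hk : ∀ t, 0 ≤ t → t ≤ 1 → t - P.c t ≤ 1 / (8 * d ^ 2))
    {β : ℝ} {N : ℕ} (hβ0 : 0 < β) (hβ1 : β < 1) (hβ : β ^ α = 1/2)
    (hT : ∀ n : ℕ, ∃ F : Finset ℝ, F.card ≤ N * 2 ^ n ∧ P.K ⊆ ⋃ a ∈ F, Set.Icc a (a + β ^ n))
    {E : Set (Sp d)} (hE : IsCheegerSet (P.Omega d) E) :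
    dimH (essBoundary E ∩ frontier (P.Omega d)) ≤ ENNReal.ofReal ((d:ℝ) - 2 + α) := by
  have hd2 : (2:ℝ) ≤ d := by exact_mod_cast hd
  obtain ⟨E', hE'E, hE'm, hE'ae⟩ := hE.1.exists_measurable_subset_ae_eq
  have hE' : IsCheegerSet (P.Omega d) E' :=
    hE.congr hE'm.nullMeasurableSet (hE'E.trans hE.2.1) hE'ae
  rw [← essBoundary_congr hE'ae]
  have hle := P.cheegerConst_le hd hA hk
  have hfin : cheegerConst (P.Omega d) ≠ ∞ := ne_top_of_le_ne_top ENNReal.ofReal_ne_top hle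
  obtain ⟨hv, hp, heq, hmin⟩ := cheeger_real P.isBounded_Omega hfin hE'
  have hhle : (cheegerConst (P.Omega d)).toReal ≤ 2 * d * Real.sqrt d := by
    have := ENNReal.toReal_mono ENNReal.ofReal_ne_top hle
    rwa [ENNReal.toReal_ofReal (by positivity)] at this
  refine (dimH_mono ?_).trans (P.dimH_boundary_over_K_le h0 hβ0 hβ1 hβ N hT)
  rintro x ⟨hx1, hx2⟩
  have hG : P.G x = 1 := P.frontier_Omega_subset h0 hx2
  refine ⟨hG, ?_⟩
  by_contra hcon
  push Not at hcon
  refine P.not_contact hE'm hE'.2.1 hv hp heq hmin ENNReal.toReal_nonneg hG hcon ?_ hx1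
  have hgr := P.norm_grad_le hd hA hk hG
  have hsqle : Real.sqrt d ≤ d := by
    rw [Real.sqrt_le_left (by linarith)]
    nlinarith
  calc (cheegerConst (P.Omega d)).toReal * ‖P.grad x‖ ≤ (2 * d * Real.sqrt d) * 4 := by gcongr
    _ < 2 * (1 + P.A) * (d - 1) := by
        rw [hA]
        have hs2 : Real.sqrt d ≤ (d + 1) / 2 := by
          have h1 := Real.mul_self_sqrt (show (0:ℝ) ≤ d by linarith)
          nlinarith [sq_nonneg (Real.sqrt d - 1)]
        nlinarith

end Profile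

end MP_fd31a8_an
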